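import Mathlib
import Pool.Agent.H33.Q1.Tile
import Pool.Agent.Q1.Plane
import Pool.Agent.Q1.M6a.WClosed

set_option autoImplicit false
open Finset

/-! # Corners in the tile frame

A corner is an edge of the grid of the tile frame: `ve (x, y)` is the vertical edge from `(x, y)` to
`(x, y + 1)`, `he (x, y)` is the horizontal edge from `(x, y)` to `(x + 1, y)`. The strand crosses
`ve (x, y)` towards E if `x + y` is odd, towards W if `x + y` is even; it crosses `he (x, y)` towards S
if `x + y` is odd, towards N if `x + y` is even. A closed tile turns the strand to the left, an open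
tile to the right. -/

namespace Pool.Agent.H74.R45

open Pool.Agent.H75.Perc Pool.Agent.H75.TwoArm Pool.Agent.Q1 Pool.Agent.H33.Q1

/-- the vertical edge from `(x, y)` to `(x, y+1)` -/
def ve (p : ℤ × ℤ) : ℤ × ℤ := (p.1 - p.2, p.1 + p.2 + 1)

/-- the horizontal edge from `(x, y)` to `(x+1, y)` -/
def he (p : ℤ × ℤ) : ℤ × ℤ := (p.1 - p.2 + 1, p.1 + p.2 + 1)

variable {x y : ℤ}

lemma ve_inj {p q : ℤ × ℤ} (h : ve p = ve q) : p = q := by
  unfold ve at h
  simp only [Prod.mk.injEq] at h
  refine Prod.ext ?_ ?_ <;> omega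

lemma he_inj {p q : ℤ × ℤ} (h : he p = he q) : p = q := by
  unfold he at h
  simp only [Prod.mk.injEq] at h
  refine Prod.ext ?_ ?_ <;> omega

lemma ve_ne_he (p q : ℤ × ℤ) : ve p ≠ he q := by
  unfold ve he
  intro h
  simp only [Prod.mk.injEq] at h
  omega

lemma lab_ve_E (h : (x + y) % 2 = 1) : lab (ve (x, y)) = lt (x, y) := by
  unfold lab ve lt
  simp only
  rw [if_pos (by omega), if_neg (by omega)]

lemma lab_ve_W (h : (x + y) % 2 = 0) : lab (ve (x, y)) = lt (x - 1, y) := by
  unfold lab ve lt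
  simp only
  rw [if_neg (by omega), if_pos (by omega)]
  refine Prod.ext ?_ ?_ <;> simp only <;> ring

lemma lab_he_S (h : (x + y) % 2 = 1) : lab (he (x, y)) = lt (x, y - 1) := by
  unfold lab he lt
  simp only
  rw [if_pos (by omega), if_pos (by omega)]
  refine Prod.ext ?_ ?_ <;> simp only <;> ring

lemma lab_he_N (h : (x + y) % 2 = 0) : lab (he (x, y)) = lt (x, y) := by
  unfold lab he lt
  simp only
  rw [if_neg (by omega), if_neg (by omega)]
  refine Prod.ext ?_ ?_ <;> simp only; ring

lemma ty_ve_E (h : (x + y) % 2 = 1) : ty (ve (x, y)) = 1 := by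
  unfold ty ve
  simp only
  rw [if_pos (by omega), if_neg (by omega)]

lemma ty_ve_W (h : (x + y) % 2 = 0) : ty (ve (x, y)) = 3 := by
  unfold ty ve
  simp only
  rw [if_neg (by omega), if_pos (by omega)]

lemma ty_he_S (h : (x + y) % 2 = 1) : ty (he (x, y)) = 0 := by
  unfold ty he
  simp only
  rw [if_pos (by omega), if_pos (by omega)]

lemma ty_he_N (h : (x + y) % 2 = 0) : ty (he (x, y)) = 2 := by
  unfold ty he
  simp only
  rw [if_neg (by omega), if_neg (by omega)]

lemma nxC_ve_E (h : (x + y) % 2 = 1) : nxC (ve (x, y)) = he (x, y + 1) := by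
  unfold nxC ve he
  simp only
  rw [if_pos (by omega), if_neg (by omega)]
  refine Prod.ext ?_ ?_ <;> simp only <;> ring

lemma nxC_ve_W (h : (x + y) % 2 = 0) : nxC (ve (x, y)) = he (x - 1, y) := by
  unfold nxC ve he
  simp only
  rw [if_neg (by omega), if_pos (by omega)]
  refine Prod.ext ?_ ?_ <;> simp only <;> ring

lemma nxC_he_S (h : (x + y) % 2 = 1) : nxC (he (x, y)) = ve (x + 1, y - 1) := by
  unfold nxC he ve
  simp only
  rw [if_pos (by omega), if_pos (by omega)]
  refine Prod.ext ?_ ?_ <;> simp only <;> ring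

lemma nxC_he_N (h : (x + y) % 2 = 0) : nxC (he (x, y)) = ve (x, y) := by
  unfold nxC he ve
  simp only
  rw [if_neg (by omega), if_neg (by omega)]
  refine Prod.ext ?_ ?_ <;> simp only; ring

lemma nxO_ve_E (h : (x + y) % 2 = 1) : nxO (ve (x, y)) = he (x, y) := by
  unfold nxO ve he
  simp only
  rw [if_pos (by omega), if_neg (by omega)]

lemma nxO_ve_W (h : (x + y) % 2 = 0) : nxO (ve (x, y)) = he (x - 1, y + 1) := by
  unfold nxO ve he
  simp only
  rw [if_neg (by omega), if_pos (by omega)]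
  refine Prod.ext ?_ ?_ <;> simp only <;> ring

lemma nxO_he_S (h : (x + y) % 2 = 1) : nxO (he (x, y)) = ve (x, y - 1) := by
  unfold nxO he ve
  simp only
  rw [if_pos (by omega), if_pos (by omega)]
  refine Prod.ext ?_ ?_ <;> simp only <;> ring

lemma nxO_he_N (h : (x + y) % 2 = 0) : nxO (he (x, y)) = ve (x + 1, y) := by
  unfold nxO he ve
  simp only
  rw [if_neg (by omega), if_neg (by omega)]
  refine Prod.ext ?_ ?_ <;> simp only <;> ring

/-! ### Steps through a closed or an open tile -/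

lemma nx_closed {w : Finset (ℤ × ℤ)} {c : ℤ × ℤ} (h : lab c ∉ w) : nx w c = nxC c ∧ del w c = 1 := by
  unfold nx del; rw [if_neg h, if_neg h]; exact ⟨rfl, rfl⟩

lemma nx_open {w : Finset (ℤ × ℤ)} {c : ℤ × ℤ} (h : lab c ∈ w) : nx w c = nxO c ∧ del w c = -1 := by
  unfold nx del; rw [if_pos h, if_pos h]; exact ⟨rfl, rfl⟩

variable {w : Finset (ℤ × ℤ)}

/-- towards E, closed: leaves towards N -/
lemma EN (h : (x + y) % 2 = 1) (hw : lt (x, y) ∉ w) :
    nx w (ve (x, y)) = he (x, y + 1) ∧ del w (ve (x, y)) = 1 := by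
  have := nx_closed (w := w) (c := ve (x, y)) (by rw [lab_ve_E h]; exact hw)
  rw [nxC_ve_E h] at this; exact this

/-- towards E, open: leaves towards S -/
lemma ES (h : (x + y) % 2 = 1) (hw : lt (x, y) ∈ w) :
    nx w (ve (x, y)) = he (x, y) ∧ del w (ve (x, y)) = -1 := by
  have := nx_open (w := w) (c := ve (x, y)) (by rw [lab_ve_E h]; exact hw)
  rw [nxO_ve_E h] at this; exact this

/-- towards W, closed: leaves towards S -/
lemma WS (h : (x + y) % 2 = 0) (hw : lt (x - 1, y) ∉ w) :
    nx w (ve (x, y)) = he (x - 1, y) ∧ del w (ve (x, y)) = 1 := by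
  have := nx_closed (w := w) (c := ve (x, y)) (by rw [lab_ve_W h]; exact hw)
  rw [nxC_ve_W h] at this; exact this

/-- towards W, open: leaves towards N -/
lemma WN (h : (x + y) % 2 = 0) (hw : lt (x - 1, y) ∈ w) :
    nx w (ve (x, y)) = he (x - 1, y + 1) ∧ del w (ve (x, y)) = -1 := by
  have := nx_open (w := w) (c := ve (x, y)) (by rw [lab_ve_W h]; exact hw)
  rw [nxO_ve_W h] at this; exact this

/-- towards S, closed: leaves towards E -/
lemma SE (h : (x + y) % 2 = 1) (hw : lt (x, y - 1) ∉ w) :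
    nx w (he (x, y)) = ve (x + 1, y - 1) ∧ del w (he (x, y)) = 1 := by
  have := nx_closed (w := w) (c := he (x, y)) (by rw [lab_he_S h]; exact hw)
  rw [nxC_he_S h] at this; exact this

/-- towards S, open: leaves towards W -/
lemma SW (h : (x + y) % 2 = 1) (hw : lt (x, y - 1) ∈ w) :
    nx w (he (x, y)) = ve (x, y - 1) ∧ del w (he (x, y)) = -1 := by
  have := nx_open (w := w) (c := he (x, y)) (by rw [lab_he_S h]; exact hw)
  rw [nxO_he_S h] at this; exact this

/-- towards N, closed: leaves towards W -/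
lemma NW (h : (x + y) % 2 = 0) (hw : lt (x, y) ∉ w) :
    nx w (he (x, y)) = ve (x, y) ∧ del w (he (x, y)) = 1 := by
  have := nx_closed (w := w) (c := he (x, y)) (by rw [lab_he_N h]; exact hw)
  rw [nxC_he_N h] at this; exact this

/-- towards N, open: leaves towards E -/
lemma NE (h : (x + y) % 2 = 0) (hw : lt (x, y) ∈ w) :
    nx w (he (x, y)) = ve (x + 1, y) ∧ del w (he (x, y)) = -1 := by
  have := nx_open (w := w) (c := he (x, y)) (by rw [lab_he_N h]; exact hw)
  rw [nxO_he_N h] at this; exact this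

/-! ### The identity at a tile -/

lemma in_odd (h : (x + y) % 2 = 1) :
    in1 (lt (x, y)) = ve (x, y) ∧ in2 (lt (x, y)) = ve (x + 1, y) := by
  unfold in1 in2 lt ve
  simp only
  rw [if_pos (by omega), if_pos (by omega)]
  refine ⟨rfl, ?_⟩
  refine Prod.ext ?_ ?_ <;> simp only <;> ring

lemma in_even (h : (x + y) % 2 = 0) :
    in1 (lt (x, y)) = he (x, y + 1) ∧ in2 (lt (x, y)) = he (x, y) := by
  unfold in1 in2 lt he
  simp only
  rw [if_neg (by omega), if_neg (by omega)]
  refine ⟨?_, rfl⟩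
  refine Prod.ext ?_ ?_ <;> simp only <;> ring

/-- ratio of the two sides at a tile of weight `a` -/
noncomputable def rho (a : ℂ) : ℂ := ((1 - a) * w6 + a) / ((1 - a) + a * w6)

variable {X : Env} {q : ℤ × ℤ → ℂ} {a : ℂ}

/-- tile `x + y` odd with the weight `a` of the state `α` (closed) -/
theorem tile_odd (h : (x + y) % 2 = 1) (hE : lt (x, y) ∈ X.E) (hq : q (lt (x, y)) = 1 - a) :
    ((1 - a) + a * w6) * (X.incW q (ve (x, y)) + X.incW q (ve (x + 1, y))) =
      ((1 - a) * w6 + a) * (X.incW q (he (x, y + 1)) + X.incW q (he (x, y))) := by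
  have h1 := Env.closedW (X := X) q hE
  rw [(in_odd h).1, (in_odd h).2, nxC_ve_E h, nxC_ve_W (by omega : (x + 1 + y) % 2 = 0), hq,
    w6_inv] at h1
  rw [show x + 1 - 1 = x by ring] at h1
  have hw := w6_sq
  linear_combination h1 + (1 - a) * (X.incW q (he (x, y + 1)) + X.incW q (he (x, y))) * hw

/-- tile `x + y` even with the weight `a` of the state `α` (open) -/
theorem tile_even (h : (x + y) % 2 = 0) (hE : lt (x, y) ∈ X.E) (hq : q (lt (x, y)) = a) :
    ((1 - a) + a * w6) * (X.incW q (ve (x, y)) + X.incW q (ve (x + 1, y))) =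
      ((1 - a) * w6 + a) * (X.incW q (he (x, y + 1)) + X.incW q (he (x, y))) := by
  have h1 := Env.closedW (X := X) q hE
  rw [(in_even h).1, (in_even h).2, nxC_he_S (by omega : (x + (y + 1)) % 2 = 1), nxC_he_N h, hq,
    w6_inv] at h1
  rw [show y + 1 - 1 = y by ring] at h1
  have hw := w6_sq
  linear_combination -h1 - a * (X.incW q (ve (x, y)) + X.incW q (ve (x + 1, y))) * hw

end Pool.Agent.H74.R45
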