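import Mathlib
import Pool.Agent.H74.R45.Geo

set_option autoImplicit false
open Finset

/-! # The plane environments of a rectangle (R45)

Tile frame. `w`, `h`, `j` are even in the applications, `0 ≤ j ≤ h`. The rectangle `D = [0,w) × [0,h)`;
a line of real tiles from the corner NW to the corner SE: column `x = -1`, `y ≥ j`, downwards; row
`y = j - 1` to the east; column `x = w`, `y < j - 1`, downwards. The part `P+ = [0,w] × [j,h]` of the
rectangle above the row does not move, the part below it is shifted by `(0,-1)`, `P- = [0,w] × [-1,j-1]`.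
Left and right walls are wired, floor and ceiling are free. `Wo` : open labels far away. -/

namespace Pool.Agent.H74.R45

open Pool.Agent.H75.Perc Pool.Agent.H75.TwoArm Pool.Agent.Q1 Pool.Agent.H33.Q1
open Pool.Agent.H75.Four Pool.Agent.H69.Q1

/-- the labels of the tiles of `[x0, x1) × [y0, y1)` -/
noncomputable def RT (x0 x1 y0 y1 : ℤ) : Finset (ℤ × ℤ) := (Ico x0 x1 ×ˢ Ico y0 y1).image lt

lemma mem_RT {x0 x1 y0 y1 : ℤ} {e : ℤ × ℤ} : e ∈ RT x0 x1 y0 y1 ↔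
    ∃ x y, e = lt (x, y) ∧ x0 ≤ x ∧ x < x1 ∧ y0 ≤ y ∧ y < y1 := by
  unfold RT
  simp only [mem_image, mem_product, mem_Ico, Prod.exists]
  constructor
  · rintro ⟨x, y, ⟨⟨h1, h2⟩, h3, h4⟩, rfl⟩
    exact ⟨x, y, rfl, h1, h2, h3, h4⟩
  · rintro ⟨x, y, rfl, h1, h2, h3, h4⟩
    exact ⟨x, y, ⟨⟨h1, h2⟩, h3, h4⟩, rfl⟩

lemma lt_mem_RT {x0 x1 y0 y1 x y : ℤ} : lt (x, y) ∈ RT x0 x1 y0 y1 ↔
    x0 ≤ x ∧ x < x1 ∧ y0 ≤ y ∧ y < y1 := by
  rw [mem_RT]
  constructor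
  · rintro ⟨a, b, h, h1⟩
    have := lt_inj h
    simp only [Prod.mk.injEq] at this
    obtain ⟨rfl, rfl⟩ := this
    exact h1
  · intro h; exact ⟨x, y, rfl, h⟩

lemma odd_RT {x0 x1 y0 y1 : ℤ} {e : ℤ × ℤ} (h : e ∈ RT x0 x1 y0 y1) : (e.1 + e.2) % 2 = 1 := by
  obtain ⟨x, y, rfl, -⟩ := mem_RT.1 h
  exact lt_odd _

lemma exists_lt {e : ℤ × ℤ} (h : (e.1 + e.2) % 2 = 1) : ∃ x y, e = lt (x, y) :=
  ⟨(tt e).1, (tt e).2, (lt_tt h).symm⟩

/-- random labels of the environment number `j` -/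
noncomputable def EJ (w h j : ℤ) : Finset (ℤ × ℤ) :=
  RT 0 w (-1) h ∪ RT (-1) 0 j h ∪ RT w (w + 1) (-1) (j - 1)

/-- open labels of the environment number `j`, near the rectangle -/
noncomputable def WR (w h j : ℤ) : Finset (ℤ × ℤ) :=
  RT (-1) 0 (-1) (j - 1) ∪ RT w (w + 1) (j - 1) h ∪ RT (-2) (-1) (-1) h ∪ RT (w + 1) (w + 2) (-1) h

/-- open labels of the environment number `j` -/
noncomputable def WJ (w h j : ℤ) (Wo : Finset (ℤ × ℤ)) : Finset (ℤ × ℤ) := WR w h j ∪ Wo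

/-- open weights, `a` : weight of `α` when the line goes to the east, `b` : to the south -/
noncomputable def qJ (w h j : ℤ) (a b : ℂ) (e : ℤ × ℤ) : ℂ :=
  if (tt e).1 = -1 ∨ (tt e).1 = w then (if ((tt e).1 + (tt e).2) % 2 = 1 then b else 1 - b)
  else if (tt e).2 = j - 1 then (if ((tt e).1 + (tt e).2) % 2 = 0 then a else 1 - a)
  else 1 / 2

variable {w h j x y : ℤ} {a b : ℂ}

lemma mem_EJ : lt (x, y) ∈ EJ w h j ↔ (0 ≤ x ∧ x < w ∧ -1 ≤ y ∧ y < h) ∨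
    (x = -1 ∧ j ≤ y ∧ y < h) ∨ (x = w ∧ -1 ≤ y ∧ y < j - 1) := by
  unfold EJ
  rw [mem_union, mem_union, lt_mem_RT, lt_mem_RT, lt_mem_RT]
  constructor
  · rintro ((h1 | h1) | h1)
    · exact Or.inl h1
    · exact Or.inr (Or.inl ⟨by omega, by omega, by omega⟩)
    · exact Or.inr (Or.inr ⟨by omega, by omega, by omega⟩)
  · rintro (h1 | h1 | h1)
    · exact Or.inl (Or.inl h1)
    · exact Or.inl (Or.inr ⟨by omega, by omega, by omega, by omega⟩)
    · exact Or.inr ⟨by omega, by omega, by omega, by omega⟩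

lemma mem_WR : lt (x, y) ∈ WR w h j ↔ (x = -1 ∧ -1 ≤ y ∧ y < j - 1) ∨
    (x = w ∧ j - 1 ≤ y ∧ y < h) ∨ (x = -2 ∧ -1 ≤ y ∧ y < h) ∨ (x = w + 1 ∧ -1 ≤ y ∧ y < h) := by
  unfold WR
  rw [mem_union, mem_union, mem_union, lt_mem_RT, lt_mem_RT, lt_mem_RT, lt_mem_RT]
  constructor
  · rintro (((h1 | h1) | h1) | h1)
    · exact Or.inl ⟨by omega, by omega, by omega⟩
    · exact Or.inr (Or.inl ⟨by omega, by omega, by omega⟩)
    · exact Or.inr (Or.inr (Or.inl ⟨by omega, by omega, by omega⟩))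
    · exact Or.inr (Or.inr (Or.inr ⟨by omega, by omega, by omega⟩))
  · rintro (h1 | h1 | h1 | h1)
    · exact Or.inl (Or.inl (Or.inl ⟨by omega, by omega, by omega, by omega⟩))
    · exact Or.inl (Or.inl (Or.inr ⟨by omega, by omega, by omega, by omega⟩))
    · exact Or.inl (Or.inr ⟨by omega, by omega, by omega, by omega⟩)
    · exact Or.inr ⟨by omega, by omega, by omega, by omega⟩

lemma odd_EJ {e : ℤ × ℤ} (he : e ∈ EJ w h j) : (e.1 + e.2) % 2 = 1 := by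
  unfold EJ at he
  rw [mem_union, mem_union] at he
  rcases he with (h1 | h1) | h1 <;> exact odd_RT h1

lemma odd_WR {e : ℤ × ℤ} (he : e ∈ WR w h j) : (e.1 + e.2) % 2 = 1 := by
  unfold WR at he
  rw [mem_union, mem_union, mem_union] at he
  rcases he with ((h1 | h1) | h1) | h1 <;> exact odd_RT h1

lemma disj_EN (hw : 0 ≤ w) : Disjoint (EJ w h j) (WR w h j) := by
  rw [disjoint_left]
  intro e h1 h2
  obtain ⟨x, y, rfl⟩ := exists_lt (odd_EJ h1)
  rw [mem_EJ] at h1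
  rw [mem_WR] at h2
  omega

/-- all labels which are random or open in one of the environments, near the rectangle -/
noncomputable def GA (w h : ℤ) : Finset (ℤ × ℤ) := RT (-2) (w + 2) (-1) h

lemma EJ_sub (hw : 0 ≤ w) (h0 : 0 ≤ j) (h1 : j ≤ h) : EJ w h j ⊆ GA w h := by
  intro e he
  obtain ⟨x, y, rfl⟩ := exists_lt (odd_EJ he)
  rw [mem_EJ] at he
  unfold GA
  rw [lt_mem_RT]
  omega

lemma WR_sub (hw : 0 ≤ w) (h0 : 0 ≤ j) (h1 : j ≤ h) : WR w h j ⊆ GA w h := by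
  intro e he
  obtain ⟨x, y, rfl⟩ := exists_lt (odd_WR he)
  rw [mem_WR] at he
  unfold GA
  rw [lt_mem_RT]
  omega

/-- **Data of the outside**: far open labels and the root corner. -/
structure Out (w h : ℤ) where
  Wo : Finset (ℤ × ℤ)
  c0 : ℤ × ℤ
  k0 : ℤ
  g : ℤ × ℤ
  hw : 2 ≤ w
  hh : 2 ≤ h
  w2 : w % 2 = 0
  h2 : h % 2 = 0
  /-- the far labels avoid the rectangle, its walls and the rows of free labels below and above it -/
  far : ∀ x y, lt (x, y) ∈ Wo → ¬ (-2 ≤ x ∧ x < w + 2 ∧ -2 ≤ y ∧ y ≤ h)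
  hk : k0 % 4 = ty c0
  hroot : plab c0 ∉ GA w h
  hg : DCo (GA w h ∪ Wo) (fi c0) g
  hlow : ∀ v, Co (GA w h ∪ Wo) (vx c0) v → g.2 < v.2

variable (O : Out w h)

lemma disj_EW (O : Out w h) (h0 : 0 ≤ j) (h1 : j ≤ h) : Disjoint (EJ w h j) (WJ w h j O.Wo) := by
  have hw := O.hw
  unfold WJ
  rw [disjoint_union_right]
  refine ⟨disj_EN (by omega), ?_⟩
  rw [disjoint_left]
  intro e he h2
  obtain ⟨x, y, rfl⟩ := exists_lt (odd_EJ he)
  have h3 := O.far x y h2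
  rw [mem_EJ] at he
  omega

lemma EW_sub (O : Out w h) (h0 : 0 ≤ j) (h1 : j ≤ h) :
    EJ w h j ∪ WJ w h j O.Wo ⊆ GA w h ∪ O.Wo := by
  have hw := O.hw
  unfold WJ
  rw [← union_assoc]
  refine union_subset_union_left (union_subset (EJ_sub (by omega) h0 h1) (WR_sub (by omega) h0 h1))

/-- **The environment number `j`.** -/
noncomputable def XJ (O : Out w h) (j : ℤ) (h0 : 0 ≤ j) (h1 : j ≤ h) : Env :=
  Env.plane (EJ w h j) (WJ w h j O.Wo) O.c0 O.k0 O.g (fun _ he => odd_EJ he) (disj_EW O h0 h1) O.hk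
    (fun h => O.hroot (EJ_sub (by have := O.hw; omega) h0 h1 h)) (O.hg.anti (EW_sub O h0 h1))
    (fun v hv => O.hlow v (hv.mono (EW_sub O h0 h1)))

variable {O} {h0 : 0 ≤ j} {h1 : j ≤ h}

@[simp] lemma XJ_E : (XJ O j h0 h1).E = EJ w h j := rfl
@[simp] lemma XJ_c0 : (XJ O j h0 h1).c0 = O.c0 := rfl
@[simp] lemma XJ_k0 : (XJ O j h0 h1).k0 = O.k0 := rfl
@[simp] lemma XJ_T : (XJ O j h0 h1).T = 4 := rfl

end Pool.Agent.H74.R45
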