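import Mathlib
import Pool.Agent.H74.R45.Def

set_option autoImplicit false
open Finset

/-! # The deterministic paths (wires) of the environments of a rectangle

`Wire X c c' t` : the deterministic path from the corner `c` leads to `c'` through non random labels and
turns by `t` quarter turns. `j` is even. -/

namespace Pool.Agent.H74.R45

open Pool.Agent.H75.Perc Pool.Agent.H75.TwoArm Pool.Agent.Q1 Pool.Agent.H33.Q1
open Pool.Agent.H75.Four Pool.Agent.H69.Q1

/-- a deterministic path -/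
def Wire (X : Env) (c c' : ℤ × ℤ) (t : ℤ) : Prop :=
  ∃ n : ℕ, (∀ i < n, lab (X.out^[i] c) ∉ X.E) ∧ X.out^[n] c = c' ∧
    ∑ i ∈ range n, X.dout (X.out^[i] c) = t

lemma Wire.nil {X : Env} (c : ℤ × ℤ) : Wire X c c 0 :=
  ⟨0, fun i hi => absurd hi (Nat.not_lt_zero i), rfl, by simp⟩

lemma Wire.cons {X : Env} {c c1 c' : ℤ × ℤ} {d t s : ℤ} (hE : lab c ∉ X.E) (h1 : X.out c = c1)
    (h2 : X.dout c = d) (h : Wire X c1 c' t) (hs : s = d + t) : Wire X c c' s := by
  obtain ⟨n, a1, a2, a3⟩ := h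
  refine ⟨n + 1, fun i hi => ?_, ?_, ?_⟩
  · rcases i with _ | i
    · exact hE
    · rw [Function.iterate_succ_apply, h1]; exact a1 i (by omega)
  · rw [Function.iterate_succ_apply, h1]; exact a2
  · rw [sum_range_succ', hs, ← a3, Function.iterate_zero_apply, h2, add_comm]
    congr 1
    refine sum_congr rfl fun i _ => ?_
    rw [Function.iterate_succ_apply, h1]

lemma Wire.trans {X : Env} {c c1 c' : ℤ × ℤ} {t s : ℤ} (h : Wire X c c1 t) (h' : Wire X c1 c' s) :
    Wire X c c' (t + s) := by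
  obtain ⟨n, a1, a2, a3⟩ := h
  obtain ⟨m, b1, b2, b3⟩ := h'
  have e : ∀ i, X.out^[n + i] c = X.out^[i] c1 := fun i => by
    rw [add_comm, Function.iterate_add_apply, a2]
  refine ⟨n + m, fun i hi => ?_, ?_, ?_⟩
  · rcases Nat.lt_or_ge i n with h | h
    · exact a1 i h
    · obtain ⟨k, rfl⟩ := Nat.exists_eq_add_of_le h
      rw [e]; exact b1 k (by omega)
  · rw [e]; exact b2
  · rw [sum_range_add, a3]
    congr 1
    rw [← b3]
    exact sum_congr rfl fun i _ => by rw [e]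

variable {w h j x y : ℤ}

section step

variable {O : Out w h} {h0 : 0 ≤ j} {h1 : j ≤ h} {c' : ℤ × ℤ} {t s : ℤ}

lemma XJ_out (c : ℤ × ℤ) : (XJ O j h0 h1).out c = nx (WJ w h j O.Wo) c := rfl

lemma XJ_dout (c : ℤ × ℤ) : (XJ O j h0 h1).dout c = del (WJ w h j O.Wo) c := rfl

lemma mem_WJ (hn : -2 ≤ x ∧ x < w + 2 ∧ -2 ≤ y ∧ y ≤ h) :
    lt (x, y) ∈ WJ w h j O.Wo ↔ lt (x, y) ∈ WR w h j := by
  unfold WJ
  rw [mem_union]
  exact ⟨fun h => h.resolve_right fun h' => O.far x y h' hn, Or.inl⟩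

lemma Wire.EN (hp : (x + y) % 2 = 1) (hn : -2 ≤ x ∧ x < w + 2 ∧ -2 ≤ y ∧ y ≤ h)
    (hE : lt (x, y) ∉ EJ w h j) (hW : lt (x, y) ∉ WR w h j)
    (H : Wire (XJ O j h0 h1) (he (x, y + 1)) c' t) (hs : s = 1 + t) :
    Wire (XJ O j h0 h1) (ve (x, y)) c' s := by
  obtain ⟨a1, a2⟩ := R45.EN (w := WJ w h j O.Wo) hp (by rw [mem_WJ hn]; exact hW)
  exact Wire.cons (by rw [lab_ve_E hp]; exact hE) a1 a2 H hs

lemma Wire.ES (hp : (x + y) % 2 = 1) (hn : -2 ≤ x ∧ x < w + 2 ∧ -2 ≤ y ∧ y ≤ h)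
    (hE : lt (x, y) ∉ EJ w h j) (hW : lt (x, y) ∈ WR w h j)
    (H : Wire (XJ O j h0 h1) (he (x, y)) c' t) (hs : s = -1 + t) :
    Wire (XJ O j h0 h1) (ve (x, y)) c' s := by
  obtain ⟨a1, a2⟩ := R45.ES (w := WJ w h j O.Wo) hp (by rw [mem_WJ hn]; exact hW)
  exact Wire.cons (by rw [lab_ve_E hp]; exact hE) a1 a2 H hs

lemma Wire.WS (hp : (x + y) % 2 = 0) (hn : -2 ≤ x - 1 ∧ x - 1 < w + 2 ∧ -2 ≤ y ∧ y ≤ h)
    (hE : lt (x - 1, y) ∉ EJ w h j) (hW : lt (x - 1, y) ∉ WR w h j)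
    (H : Wire (XJ O j h0 h1) (he (x - 1, y)) c' t) (hs : s = 1 + t) :
    Wire (XJ O j h0 h1) (ve (x, y)) c' s := by
  obtain ⟨a1, a2⟩ := R45.WS (w := WJ w h j O.Wo) hp (by rw [mem_WJ hn]; exact hW)
  exact Wire.cons (by rw [lab_ve_W hp]; exact hE) a1 a2 H hs

lemma Wire.WN (hp : (x + y) % 2 = 0) (hn : -2 ≤ x - 1 ∧ x - 1 < w + 2 ∧ -2 ≤ y ∧ y ≤ h)
    (hE : lt (x - 1, y) ∉ EJ w h j) (hW : lt (x - 1, y) ∈ WR w h j)
    (H : Wire (XJ O j h0 h1) (he (x - 1, y + 1)) c' t) (hs : s = -1 + t) :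
    Wire (XJ O j h0 h1) (ve (x, y)) c' s := by
  obtain ⟨a1, a2⟩ := R45.WN (w := WJ w h j O.Wo) hp (by rw [mem_WJ hn]; exact hW)
  exact Wire.cons (by rw [lab_ve_W hp]; exact hE) a1 a2 H hs

lemma Wire.SE (hp : (x + y) % 2 = 1) (hn : -2 ≤ x ∧ x < w + 2 ∧ -2 ≤ y - 1 ∧ y - 1 ≤ h)
    (hE : lt (x, y - 1) ∉ EJ w h j) (hW : lt (x, y - 1) ∉ WR w h j)
    (H : Wire (XJ O j h0 h1) (ve (x + 1, y - 1)) c' t) (hs : s = 1 + t) :
    Wire (XJ O j h0 h1) (he (x, y)) c' s := by
  obtain ⟨a1, a2⟩ := R45.SE (w := WJ w h j O.Wo) hp (by rw [mem_WJ hn]; exact hW)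
  exact Wire.cons (by rw [lab_he_S hp]; exact hE) a1 a2 H hs

lemma Wire.SW (hp : (x + y) % 2 = 1) (hn : -2 ≤ x ∧ x < w + 2 ∧ -2 ≤ y - 1 ∧ y - 1 ≤ h)
    (hE : lt (x, y - 1) ∉ EJ w h j) (hW : lt (x, y - 1) ∈ WR w h j)
    (H : Wire (XJ O j h0 h1) (ve (x, y - 1)) c' t) (hs : s = -1 + t) :
    Wire (XJ O j h0 h1) (he (x, y)) c' s := by
  obtain ⟨a1, a2⟩ := R45.SW (w := WJ w h j O.Wo) hp (by rw [mem_WJ hn]; exact hW)
  exact Wire.cons (by rw [lab_he_S hp]; exact hE) a1 a2 H hs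

lemma Wire.NW (hp : (x + y) % 2 = 0) (hn : -2 ≤ x ∧ x < w + 2 ∧ -2 ≤ y ∧ y ≤ h)
    (hE : lt (x, y) ∉ EJ w h j) (hW : lt (x, y) ∉ WR w h j)
    (H : Wire (XJ O j h0 h1) (ve (x, y)) c' t) (hs : s = 1 + t) :
    Wire (XJ O j h0 h1) (he (x, y)) c' s := by
  obtain ⟨a1, a2⟩ := R45.NW (w := WJ w h j O.Wo) hp (by rw [mem_WJ hn]; exact hW)
  exact Wire.cons (by rw [lab_he_N hp]; exact hE) a1 a2 H hs

lemma Wire.NE (hp : (x + y) % 2 = 0) (hn : -2 ≤ x ∧ x < w + 2 ∧ -2 ≤ y ∧ y ≤ h)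
    (hE : lt (x, y) ∉ EJ w h j) (hW : lt (x, y) ∈ WR w h j)
    (H : Wire (XJ O j h0 h1) (ve (x + 1, y)) c' t) (hs : s = -1 + t) :
    Wire (XJ O j h0 h1) (he (x, y)) c' s := by
  obtain ⟨a1, a2⟩ := R45.NE (w := WJ w h j O.Wo) hp (by rw [mem_WJ hn]; exact hW)
  exact Wire.cons (by rw [lab_he_N hp]; exact hE) a1 a2 H hs

lemma Wire.to {c c1 : ℤ × ℤ} (h : c = c1) : Wire (XJ O j h0 h1) c c1 0 := h ▸ Wire.nil c

end step

/-! ### The wires near the rectangle -/

lemma nE (H : ¬ ((0 ≤ x ∧ x < w ∧ -1 ≤ y ∧ y < h) ∨ (x = -1 ∧ j ≤ y ∧ y < h) ∨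
    (x = w ∧ -1 ≤ y ∧ y < j - 1))) : lt (x, y) ∉ EJ w h j := fun h' => H (mem_EJ.1 h')

lemma nW (H : ¬ ((x = -1 ∧ -1 ≤ y ∧ y < j - 1) ∨ (x = w ∧ j - 1 ≤ y ∧ y < h) ∨
    (x = -2 ∧ -1 ≤ y ∧ y < h) ∨ (x = w + 1 ∧ -1 ≤ y ∧ y < h))) : lt (x, y) ∉ WR w h j :=
  fun h' => H (mem_WR.1 h')

lemma iW (H : (x = -1 ∧ -1 ≤ y ∧ y < j - 1) ∨ (x = w ∧ j - 1 ≤ y ∧ y < h) ∨
    (x = -2 ∧ -1 ≤ y ∧ y < h) ∨ (x = w + 1 ∧ -1 ≤ y ∧ y < h)) : lt (x, y) ∈ WR w h j :=
  mem_WR.2 H

lemma ve_eq {x' y' : ℤ} (hx : x = x') (hy : y = y') : ve (x, y) = ve (x', y') := by rw [hx, hy]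

lemma he_eq {x' y' : ℤ} (hx : x = x') (hy : y = y') : he (x, y) = he (x', y') := by rw [hx, hy]

section wires

variable (O : Out w h) (h0 : 0 ≤ j) (h1 : j ≤ h)

/-- outer caps of the left column -/
lemma w_left_out {m : ℤ} (a : j < 2 * m) (b : 2 * m < h) :
    Wire (XJ O j h0 h1) (ve (-1, 2 * m - 1)) (ve (-1, 2 * m)) (-2) := by
  have := O.hw
  have := O.w2
  have := O.hh
  have := O.h2
  exact (Wire.WN (t := -1) (by omega) (by omega) (nE (by omega)) (iW (by omega))
    (Wire.NE (t := 0) (by omega) (by omega) (nE (by omega)) (iW (by omega))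
    (Wire.to (ve_eq (by omega) (by omega))) (by norm_num)) (by norm_num))

/-- from the last end of `P-` on the left wall to the first outer end of the left column -/
lemma w_left_mid (hj : j % 2 = 0) (a : 2 ≤ j) (b : j < h) :
    Wire (XJ O j h0 h1) (ve (0, j - 2)) (ve (-1, j)) (-2) := by
  have := O.hw
  have := O.w2
  have := O.hh
  have := O.h2
  exact (Wire.WN (t := -1) (by omega) (by omega) (nE (by omega)) (iW (by omega))
    (Wire.NW (t := -2) (by omega) (by omega) (nE (by omega)) (nW (by omega))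
    (Wire.WN (t := -1) (by omega) (by omega) (nE (by omega)) (iW (by omega))
    (Wire.NE (t := 0) (by omega) (by omega) (nE (by omega)) (iW (by omega))
    (Wire.to (ve_eq (by omega) (by omega))) (by norm_num)) (by norm_num)) (by norm_num)) (by norm_num))

/-- caps of `P-` on the left wall -/
lemma w_left_low {m : ℤ} (a : 0 ≤ m) (b : 2 * m + 2 < j) :
    Wire (XJ O j h0 h1) (ve (0, 2 * m)) (ve (0, 2 * m + 1)) (-2) := by
  have := O.hw
  have := O.w2
  have := O.hh
  have := O.h2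
  exact (Wire.WN (t := -1) (by omega) (by omega) (nE (by omega)) (iW (by omega))
    (Wire.NE (t := 0) (by omega) (by omega) (nE (by omega)) (iW (by omega))
    (Wire.to (ve_eq (by omega) (by omega))) (by norm_num)) (by norm_num))

/-- caps of the ceiling -/
lemma w_ceil {m : ℤ} (a : 1 ≤ m) (b : 2 * m < w) :
    Wire (XJ O j h0 h1) (he (2 * m, h)) (he (2 * m - 1, h)) 2 := by
  have := O.hw
  have := O.w2
  have := O.hh
  have := O.h2
  exact (Wire.NW (t := 1) (by omega) (by omega) (nE (by omega)) (nW (by omega))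
    (Wire.WS (t := 0) (by omega) (by omega) (nE (by omega)) (nW (by omega))
    (Wire.to (he_eq (by omega) (by omega))) (by norm_num)) (by norm_num))

/-- the first end of the ceiling, `j < h` -/
lemma w_ceil0 (a : j < h) :
    Wire (XJ O j h0 h1) (he (0, h)) (he (-1, h)) 2 := by
  have := O.hw
  have := O.w2
  have := O.hh
  have := O.h2
  exact (Wire.NW (t := 1) (by omega) (by omega) (nE (by omega)) (nW (by omega))
    (Wire.WS (t := 0) (by omega) (by omega) (nE (by omega)) (nW (by omega))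
    (Wire.to (he_eq (by omega) (by omega))) (by norm_num)) (by norm_num))

/-- the first end of the ceiling, `j = h` -/
lemma w_ceil0' (a : j = h) :
    Wire (XJ O j h0 h1) (he (0, h)) (ve (0, h - 1)) 3 := by
  have := O.hw
  have := O.w2
  have := O.hh
  have := O.h2
  exact (Wire.NW (t := 2) (by omega) (by omega) (nE (by omega)) (nW (by omega))
    (Wire.WS (t := 1) (by omega) (by omega) (nE (by omega)) (nW (by omega))
    (Wire.SE (t := 0) (by omega) (by omega) (nE (by omega)) (nW (by omega))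
    (Wire.to (ve_eq (by omega) (by omega))) (by norm_num)) (by norm_num)) (by norm_num))

/-- caps of the floor -/
lemma w_floor {m : ℤ} (a : 0 ≤ m) (b : 2 * m < w) :
    Wire (XJ O j h0 h1) (he (2 * m, -1)) (he (2 * m + 1, -1)) 2 := by
  have := O.hw
  have := O.w2
  have := O.hh
  have := O.h2
  exact (Wire.SE (t := 1) (by omega) (by omega) (nE (by omega)) (nW (by omega))
    (Wire.EN (t := 0) (by omega) (by omega) (nE (by omega)) (nW (by omega))
    (Wire.to (he_eq (by omega) (by omega))) (by norm_num)) (by norm_num))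

/-- caps of `P+` on the right wall -/
lemma w_right_up {m : ℤ} (a : j ≤ 2 * m) (b : 2 * m < h) :
    Wire (XJ O j h0 h1) (ve (w, 2 * m + 1)) (ve (w, 2 * m)) (-2) := by
  have := O.hw
  have := O.w2
  have := O.hh
  have := O.h2
  exact (Wire.ES (t := -1) (by omega) (by omega) (nE (by omega)) (iW (by omega))
    (Wire.SW (t := 0) (by omega) (by omega) (nE (by omega)) (iW (by omega))
    (Wire.to (ve_eq (by omega) (by omega))) (by norm_num)) (by norm_num))

/-- outer caps of the right column -/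
lemma w_right_out {m : ℤ} (a : 0 ≤ m) (b : 2 * m < j) :
    Wire (XJ O j h0 h1) (ve (w + 1, 2 * m)) (ve (w + 1, 2 * m - 1)) (-2) := by
  have := O.hw
  have := O.w2
  have := O.hh
  have := O.h2
  exact (Wire.ES (t := -1) (by omega) (by omega) (nE (by omega)) (iW (by omega))
    (Wire.SW (t := 0) (by omega) (by omega) (nE (by omega)) (iW (by omega))
    (Wire.to (ve_eq (by omega) (by omega))) (by norm_num)) (by norm_num))

/-- the turn of the line between the left column and the row -/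
lemma w_turn_left (hj : j % 2 = 0) :
    Wire (XJ O j h0 h1) (he (-1, j)) (ve (0, j - 1)) 1 := by
  have := O.hw
  have := O.w2
  have := O.hh
  have := O.h2
  exact (Wire.SE (t := 0) (by omega) (by omega) (nE (by omega)) (nW (by omega))
    (Wire.to (ve_eq (by omega) (by omega))) (by norm_num))

/-- the turn of the line between the row and the right column -/
lemma w_turn_right (hj : j % 2 = 0) :
    Wire (XJ O j h0 h1) (ve (w, j - 1)) (he (w, j - 1)) (-1) := by
  have := O.hw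
  have := O.w2
  have := O.hh
  have := O.h2
  exact (Wire.ES (t := 0) (by omega) (by omega) (nE (by omega)) (iW (by omega))
    (Wire.to (he_eq (by omega) (by omega))) (by norm_num))

/-! ### Connections with the outside -/

/-- exit at NW, `j < h` -/
lemma w_NW (a : j < h) :
    Wire (XJ O j h0 h1) (ve (-1, h - 1)) (he (-2, h)) (-1) := by
  have := O.hw
  have := O.w2
  have := O.hh
  have := O.h2
  exact (Wire.WN (t := 0) (by omega) (by omega) (nE (by omega)) (iW (by omega))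
    (Wire.to (he_eq (by omega) (by omega))) (by norm_num))

/-- exit at NW, `j = h` -/
lemma w_NW' (a : j = h) :
    Wire (XJ O j h0 h1) (ve (0, h - 2)) (he (-2, h)) (-1) := by
  have := O.hw
  have := O.w2
  have := O.hh
  have := O.h2
  exact (Wire.WN (t := 0) (by omega) (by omega) (nE (by omega)) (iW (by omega))
    (Wire.NW (t := -1) (by omega) (by omega) (nE (by omega)) (nW (by omega))
    (Wire.WN (t := 0) (by omega) (by omega) (nE (by omega)) (iW (by omega))
    (Wire.to (he_eq (by omega) (by omega))) (by norm_num)) (by norm_num)) (by norm_num))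

/-- entry at SW, `2 ≤ j` -/
lemma w_SW (a : 2 ≤ j) :
    Wire (XJ O j h0 h1) (ve (-1, -2)) (ve (0, -1)) 0 := by
  have := O.hw
  have := O.w2
  have := O.hh
  have := O.h2
  exact (Wire.EN (t := -1) (by omega) (by omega) (nE (by omega)) (nW (by omega))
    (Wire.NE (t := 0) (by omega) (by omega) (nE (by omega)) (iW (by omega))
    (Wire.to (ve_eq (by omega) (by omega))) (by norm_num)) (by norm_num))

/-- entry at SW, `j = 0` -/
lemma w_SW' (a : j = 0) :
    Wire (XJ O j h0 h1) (ve (-1, -2)) (ve (-1, 0)) 0 := by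
  have := O.hw
  have := O.w2
  have := O.hh
  have := O.h2
  exact (Wire.EN (t := -1) (by omega) (by omega) (nE (by omega)) (nW (by omega))
    (Wire.NW (t := -2) (by omega) (by omega) (nE (by omega)) (nW (by omega))
    (Wire.WN (t := -1) (by omega) (by omega) (nE (by omega)) (iW (by omega))
    (Wire.NE (t := 0) (by omega) (by omega) (nE (by omega)) (iW (by omega))
    (Wire.to (ve_eq (by omega) (by omega))) (by norm_num)) (by norm_num)) (by norm_num)) (by norm_num))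

/-- entry at NE -/
lemma w_NE (hj : j % 2 = 0) :
    Wire (XJ O j h0 h1) (he (w + 1, h)) (he (w - 1, h)) 0 := by
  have := O.hw
  have := O.w2
  have := O.hh
  have := O.h2
  exact (Wire.SW (t := 1) (by omega) (by omega) (nE (by omega)) (iW (by omega))
    (Wire.WN (t := 2) (by omega) (by omega) (nE (by omega)) (iW (by omega))
    (Wire.NW (t := 1) (by omega) (by omega) (nE (by omega)) (nW (by omega))
    (Wire.WS (t := 0) (by omega) (by omega) (nE (by omega)) (nW (by omega))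
    (Wire.to (he_eq (by omega) (by omega))) (by norm_num)) (by norm_num)) (by norm_num)) (by norm_num))

/-- exit at SE (for `j = 0` after `w_turn_right`) -/
lemma w_SE (hj : j % 2 = 0) :
    Wire (XJ O j h0 h1) (he (w, -1)) (ve (w + 1, -2)) 1 := by
  have := O.hw
  have := O.w2
  have := O.hh
  have := O.h2
  exact (Wire.SE (t := 0) (by omega) (by omega) (nE (by omega)) (nW (by omega))
    (Wire.to (ve_eq (by omega) (by omega))) (by norm_num))

end wires

end Pool.Agent.H74.R45
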