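import Mathlib
import Pool.Agent.H74.R45.Wires

set_option autoImplicit false
open Finset

/-! # The wires outside, independent of `j`

The strands leave the rectangle at `he (-2, h)` (NW) and `ve (w+1, -2)` (SE) and enter it at
`ve (-1, -2)` (SW) and `he (w+1, h)` (NE). The paths outside are the same for all `j`. -/

namespace Pool.Agent.H74.R45

open Pool.Agent.H75.Perc Pool.Agent.H75.TwoArm Pool.Agent.Q1 Pool.Agent.H33.Q1
open Pool.Agent.H75.Four Pool.Agent.H69.Q1

variable {w h j x y : ℤ}

/-- the labels of the rectangle with its first layers -/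
noncomputable def IB (w h : ℤ) : Finset (ℤ × ℤ) := RT (-1) (w + 1) (-1) h

/-- the open labels outside -/
noncomputable def OW (O : Out w h) : Finset (ℤ × ℤ) :=
  RT (-2) (-1) (-1) h ∪ RT (w + 1) (w + 2) (-1) h ∪ O.Wo

lemma mem_IB : lt (x, y) ∈ IB w h ↔ -1 ≤ x ∧ x < w + 1 ∧ -1 ≤ y ∧ y < h := lt_mem_RT

lemma mem_OW {O : Out w h} (hn : -2 ≤ x ∧ x < w + 2 ∧ -2 ≤ y ∧ y ≤ h) :
    lt (x, y) ∈ OW O ↔ (x = -2 ∨ x = w + 1) ∧ -1 ≤ y ∧ y < h := by
  unfold OW
  rw [mem_union, mem_union, lt_mem_RT, lt_mem_RT]
  constructor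
  · rintro ((a | a) | a)
    · exact ⟨Or.inl (by omega), by omega, by omega⟩
    · exact ⟨Or.inr (by omega), by omega, by omega⟩
    · exact absurd hn (O.far x y a)
  · rintro ⟨a | a, b⟩
    · exact Or.inl (Or.inl ⟨by omega, by omega, by omega, by omega⟩)
    · exact Or.inl (Or.inr ⟨by omega, by omega, by omega, by omega⟩)

lemma EJ_sub_IB (hw : 0 ≤ w) (h0 : 0 ≤ j) (h1 : j ≤ h) : EJ w h j ⊆ IB w h := by
  intro e he
  obtain ⟨x, y, rfl⟩ := exists_lt (odd_EJ he)
  rw [mem_EJ] at he
  rw [mem_IB]
  omega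

/-- the open labels agree outside the box -/
lemma OW_iff {O : Out w h} (h0 : 0 ≤ j) (h1 : j ≤ h) {e : ℤ × ℤ} (he : e ∉ IB w h) :
    e ∈ WJ w h j O.Wo ↔ e ∈ OW O := by
  have hw := O.hw
  unfold WJ OW
  rw [mem_union, mem_union]
  constructor
  · rintro (a | a)
    · obtain ⟨x, y, rfl⟩ := exists_lt (odd_WR a)
      rw [mem_WR] at a
      rw [mem_IB] at he
      refine Or.inl ?_
      rw [mem_union, lt_mem_RT, lt_mem_RT]
      omega
    · exact Or.inr a
  · rintro (a | a)
    · rw [mem_union] at a
      rcases a with a | a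
      · obtain ⟨x, y, rfl⟩ := exists_lt (odd_RT a)
        rw [lt_mem_RT] at a
        exact Or.inl (mem_WR.2 (by omega))
      · obtain ⟨x, y, rfl⟩ := exists_lt (odd_RT a)
        rw [lt_mem_RT] at a
        exact Or.inl (mem_WR.2 (by omega))
    · exact Or.inr a

/-! ### Previous corners -/

lemma plab_of {c c' : ℤ × ℤ} {L : Finset (ℤ × ℤ)} (h : nx L c' = c) : plab c = lab c' := by
  have h1 := lab_pv L c
  rw [← h, pv_nx] at h1
  rw [← h, ← h1]

/-- every corner is a vertical or a horizontal edge -/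
lemma exists_edge (c : ℤ × ℤ) : (∃ x y, c = ve (x, y)) ∨ ∃ x y, c = he (x, y) := by
  obtain ⟨a, b⟩ := c
  rcases Int.emod_two_eq_zero_or_one (a + b) with h | h
  · right
    refine ⟨(a + b) / 2 - 1, (b - a) / 2, ?_⟩
    unfold he
    refine Prod.ext ?_ ?_ <;> simp only <;> omega
  · left
    refine ⟨(a + b - 1) / 2, (b - a - 1) / 2, ?_⟩
    unfold ve
    refine Prod.ext ?_ ?_ <;> simp only <;> omega

lemma plab_ve_E (hp : (x + y) % 2 = 1) : plab (ve (x, y)) = lt (x - 1, y) := by
  have h1 := nx_closed (w := ∅) (c := he (x - 1, y + 1)) (notMem_empty _)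
  rw [nxC_he_S (by omega), sub_add_cancel, add_sub_cancel_right] at h1
  rw [plab_of h1.1, lab_he_S (by omega), add_sub_cancel_right]

lemma plab_ve_W (hp : (x + y) % 2 = 0) : plab (ve (x, y)) = lt (x, y) := by
  have h1 := nx_closed (w := ∅) (c := he (x, y)) (notMem_empty _)
  rw [nxC_he_N (by omega)] at h1
  rw [plab_of h1.1, lab_he_N (by omega)]

lemma plab_he_S (hp : (x + y) % 2 = 1) : plab (he (x, y)) = lt (x, y) := by
  have h1 := nx_closed (w := ∅) (c := ve (x + 1, y)) (notMem_empty _)
  rw [nxC_ve_W (by omega), add_sub_cancel_right] at h1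
  rw [plab_of h1.1, lab_ve_W (by omega), add_sub_cancel_right]

lemma plab_he_N (hp : (x + y) % 2 = 0) : plab (he (x, y)) = lt (x, y - 1) := by
  have h1 := nx_closed (w := ∅) (c := ve (x, y - 1)) (notMem_empty _)
  rw [nxC_ve_E (by omega), sub_add_cancel] at h1
  rw [plab_of h1.1, lab_ve_E (by omega)]

/-- where a strand outside can enter the box: the corner and the two corners before it -/
lemma entry (O : Out w h) {c : ℤ × ℤ} (hl : lab c ∈ IB w h) (hp : plab c ∉ IB w h) :
    (c = he (-1, -1) ∧ nx (OW O) (ve (-1, -2)) = c) ∨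
    (c = ve (w + 1, h - 1) ∧ nx (OW O) (he (w + 1, h)) = c) ∨
    ∃ c1 c2, nx (OW O) c1 = c ∧ nx (OW O) c2 = c1 ∧ plab c2 ∈ IB w h ∧
      plab c1 ∈ RT (-2) (w + 2) (-2) (h + 1) ∧ c1 ≠ he (-2, h) ∧ c1 ≠ ve (w + 1, -2) ∧
      c2 ≠ he (-2, h) ∧ c2 ≠ ve (w + 1, -2) := by
  have hw := O.hw
  have hh := O.hh
  have w2 := O.w2
  have h2 := O.h2
  rcases exists_edge c with ⟨x, y, rfl⟩ | ⟨x, y, rfl⟩
  · rcases Int.emod_two_eq_zero_or_one (x + y) with hpar | hpar
    · -- towards W, through the right side
      rw [lab_ve_W hpar, mem_IB] at hl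
      rw [plab_ve_W hpar, mem_IB] at hp
      have hx : x = w + 1 := by omega
      subst hx
      have s1 : nx (OW O) (he (w + 1, y + 1)) = ve (w + 1, y) := by
        have := (SW (w := OW O) (x := w + 1) (y := y + 1) (by omega) ((mem_OW (by omega)).2
          ⟨Or.inr rfl, by omega, by omega⟩)).1
        rw [add_sub_cancel_right] at this
        exact this
      by_cases hy : y = h - 1
      · right; left
        subst hy
        rw [sub_add_cancel] at s1
        exact ⟨rfl, s1⟩
      · right; right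
        have s2 : nx (OW O) (ve (w + 1, y + 1)) = he (w + 1, y + 1) :=
          (ES (w := OW O) (x := w + 1) (y := y + 1) (by omega) ((mem_OW (by omega)).2
            ⟨Or.inr rfl, by omega, by omega⟩)).1
        refine ⟨_, _, s1, s2, ?_, ?_, ?_, ?_, ?_, ?_⟩
        · rw [plab_ve_E (by omega), mem_IB]; omega
        · rw [plab_he_S (by omega), lt_mem_RT]; omega
        · intro e; have := he_inj e; simp only [Prod.mk.injEq] at this; omega
        · exact fun e => ve_ne_he _ _ e.symm
        · exact ve_ne_he _ _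
        · intro e; have := ve_inj e; simp only [Prod.mk.injEq] at this; omega
    · -- towards E, through the left side
      rw [lab_ve_E hpar, mem_IB] at hl
      rw [plab_ve_E hpar, mem_IB] at hp
      have hx : x = -1 := by omega
      subst hx
      right; right
      have s1 : nx (OW O) (he (-2, y)) = ve (-1, y) :=
        (NE (w := OW O) (x := -2) (y := y) (by omega) ((mem_OW (by omega)).2
          ⟨Or.inl rfl, by omega, by omega⟩)).1
      have s2 : nx (OW O) (ve (-1, y - 1)) = he (-2, y) := by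
        have := (WN (w := OW O) (x := -1) (y := y - 1) (by omega) ((mem_OW (by omega)).2
          ⟨Or.inl (by omega), by omega, by omega⟩)).1
        rw [sub_add_cancel] at this
        exact this
      refine ⟨_, _, s1, s2, ?_, ?_, ?_, ?_, ?_, ?_⟩
      · rw [plab_ve_W (by omega), mem_IB]; omega
      · rw [plab_he_N (by omega), lt_mem_RT]; omega
      · intro e; have := he_inj e; simp only [Prod.mk.injEq] at this; omega
      · exact fun e => ve_ne_he _ _ e.symm
      · exact ve_ne_he _ _
      · intro e; have := ve_inj e; simp only [Prod.mk.injEq] at this; omega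
  · rcases Int.emod_two_eq_zero_or_one (x + y) with hpar | hpar
    · -- towards N, through the bottom
      rw [lab_he_N hpar, mem_IB] at hl
      rw [plab_he_N hpar, mem_IB] at hp
      have hy : y = -1 := by omega
      subst hy
      have s1 : nx (OW O) (ve (x, -2)) = he (x, -1) :=
        (EN (w := OW O) (x := x) (y := -2) (by omega) (fun hm => by
          rw [mem_OW (by omega)] at hm; omega)).1
      by_cases hx : x = -1
      · left
        subst hx
        exact ⟨rfl, s1⟩
      · right; right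
        have s2 : nx (OW O) (he (x - 1, -1)) = ve (x, -2) := by
          have := (SE (w := OW O) (x := x - 1) (y := -1) (by omega) (fun hm => by
            rw [mem_OW (by omega)] at hm; omega)).1
          rw [sub_add_cancel] at this
          exact this
        refine ⟨_, _, s1, s2, ?_, ?_, ?_, ?_, ?_, ?_⟩
        · rw [plab_he_S (by omega), mem_IB]; omega
        · rw [plab_ve_E (by omega), lt_mem_RT]; omega
        · exact ve_ne_he _ _
        · intro e; have := ve_inj e; simp only [Prod.mk.injEq] at this; omega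
        · intro e; have := he_inj e; simp only [Prod.mk.injEq] at this; omega
        · exact fun e => ve_ne_he _ _ e.symm
    · -- towards S, through the top
      rw [lab_he_S hpar, mem_IB] at hl
      rw [plab_he_S hpar, mem_IB] at hp
      have hy : y = h := by omega
      subst hy
      right; right
      have s1 : nx (OW O) (ve (x + 1, y)) = he (x, y) := by
        have := (WS (w := OW O) (x := x + 1) (y := y) (by omega) (fun hm => by
          rw [mem_OW (by omega)] at hm; omega)).1
        rw [add_sub_cancel_right] at this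
        exact this
      have s2 : nx (OW O) (he (x + 1, y)) = ve (x + 1, y) :=
        (NW (w := OW O) (x := x + 1) (y := y) (by omega) (fun hm => by
          rw [mem_OW (by omega)] at hm; omega)).1
      refine ⟨_, _, s1, s2, ?_, ?_, ?_, ?_, ?_, ?_⟩
      · rw [plab_he_N (by omega), mem_IB]; omega
      · rw [plab_ve_W (by omega), lt_mem_RT]; omega
      · exact ve_ne_he _ _
      · intro e; have := ve_inj e; simp only [Prod.mk.injEq] at this; omega
      · intro e; have := he_inj e; simp only [Prod.mk.injEq] at this; omega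
      · exact fun e => ve_ne_he _ _ e.symm

/-- the corners where strands enter the rectangle -/
def IsEnt (w h : ℤ) (b : ℤ × ℤ) : Prop := b = ve (-1, -2) ∨ b = he (w + 1, h)

/-- the corners where strands leave the rectangle -/
def IsExt (w h : ℤ) (a : ℤ × ℤ) : Prop := a = he (-2, h) ∨ a = ve (w + 1, -2)

/-- a start outside: an exit corner or a corner whose previous label is not near the rectangle -/
def IsStart (w h : ℤ) (a : ℤ × ℤ) : Prop := IsExt w h a ∨ plab a ∉ RT (-2) (w + 2) (-2) (h + 1)

lemma lab_start {a : ℤ × ℤ} (O : Out w h) (ha : IsStart w h a) : lab a ∉ IB w h := by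
  have hw := O.hw
  have hh := O.hh
  have w2 := O.w2
  have h2 := O.h2
  rcases ha with (rfl | rfl) | ha
  · rw [lab_he_N (by omega), mem_IB]; omega
  · rw [lab_ve_E (by omega), mem_IB]; omega
  · intro hl
    apply ha
    rcases exists_edge a with ⟨x, y, rfl⟩ | ⟨x, y, rfl⟩
    · rcases Int.emod_two_eq_zero_or_one (x + y) with hp | hp
      · rw [lab_ve_W hp, mem_IB] at hl
        rw [plab_ve_W hp, lt_mem_RT]; omega
      · rw [lab_ve_E hp, mem_IB] at hl
        rw [plab_ve_E hp, lt_mem_RT]; omega
    · rcases Int.emod_two_eq_zero_or_one (x + y) with hp | hp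
      · rw [lab_he_N hp, mem_IB] at hl
        rw [plab_he_N hp, lt_mem_RT]; omega
      · rw [lab_he_S hp, mem_IB] at hl
        rw [plab_he_S hp, lt_mem_RT]; omega

/-- **The path outside.** If the path from a start meets the box, it enters it through SW or NE. -/
theorem outer_path (O : Out w h) {a : ℤ × ℤ} (ha : IsStart w h a)
    (hm : ∃ i, lab ((nx (OW O))^[i] a) ∈ IB w h) :
    ∃ n b, IsEnt w h b ∧ (nx (OW O))^[n] a = b ∧ ∀ i ≤ n, lab ((nx (OW O))^[i] a) ∉ IB w h := by
  classical
  set m := Nat.find hm with hmd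
  have m1 : lab ((nx (OW O))^[m] a) ∈ IB w h := Nat.find_spec hm
  have m2 : ∀ i < m, lab ((nx (OW O))^[i] a) ∉ IB w h := fun i hi => Nat.find_min hm hi
  have m0 : m ≠ 0 := by
    intro h0
    rw [h0] at m1
    exact lab_start O ha m1
  obtain ⟨n, hn⟩ := Nat.exists_eq_succ_of_ne_zero m0
  rw [hn] at m1 m2
  have e1 : (nx (OW O))^[n + 1] a = nx (OW O) ((nx (OW O))^[n] a) :=
    Function.iterate_succ_apply' _ _ _
  have hpl : plab ((nx (OW O))^[n + 1] a) = lab ((nx (OW O))^[n] a) := plab_of e1.symm
  have hp : plab ((nx (OW O))^[n + 1] a) ∉ IB w h := by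
    rw [hpl]; exact m2 n (Nat.lt_succ_self n)
  have avoid : ∀ i ≤ n, lab ((nx (OW O))^[i] a) ∉ IB w h := fun i hi => m2 i (Nat.lt_succ_of_le hi)
  have inj := nx_injective (OW O)
  rcases entry O m1 hp with ⟨-, h2⟩ | ⟨-, h2⟩ | ⟨c1, c2, g1, g2, g3, g4, g5, g6, g7, g8⟩
  · exact ⟨n, _, Or.inl rfl, inj (by rw [h2]; exact e1.symm), avoid⟩
  · exact ⟨n, _, Or.inr rfl, inj (by rw [h2]; exact e1.symm), avoid⟩
  · exfalso
    have z1 : (nx (OW O))^[n] a = c1 := inj (by rw [g1]; exact e1.symm)
    have z0 : n ≠ 0 := by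
      rintro rfl
      rw [Function.iterate_zero_apply] at z1
      rw [z1] at ha
      rcases ha with (h | h) | h
      · exact g5 h
      · exact g6 h
      · exact h g4
    obtain ⟨k, rfl⟩ := Nat.exists_eq_succ_of_ne_zero z0
    have e2 : (nx (OW O))^[k + 1] a = nx (OW O) ((nx (OW O))^[k] a) :=
      Function.iterate_succ_apply' _ _ _
    have z2 : (nx (OW O))^[k] a = c2 := inj (by rw [g2, ← z1]; exact e2.symm)
    have z3 : k ≠ 0 := by
      rintro rfl
      rw [Function.iterate_zero_apply] at z2
      rw [z2] at ha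
      rcases ha with (h | h) | h
      · exact g7 h
      · exact g8 h
      · apply h
        have hw := O.hw
        have hh := O.hh
        rcases exists_edge c2 with ⟨x, y, rfl⟩ | ⟨x, y, rfl⟩
        · rcases Int.emod_two_eq_zero_or_one (x + y) with hp | hp
          · rw [plab_ve_W hp, mem_IB] at g3
            rw [plab_ve_W hp, lt_mem_RT]; omega
          · rw [plab_ve_E hp, mem_IB] at g3
            rw [plab_ve_E hp, lt_mem_RT]; omega
        · rcases Int.emod_two_eq_zero_or_one (x + y) with hp | hp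
          · rw [plab_he_N hp, mem_IB] at g3
            rw [plab_he_N hp, lt_mem_RT]; omega
          · rw [plab_he_S hp, mem_IB] at g3
            rw [plab_he_S hp, lt_mem_RT]; omega
    obtain ⟨l, rfl⟩ := Nat.exists_eq_succ_of_ne_zero z3
    have e3 : (nx (OW O))^[l + 1] a = nx (OW O) ((nx (OW O))^[l] a) :=
      Function.iterate_succ_apply' _ _ _
    have hpl3 : plab ((nx (OW O))^[l + 1] a) = lab ((nx (OW O))^[l] a) := plab_of e3.symm
    have hl' : (nx (OW O))^[l.succ] a = c2 := z2
    rw [show l + 1 = l.succ from rfl, hl'] at hpl3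
    rw [hpl3] at g3
    exact avoid l (by omega) g3

/-- the path outside as a wire of every environment -/
lemma wire_outer {O : Out w h} (h0 : 0 ≤ j) (h1 : j ≤ h) {a : ℤ × ℤ} {n : ℕ}
    (hn : ∀ i < n, lab ((nx (OW O))^[i] a) ∉ IB w h) :
    (∀ i ≤ n, (XJ O j h0 h1).out^[i] a = (nx (OW O))^[i] a) ∧
      Wire (XJ O j h0 h1) a ((nx (OW O))^[n] a)
        (∑ i ∈ range n, del (OW O) ((nx (OW O))^[i] a)) := by
  have hw := O.hw
  have key : ∀ c, lab c ∉ IB w h → nx (WJ w h j O.Wo) c = nx (OW O) c ∧
      del (WJ w h j O.Wo) c = del (OW O) c := by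
    intro c hc
    have := OW_iff (O := O) h0 h1 hc
    unfold nx del
    by_cases h : lab c ∈ OW O
    · rw [if_pos h, if_pos h, if_pos (this.2 h), if_pos (this.2 h)]; exact ⟨rfl, rfl⟩
    · rw [if_neg h, if_neg h, if_neg (fun h' => h (this.1 h')), if_neg (fun h' => h (this.1 h'))]
      exact ⟨rfl, rfl⟩
  have e : ∀ i ≤ n, (XJ O j h0 h1).out^[i] a = (nx (OW O))^[i] a := by
    intro i
    induction i with
    | zero => intro _; rfl
    | succ i ih =>
      intro hi
      rw [Function.iterate_succ_apply', Function.iterate_succ_apply', ih (by omega), XJ_out]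
      exact (key _ (hn i (by omega))).1
  refine ⟨e, n, fun i hi => ?_, e n le_rfl, sum_congr rfl fun i hi => ?_⟩
  · rw [e i (by omega), XJ_E]
    exact fun h' => hn i hi (EJ_sub_IB (by omega) h0 h1 h')
  · have hi' := mem_range.1 hi
    rw [e i (by omega), XJ_dout]
    exact (key _ (hn i hi')).2

/-- the path from an exit corner meets the box -/
lemma exit_meets (O : Out w h) {a : ℤ × ℤ} (ha : IsExt w h a) :
    ∃ i, lab ((nx (OW O))^[i] a) ∈ IB w h := by
  have hw := O.hw
  have hh := O.hh
  have w2 := O.w2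
  have h2 := O.h2
  -- two corners before `a` there is a label of the box
  obtain ⟨c1, g1, g2⟩ : ∃ c1, nx (OW O) c1 = a ∧ plab c1 ∈ IB w h := by
    rcases ha with rfl | rfl
    · refine ⟨ve (-1, h - 1), ?_, ?_⟩
      · have := (WN (w := OW O) (x := -1) (y := h - 1) (by omega) ((mem_OW (by omega)).2
          ⟨Or.inl (by omega), by omega, by omega⟩)).1
        rw [sub_add_cancel] at this
        exact this
      · rw [plab_ve_W (by omega), mem_IB]; omega
    · refine ⟨he (w, -1), ?_, ?_⟩
      · exact (SE (w := OW O) (x := w) (y := -1) (by omega) (fun hm => by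
          rw [mem_OW (by omega)] at hm; omega)).1
      · rw [plab_he_S (by omega), mem_IB]; omega
  have haS : a ∈ PS (OW O) (vx a) := by rw [mem_PS]; exact mem_insert_self _ _
  obtain ⟨L, hL⟩ := exists_orb (nx (OW O)) (nx_injective _) (PS (OW O) (vx a))
    (fun _ h => PS_nx (subset_refl _) h) a haS
  -- two periods
  have hper : (nx (OW O))^[L + L] a = a := by
    rw [Function.iterate_add_apply, hL.per, hL.per]
  obtain ⟨k, hk⟩ : ∃ k, L + L = k + 2 := ⟨L + L - 2, by have := hL.pos; omega⟩
  rw [hk] at hper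
  refine ⟨k, ?_⟩
  have e1 : (nx (OW O))^[k + 2] a = nx (OW O) ((nx (OW O))^[k + 1] a) :=
    Function.iterate_succ_apply' _ _ _
  have e2 : (nx (OW O))^[k + 1] a = nx (OW O) ((nx (OW O))^[k] a) :=
    Function.iterate_succ_apply' _ _ _
  have z1 : (nx (OW O))^[k + 1] a = c1 := by
    apply nx_injective (OW O)
    rw [g1, ← e1, hper]
  have := plab_of (e2.symm.trans z1)
  rw [← this]
  exact g2

/-- **The wires outside**: from each exit corner to an entry corner, the same for all `j`. -/
theorem wires_outer (O : Out w h) : ∃ (σ : ℤ × ℤ → ℤ × ℤ) (τ : ℤ × ℤ → ℤ),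
    ∀ a, IsExt w h a → IsEnt w h (σ a) ∧
      ∀ j (h0 : 0 ≤ j) (h1 : j ≤ h), Wire (XJ O j h0 h1) a (σ a) (τ a) := by
  classical
  have key : ∀ a, ∃ p : (ℤ × ℤ) × ℤ, IsExt w h a → IsEnt w h p.1 ∧
      ∀ j (h0 : 0 ≤ j) (h1 : j ≤ h), Wire (XJ O j h0 h1) a p.1 p.2 := by
    intro a
    by_cases ha : IsExt w h a
    · obtain ⟨n, b, hb, hn, hav⟩ := outer_path O (Or.inl ha) (exit_meets O ha)
      refine ⟨(b, ∑ i ∈ range n, del (OW O) ((nx (OW O))^[i] a)), fun _ => ⟨hb, fun j h0 h1 => ?_⟩⟩
      have := (wire_outer (O := O) h0 h1 (a := a) (n := n) fun i hi => hav i (by omega)).2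
      rw [hn] at this
      exact this
    · exact ⟨(a, 0), fun h => absurd h ha⟩
  choose f hf using key
  exact ⟨fun a => (f a).1, fun a => (f a).2, fun a ha => hf a ha⟩

end Pool.Agent.H74.R45
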