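import Mathlib
import Pool.Agent.H74.R45.Ext
import Pool.Agent.H81.G1.Exists

set_option autoImplicit false
open Finset

/-! # The tiles and the wires of the environments of a rectangle as a network

The tiles of `XJ O j` are the positions `(x, y)` with `lt (x, y) ∈ EJ w h j`, the ends of the tile
`(x, y)` are `W = ve (x, y)`, `E = ve (x+1, y)`, `N = he (x, y+1)`, `S = he (x, y)`. `wpi_of` : a `Wire`
between an outgoing and an incoming end is a wire of the network of the environment. -/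

namespace Pool.Agent.H74.R45

open Pool.Agent.H75.Perc Pool.Agent.H75.TwoArm Pool.Agent.Q1 Pool.Agent.H33.Q1
open Pool.Agent.H75.Four Pool.Agent.H69.Q1 Pool.Agent.H81.G1

variable {w h j x y : ℤ}

/-- positions of the tiles -/
noncomputable def PJ (w h j : ℤ) : Finset (ℤ × ℤ) :=
  (Ico 0 w ×ˢ Ico (-1) h) ∪ (Ico (-1) 0 ×ˢ Ico j h) ∪ (Ico w (w + 1) ×ˢ Ico (-1) (j - 1))

lemma mem_PJ {q : ℤ × ℤ} : q ∈ PJ w h j ↔ (0 ≤ q.1 ∧ q.1 < w ∧ -1 ≤ q.2 ∧ q.2 < h) ∨
    (q.1 = -1 ∧ j ≤ q.2 ∧ q.2 < h) ∨ (q.1 = w ∧ -1 ≤ q.2 ∧ q.2 < j - 1) := by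
  unfold PJ
  simp only [mem_union, mem_product, mem_Ico]
  omega

lemma lt_mem_EJ {q : ℤ × ℤ} : lt q ∈ EJ w h j ↔ q ∈ PJ w h j := by
  obtain ⟨x, y⟩ := q
  rw [mem_EJ, mem_PJ]

/-- the tiles of the environment number `j` -/
abbrev Tl (w h j : ℤ) : Type := {q : ℤ × ℤ // q ∈ PJ w h j}

/-- label of a tile -/
def lbJ (i : Tl w h j) : ℤ × ℤ := lt i.1

/-- type of a tile: the ends `W`, `E` are incoming -/
def tyJ (i : Tl w h j) : Bool := decide ((i.1.1 + i.1.2) % 2 = 1)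

/-- the corner at the end of the position `q` -/
def ce (q : ℤ × ℤ) : Dir → ℤ × ℤ
  | .W => ve (q.1, q.2)
  | .E => ve (q.1 + 1, q.2)
  | .N => he (q.1, q.2 + 1)
  | .S => he (q.1, q.2)

/-- the corner at the end of a tile -/
def crJ (z : Tl w h j × Dir) : ℤ × ℤ := ce z.1.1 z.2

/-- is the end `d` of the position `q` incoming? -/
def inq (q : ℤ × ℤ) (d : Dir) : Bool := xor (decide ((q.1 + q.2) % 2 = 1)) d.v

lemma inc_eq_inq (z : Tl w h j × Dir) : inc tyJ z = inq z.1.1 z.2 := rfl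

theorem tilesJ (O : Out w h) (h0 : 0 ≤ j) (h1 : j ≤ h) :
    Tiles (XJ O j h0 h1) (lbJ : Tl w h j → ℤ × ℤ) tyJ crJ where
  inj := fun a b hab => Subtype.ext (lt_inj hab)
  mem := fun i => by rw [XJ_E]; exact lt_mem_EJ.2 i.2
  surj := fun e he => by
    rw [XJ_E] at he
    obtain ⟨x, y, rfl⟩ := exists_lt (odd_EJ he)
    exact ⟨⟨(x, y), lt_mem_EJ.1 he⟩, rfl⟩
  tt := fun i hi => by
    obtain ⟨⟨x, y⟩, hq⟩ := i
    have hp : (x + y) % 2 = 1 := by simpa [tyJ] using hi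
    refine ⟨lab_ve_E hp, ?_, ?_, ?_, ?_⟩
    · show lab (ve (x + 1, y)) = lt (x, y)
      rw [lab_ve_W (by omega), add_sub_cancel_right]
    · show ve (x, y) ≠ ve (x + 1, y)
      intro h
      have := ve_inj h
      simp only [Prod.mk.injEq] at this
      omega
    · exact (nxC_ve_E hp).symm
    · show he (x, y) = nxC (ve (x + 1, y))
      rw [nxC_ve_W (by omega), add_sub_cancel_right]
  ff := fun i hi => by
    obtain ⟨⟨x, y⟩, hq⟩ := i
    have hp : (x + y) % 2 = 0 := by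
      have : ¬ (x + y) % 2 = 1 := by simpa [tyJ] using hi
      omega
    refine ⟨?_, lab_he_N hp, ?_, ?_, ?_⟩
    · show lab (he (x, y + 1)) = lt (x, y)
      rw [lab_he_S (by omega), add_sub_cancel_right]
    · show he (x, y + 1) ≠ he (x, y)
      intro h
      have := he_inj h
      simp only [Prod.mk.injEq] at this
      omega
    · show ve (x + 1, y) = nxC (he (x, y + 1))
      rw [nxC_he_S (by omega), add_sub_cancel_right]
    · exact (nxC_he_N hp).symm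

/-- **Recognition of wires.** -/
theorem wpi_of {ι : Type*} [Fintype ι] {X : Env} {lb : ι → ℤ × ℤ} {p : ι → Bool}
    {cr : ι × Dir → ℤ × ℤ} (T : Tiles X lb p cr) {z z' : ι × Dir} {t : ℤ}
    (hz : inc p z = false) (hz' : inc p z' = true) (hw : Wire X (cr z) (cr z') t) :
    wπ T z = z' ∧ wπ T z' = z ∧ wτ T z = t ∧ wτ T z' = -t := by
  obtain ⟨n, a1, a2, a3⟩ := hw
  obtain ⟨b1, b2⟩ := wired_pi T hz hz' a1 a2
  have c1 : wπ T z = z' := by unfold wπ; rw [if_pos hz]; exact b2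
  have c2 : wτ T z = t := by unfold wτ; rw [if_pos hz]; unfold wt; rw [b1]; exact a3
  refine ⟨c1, ?_, c2, ?_⟩
  · rw [← c1]; exact wπ_wπ T z
  · rw [← c1, wτ_wπ, c2]

section list

variable (O : Out w h) (h0 : 0 ≤ j) (h1 : j ≤ h)

/-- the wires of `XJ O j` between two ends given by positions: partner and turning -/
def IsW (z z' : Tl w h j × Dir) (t : ℤ) : Prop :=
  wπ (tilesJ O h0 h1) z = z' ∧ wπ (tilesJ O h0 h1) z' = z ∧
    wτ (tilesJ O h0 h1) z = t ∧ wτ (tilesJ O h0 h1) z' = -t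

variable {O h0 h1}

lemma IsW.symm {z z' : Tl w h j × Dir} {t : ℤ} (H : IsW O h0 h1 z z' t) :
    IsW O h0 h1 z' z (-t) := ⟨H.2.1, H.1, H.2.2.2, by rw [H.2.2.1, neg_neg]⟩

/-- a wire given by corners -/
lemma isW_of {z z' : Tl w h j × Dir} {c c' : ℤ × ℤ} {t : ℤ} (hz : inq z.1.1 z.2 = false)
    (hz' : inq z'.1.1 z'.2 = true) (hw : Wire (XJ O j h0 h1) c c' t) (hc : ce z.1.1 z.2 = c)
    (hc' : ce z'.1.1 z'.2 = c') : IsW O h0 h1 z z' t :=
  wpi_of (tilesJ O h0 h1) hz hz' (by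
    show Wire _ (ce z.1.1 z.2) (ce z'.1.1 z'.2) t
    rw [hc, hc']; exact hw)

/-- two tiles with a common end -/
lemma isW_adj {z z' : Tl w h j × Dir} (hc : ce z.1.1 z.2 = ce z'.1.1 z'.2)
    (hz : inq z.1.1 z.2 = !inq z'.1.1 z'.2) : IsW O h0 h1 z z' 0 := by
  cases hz' : inq z'.1.1 z'.2
  · rw [hz'] at hz
    have := isW_of (O := O) (h0 := h0) (h1 := h1) hz' hz (Wire.nil _) rfl hc
    simpa using this.symm
  · rw [hz'] at hz
    exact isW_of (O := O) (h0 := h0) (h1 := h1) hz hz' (Wire.nil _) hc rfl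

/-- horizontal neighbours -/
lemma isW_EW (a : (x, y) ∈ PJ w h j) (b : (x + 1, y) ∈ PJ w h j) :
    IsW O h0 h1 (⟨(x, y), a⟩, .E) (⟨(x + 1, y), b⟩, .W) 0 := by
  refine isW_adj rfl ?_
  show xor (decide ((x + y) % 2 = 1)) false = !xor (decide ((x + 1 + y) % 2 = 1)) false
  rcases Int.emod_two_eq_zero_or_one (x + y) with h | h
  · rw [h, show (x + 1 + y) % 2 = 1 by omega]; rfl
  · rw [h, show (x + 1 + y) % 2 = 0 by omega]; rfl

/-- vertical neighbours -/
lemma isW_NS (a : (x, y) ∈ PJ w h j) (b : (x, y + 1) ∈ PJ w h j) :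
    IsW O h0 h1 (⟨(x, y), a⟩, .N) (⟨(x, y + 1), b⟩, .S) 0 := by
  refine isW_adj rfl ?_
  show xor (decide ((x + y) % 2 = 1)) true = !xor (decide ((x + (y + 1)) % 2 = 1)) true
  rcases Int.emod_two_eq_zero_or_one (x + y) with h | h
  · rw [h, show (x + (y + 1)) % 2 = 1 by omega]; rfl
  · rw [h, show (x + (y + 1)) % 2 = 0 by omega]; rfl

end list

end Pool.Agent.H74.R45
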