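import Mathlib
import Pool.Agent.H74.R45.Def

set_option autoImplicit false
open Finset

/-! # Potentials; the exact identity between the environments `0`, `h` and the row

`FJ O a b j c` : increment at the corner `c` in the environment number `j`. `Pot F H x0 x1 y0 y1` : `H`
is a potential of `F` on `[x0, x1] × [y0, y1]`. `Same O a b` : the environments number `j` and `0` have
the same increments above the row, the environments number `j` and `h` below the row. -/

namespace Pool.Agent.H74.R45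

open Pool.Agent.H75.Perc Pool.Agent.H75.TwoArm Pool.Agent.Q1 Pool.Agent.H33.Q1
open Pool.Agent.H75.Four Pool.Agent.H69.Q1 Pool.Agent.H99.NC

/-! ### Signs -/

/-- `(-1)^n` -/
noncomputable def sg (n : ℤ) : ℂ := if n % 2 = 0 then 1 else -1

lemma sg_even {n : ℤ} (h : n % 2 = 0) : sg n = 1 := if_pos h

lemma sg_odd {n : ℤ} (h : n % 2 = 1) : sg n = -1 := if_neg (by omega)

lemma sg_congr {m n : ℤ} (h : m % 2 = n % 2) : sg m = sg n := by unfold sg; rw [h]

lemma sg_flip {m n : ℤ} (h : (m + n) % 2 = 1) : sg m = -sg n := by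
  rcases Int.emod_two_eq_zero_or_one n with h1 | h1
  · rw [sg_even h1, sg_odd (by omega)]
  · rw [sg_odd h1, sg_even (by omega), neg_neg]

lemma sg_sq (n : ℤ) : sg n * sg n = 1 := by
  rcases Int.emod_two_eq_zero_or_one n with h1 | h1
  · rw [sg_even h1, one_mul]
  · rw [sg_odd h1]; ring

/-! ### Potentials -/

/-- `H` is a potential of `F` on the rectangle -/
structure Pot (F : ℤ × ℤ → ℂ) (H : ℤ → ℤ → ℂ) (x0 x1 y0 y1 : ℤ) : Prop where
  hor : ∀ x y, x0 ≤ x → x < x1 → y0 ≤ y → y ≤ y1 → sg (x + y) * F (he (x, y)) = H x y - H (x + 1) y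
  ver : ∀ x y, x0 ≤ x → x ≤ x1 → y0 ≤ y → y < y1 → sg (x + y) * F (ve (x, y)) = H x y - H x (y + 1)

lemma sum_Ico_succ {f : ℤ → ℂ} {m n : ℤ} (h : m ≤ n) :
    ∑ i ∈ Ico m (n + 1), f i = ∑ i ∈ Ico m n, f i + f n := by
  have : Ico m (n + 1) = insert n (Ico m n) := by
    ext i; simp only [mem_Ico, mem_insert]; omega
  rw [this, sum_insert (by simp), add_comm]

/-- closed increments have a potential -/
theorem exists_pot {F : ℤ × ℤ → ℂ} {x0 x1 y0 y1 : ℤ}
    (hc : ∀ x y, x0 ≤ x → x < x1 → y0 ≤ y → y < y1 →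
      F (ve (x, y)) + F (ve (x + 1, y)) = F (he (x, y + 1)) + F (he (x, y))) :
    ∃ H, Pot F H x0 x1 y0 y1 := by
  let H : ℤ → ℤ → ℂ := fun x y =>
    -(∑ i ∈ Ico x0 x, sg (i + y0) * F (he (i, y0))) - ∑ l ∈ Ico y0 y, sg (x + l) * F (ve (x, l))
  have hv : ∀ x y, y0 ≤ y → sg (x + y) * F (ve (x, y)) = H x y - H x (y + 1) := by
    intro x y h
    simp only [H]
    rw [sum_Ico_succ h]; ring
  have hh : ∀ n : ℕ, ∀ x, x0 ≤ x → x < x1 → y0 + n ≤ y1 →
      sg (x + (y0 + n)) * F (he (x, y0 + n)) = H x (y0 + n) - H (x + 1) (y0 + n) := by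
    intro n
    induction n with
    | zero =>
      intro x h1 _ _
      simp only [H, Nat.cast_zero, add_zero, Ico_self, sum_empty, sub_zero]
      rw [sum_Ico_succ h1]; ring
    | succ n ih =>
      intro x h1 h2 h3
      push_cast at h3 ⊢
      have i1 := ih x h1 h2 (by omega)
      have i2 := hv x (y0 + n) (by omega)
      have i3 := hv (x + 1) (y0 + n) (by omega)
      have i4 := hc x (y0 + n) h1 h2 (by omega) (by omega)
      rw [sg_flip (m := x + 1 + (y0 + n)) (n := x + (y0 + n)) (by omega)] at i3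
      rw [sg_flip (m := x + (y0 + (n + 1))) (n := x + (y0 + n)) (by omega)]
      rw [show y0 + ((n : ℤ) + 1) = y0 + n + 1 by ring]
      linear_combination i1 - i2 + i3 + sg (x + (y0 + n)) * i4
  refine ⟨H, ⟨fun x y h1 h2 h3 h4 => ?_, fun x y _ _ h3 _ => hv x y h3⟩⟩
  obtain ⟨n, rfl⟩ : ∃ n : ℕ, y = y0 + n := ⟨(y - y0).toNat, by omega⟩
  exact hh n x h1 h2 h4

/-! ### Increments of the environments -/

variable {w h : ℤ}

open Classical in
/-- increment at `c` in the environment number `j` -/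
noncomputable def FJ (O : Out w h) (a b : ℂ) (j : ℤ) (c : ℤ × ℤ) : ℂ :=
  if H : 0 ≤ j ∧ j ≤ h then (XJ O j H.1 H.2).incW (qJ w h j a b) c else 0

variable {O : Out w h} {a b : ℂ} {j : ℤ}

lemma FJ_eq (h0 : 0 ≤ j) (h1 : j ≤ h) (c : ℤ × ℤ) :
    FJ O a b j c = (XJ O j h0 h1).incW (qJ w h j a b) c := by
  unfold FJ; rw [dif_pos ⟨h0, h1⟩]

lemma one_add_w6_ne : (1 + w6 : ℂ) ≠ 0 := by
  intro h0
  have := congrArg Complex.re h0
  simp [w6] at this
  norm_num at this

/-- natural tiles -/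
lemma nat_tile (h0 : 0 ≤ j) (h1 : j ≤ h) {x y : ℤ} (hx : 0 ≤ x) (hx' : x < w) (hy : -1 ≤ y)
    (hy' : y < h) (hj : y ≠ j - 1) : FJ O a b j (ve (x, y)) + FJ O a b j (ve (x + 1, y)) =
      FJ O a b j (he (x, y + 1)) + FJ O a b j (he (x, y)) := by
  have hE : lt (x, y) ∈ (XJ O j h0 h1).E := by
    rw [XJ_E, mem_EJ]; exact Or.inl ⟨hx, hx', hy, hy'⟩
  have hq : qJ w h j a b (lt (x, y)) = 1 / 2 := by
    unfold qJ
    rw [tt_lt, if_neg (by simp only; omega), if_neg (by simp only; omega)]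
  simp only [FJ_eq h0 h1]
  have key : (1 + w6) * ((XJ O j h0 h1).incW (qJ w h j a b) (ve (x, y)) +
      (XJ O j h0 h1).incW (qJ w h j a b) (ve (x + 1, y))) =
      (1 + w6) * ((XJ O j h0 h1).incW (qJ w h j a b) (he (x, y + 1)) +
      (XJ O j h0 h1).incW (qJ w h j a b) (he (x, y))) := by
    rcases Int.emod_two_eq_zero_or_one (x + y) with h2 | h2
    · have := tile_even (a := 1 / 2) h2 hE hq
      linear_combination 2 * this
    · have := tile_odd (q := qJ w h j a b) (a := 1 / 2) h2 hE (by rw [hq]; ring)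
      linear_combination 2 * this
  exact mul_left_cancel₀ one_add_w6_ne key

/-- the potential above the line -/
theorem exists_low (O : Out w h) (a b : ℂ) : ∃ H, Pot (FJ O a b 0) H 0 w 0 h := by
  have := O.hh
  exact exists_pot fun x y h1 h2 h3 h4 =>
    nat_tile le_rfl (by omega) h1 h2 (by omega) h4 (by omega)

/-- the potential below the line -/
theorem exists_up (O : Out w h) (a b : ℂ) : ∃ H, Pot (FJ O a b h) H 0 w (-1) (h - 1) := by
  have := O.hh
  exact exists_pot fun x y h1 h2 h3 h4 =>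
    nat_tile (by omega) le_rfl h1 h2 h3 (by omega) (by omega)

/-- row tile -/
lemma row_tile (h0 : 0 ≤ j) (h1 : j ≤ h) {x : ℤ} (hx : 0 ≤ x) (hx' : x < w) :
    ((1 - a) + a * w6) * (FJ O a b j (ve (x, j - 1)) + FJ O a b j (ve (x + 1, j - 1))) =
      ((1 - a) * w6 + a) * (FJ O a b j (he (x, j)) + FJ O a b j (he (x, j - 1))) := by
  have hh := O.hh
  have hE : lt (x, j - 1) ∈ (XJ O j h0 h1).E := by
    rw [XJ_E, mem_EJ]; exact Or.inl ⟨hx, hx', by omega, by omega⟩
  have hq : qJ w h j a b (lt (x, j - 1)) = if (x + (j - 1)) % 2 = 0 then a else 1 - a := by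
    unfold qJ
    rw [tt_lt, if_neg (by simp only; omega), if_pos rfl]
  simp only [FJ_eq h0 h1]
  rcases Int.emod_two_eq_zero_or_one (x + (j - 1)) with h2 | h2
  · rw [if_pos h2] at hq
    have := tile_even h2 hE hq
    rw [sub_add_cancel] at this
    exact this
  · rw [if_neg (by omega)] at hq
    have := tile_odd h2 hE hq
    rw [sub_add_cancel] at this
    exact this

/-- tile of the left column -/
lemma left_tile (h0 : 0 ≤ j) (h1 : j ≤ h) {y : ℤ} (hy : j ≤ y) (hy' : y < h) :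
    ((1 - b) * w6 + b) * (FJ O a b j (ve (-1, y)) + FJ O a b j (ve (0, y))) =
      ((1 - b) + b * w6) * (FJ O a b j (he (-1, y + 1)) + FJ O a b j (he (-1, y))) := by
  have hh := O.hh
  have hE : lt (-1, y) ∈ (XJ O j h0 h1).E := by
    rw [XJ_E, mem_EJ]; exact Or.inr (Or.inl ⟨rfl, hy, hy'⟩)
  have hq : qJ w h j a b (lt (-1, y)) = if (-1 + y) % 2 = 1 then b else 1 - b := by
    unfold qJ
    rw [tt_lt, if_pos (Or.inl rfl)]
  simp only [FJ_eq h0 h1]
  rcases Int.emod_two_eq_zero_or_one (-1 + y) with h2 | h2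
  · rw [if_neg (by omega)] at hq
    have := tile_even h2 hE hq
    rw [show (-1 : ℤ) + 1 = 0 by ring] at this
    linear_combination this
  · rw [if_pos h2] at hq
    have := tile_odd (q := qJ w h j a b) (a := 1 - b) h2 hE (by rw [hq]; ring)
    rw [show (-1 : ℤ) + 1 = 0 by ring] at this
    linear_combination this

/-- A deterministic step multiplies the increment by a phase. -/
lemma incO_det {X : Env} {ω : Finset (ℤ × ℤ)} (hω : ω ⊆ X.E) {c : ℤ × ℤ}
    (hc : X.f ω c ≠ X.c0) : X.incO ω (X.f ω c) = Pool.Agent.Q1.ph (X.d ω c) * X.incO ω c := by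
  by_cases h : ∃ i < X.len ω, X.z ω i = c
  · obtain ⟨i, hi, hz⟩ := h
    rw [Env.incO_of hω hi hz]
    have hi' : i + 1 < X.len ω := by
      rcases Nat.lt_or_ge (i + 1) (X.len ω) with h1 | h1
      · exact h1
      · exfalso
        have h2 : i + 1 = X.len ω := by omega
        apply hc
        rw [← hz, ← Env.z_succ, h2, Env.z_len hω]
    have hz' : X.z ω (i + 1) = X.f ω c := by rw [Env.z_succ, hz]
    rw [Env.incO_of hω hi' hz', Env.K_succ, hz, ph_add, mul_comm]
  · push Not at h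
    rw [Env.incO_zero h, mul_zero]
    apply Env.incO_zero
    intro i hi hz
    rcases Nat.eq_zero_or_pos i with h0 | h0
    · rw [h0, Env.z_zero] at hz
      exact hc hz.symm
    · obtain ⟨j, rfl⟩ : ∃ j, i = j + 1 := ⟨i - 1, by omega⟩
      rw [Env.z_succ] at hz
      exact h j (by omega) (Env.f_injective hω hz)

lemma incW_det {X : Env} {q : ℤ × ℤ → ℂ} {c c' : ℤ × ℤ} {d : ℤ}
    (hc : ∀ ω ⊆ X.E, X.f ω c = c' ∧ X.d ω c = d) (h0 : c' ≠ X.c0) :
    X.incW q c' = Pool.Agent.Q1.ph d * X.incW q c := by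
  unfold Env.incW
  rw [← Ec_smul]
  refine Ec_congr fun ω hω => ?_
  obtain ⟨h1, h2⟩ := hc ω hω
  rw [← h1, ← h2]
  exact incO_det hω (by rw [h1]; exact h0)

/-- deterministic step of the environment number `j` -/
lemma XJ_f (h0 : 0 ≤ j) (h1 : j ≤ h) {ω : Finset (ℤ × ℤ)} (hω : ω ⊆ EJ w h j) {c : ℤ × ℤ}
    (hc : c ∈ PS (EJ w h j ∪ WJ w h j O.Wo) (vx O.c0)) :
    (XJ O j h0 h1).f ω c = nx (ω ∪ WJ w h j O.Wo) c ∧
      (XJ O j h0 h1).d ω c = del (ω ∪ WJ w h j O.Wo) c :=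
  ⟨stp_plane (disj_EW O h0 h1) _ hω hc, tur_plane (disj_EW O h0 h1) _ hω hc⟩

lemma notMem_Wo {x y : ℤ} (hx : -2 ≤ x) (hx' : x < w + 2) (hy : -2 ≤ y) (hy' : y ≤ h) :
    lt (x, y) ∉ O.Wo := fun h1 => O.far x y h1 ⟨hx, hx', hy, hy'⟩

/-- closed labels near the rectangle -/
lemma notMem_union {ω : Finset (ℤ × ℤ)} (hω : ω ⊆ EJ w h j) {x y : ℤ} (hx : -2 ≤ x)
    (hx' : x < w + 2) (hy : -2 ≤ y) (hy' : y ≤ h) (h2 : lt (x, y) ∉ EJ w h j)
    (h3 : lt (x, y) ∉ WR w h j) : lt (x, y) ∉ ω ∪ WJ w h j O.Wo := by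
  rw [mem_union, not_or]
  refine ⟨fun h => h2 (hω h), ?_⟩
  unfold WJ
  rw [mem_union, not_or]
  exact ⟨h3, notMem_Wo hx hx' hy hy'⟩

/-- the root corner is not behind a label near the rectangle -/
lemma plab_root {x y : ℤ} (hx : -2 ≤ x) (hx' : x < w + 2) (hy : -1 ≤ y) (hy' : y < h)
    {c : ℤ × ℤ} (hc : plab c = lt (x, y)) : c ≠ O.c0 := by
  rintro rfl
  apply O.hroot
  rw [hc]
  unfold GA
  rw [lt_mem_RT]
  exact ⟨hx, hx', hy, hy'⟩

/-- the turn of the line between the left column and the row -/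
lemma turn (h0 : 0 ≤ j) (h1 : j ≤ h) (hj : j % 2 = 0) :
    FJ O a b j (ve (0, j - 1)) = w6 * FJ O a b j (he (-1, j)) := by
  have hw := O.hw
  have hh := O.hh
  rw [FJ_eq h0 h1, FJ_eq h0 h1]
  have hp : ((-1 : ℤ) + j) % 2 = 1 := by omega
  have hpl : plab (ve (0, j - 1)) = lt (-1, j - 1) := by
    have h2 := nx_closed (w := ∅) (c := he (-1, j)) (notMem_empty _)
    have h3 := lab_pv ∅ (nxC (he (-1, j)))
    rw [← h2.1, pv_nx, h2.1, nxC_he_S hp, lab_he_S hp] at h3
    rw [show ve ((-1 : ℤ) + 1, j - 1) = ve (0, j - 1) by rw [neg_add_cancel]] at h3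
    exact h3.symm
  have key : ∀ ω ⊆ (XJ O j h0 h1).E, (XJ O j h0 h1).f ω (he (-1, j)) = ve (0, j - 1) ∧
      (XJ O j h0 h1).d ω (he (-1, j)) = 1 := by
    intro ω hω
    rw [XJ_E] at hω
    have hlab : lt (-1, j - 1) ∉ ω ∪ WJ w h j O.Wo := by
      refine notMem_union hω (by omega) (by omega) (by omega) (by omega) ?_ ?_
      · rw [mem_EJ]; omega
      · rw [mem_WR]; omega
    have hmem : he (-1, j) ∈ PS (EJ w h j ∪ WJ w h j O.Wo) (vx O.c0) := by
      -- the previous label of `ve (0, j-1)`; the vertex `(0, j)` is an end of the row tile `(0, j-1)`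
      have hE : lt (0, j - 1) ∈ EJ w h j := by
        rw [mem_EJ]; exact Or.inl ⟨by omega, by omega, by omega, by omega⟩
      have h4 : ve (0, j - 1) ∈ PS (EJ w h j ∪ WJ w h j O.Wo) (vx O.c0) := by
        apply PS_of_lab
        rw [lab_ve_E (by omega)]
        exact mem_union_left _ hE
      rw [mem_PS] at h4 ⊢
      have h5 : vx (ve (0, j - 1)) = vx (he (-1, j)) := by
        have := Pool.Agent.H75.Perc.vx_nxC (he (-1, j))
        rw [nxC_he_S hp, show ve ((-1 : ℤ) + 1, j - 1) = ve (0, j - 1) by rw [neg_add_cancel]]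
          at this
        exact this
      rw [← h5]; exact h4
    obtain ⟨h5, h6⟩ := XJ_f h0 h1 hω hmem
    obtain ⟨h7, h8⟩ := SE hp hlab
    rw [neg_add_cancel] at h7
    rw [h5, h6]
    exact ⟨h7, h8⟩
  rw [incW_det key (plab_root (by omega) (by omega) (by omega) (by omega) hpl), ph_one]

/-! ### The identity -/

/-- The environments number `j` and `0` have the same increments above the line, the environments
number `j` and `h` below it. -/
structure Same (O : Out w h) (a b : ℂ) : Prop where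
  lowH : ∀ j, 0 ≤ j → j ≤ h → j % 2 = 0 → ∀ x y, 0 ≤ x → x < w → j ≤ y → y ≤ h →
    FJ O a b j (he (x, y)) = FJ O a b 0 (he (x, y))
  lowV : ∀ j, 0 ≤ j → j ≤ h → j % 2 = 0 → ∀ x y, 0 ≤ x → x ≤ w → j ≤ y → y < h →
    FJ O a b j (ve (x, y)) = FJ O a b 0 (ve (x, y))
  line : ∀ j, 0 ≤ j → j ≤ h → j % 2 = 0 → FJ O a b j (he (-1, j)) = FJ O a b 0 (he (-1, j))
  upH : ∀ j, 0 ≤ j → j ≤ h → j % 2 = 0 → ∀ x y, 0 ≤ x → x < w → -1 ≤ y → y ≤ j - 1 →
    FJ O a b j (he (x, y)) = FJ O a b h (he (x, y))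
  upV : ∀ j, 0 ≤ j → j ≤ h → j % 2 = 0 → ∀ x y, 0 ≤ x → x ≤ w → -1 ≤ y → y < j - 1 →
    FJ O a b j (ve (x, y)) = FJ O a b h (ve (x, y))
  out : ∀ y, 0 ≤ y → y < h → FJ O a b 0 (ve (-1, y)) = FJ O a b h (ve (0, y - 1))

/-- **(A4)** -/
theorem potential (S : Same O a b) (hb : (1 - b) + b * w6 ≠ 0)
    (hab : w6 * ((1 - b) * w6 + b) * ((1 - a) + a * w6) =
      ((1 - a) * w6 + a) * ((1 - b) + b * w6))
    {Hl Hu : ℤ → ℤ → ℂ} (hl : Pot (FJ O a b 0) Hl 0 w 0 h)
    (hu : Pot (FJ O a b h) Hu 0 w (-1) (h - 1)) :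
    ∃ C : ℂ, ∀ j x : ℤ, 0 ≤ j → j ≤ h → j % 2 = 0 → 0 ≤ x → x ≤ w →
      ((1 - a) + a * w6) * (sg x * FJ O a b j (ve (x, j - 1))) =
        ((1 - a) * w6 + a) * (Hl x j - Hu x (j - 1)) + C := by
  have hw := O.hw
  have hh := O.hh
  -- the left column
  set U : ℤ → ℂ := fun y => ((1 - a) + a * w6) * (w6 * (sg y * FJ O a b 0 (he (-1, y)))) -
    ((1 - a) * w6 + a) * (Hl 0 y - Hu 0 (y - 1)) with hU
  have step : ∀ y, 0 ≤ y → y < h → U y = U (y + 1) := by
    intro y hy hy'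
    have i1 := left_tile (O := O) (a := a) (b := b) (j := 0) le_rfl (by omega) hy hy'
    have i2 := hl.ver 0 y le_rfl (by omega) hy hy'
    have i3 := hu.ver 0 (y - 1) le_rfl (by omega) (by omega) (by omega)
    rw [← S.out y hy hy', sub_add_cancel,
      sg_flip (m := 0 + (y - 1)) (n := y) (by omega)] at i3
    rw [zero_add] at i2
    have i4 : ((1 - b) + b * w6) * (((1 - a) + a * w6) * (w6 *
        (FJ O a b 0 (he (-1, y + 1)) + FJ O a b 0 (he (-1, y))))) = ((1 - b) + b * w6) *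
        (((1 - a) * w6 + a) * (FJ O a b 0 (ve (-1, y)) + FJ O a b 0 (ve (0, y)))) := by
      linear_combination (-w6 * ((1 - a) + a * w6)) * i1 +
        (FJ O a b 0 (ve (-1, y)) + FJ O a b 0 (ve (0, y))) * hab
    have i5 := mul_left_cancel₀ hb i4
    simp only [hU]
    rw [sg_flip (m := y + 1) (n := y) (by omega), add_sub_cancel_right]
    linear_combination sg y * i5 + ((1 - a) * w6 + a) * i2 - ((1 - a) * w6 + a) * i3
  have col : ∀ n : ℕ, (n : ℤ) ≤ h → U n = U 0 := by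
    intro n
    induction n with
    | zero => intro _; rfl
    | succ n ih =>
      intro hn
      push_cast at hn ⊢
      rw [← step n (by omega) (by omega)]
      exact ih (by omega)
  refine ⟨U 0, fun j x h0 h1 hj hx hx' => ?_⟩
  obtain ⟨m, rfl⟩ : ∃ m : ℕ, x = m := ⟨x.toNat, by omega⟩
  clear hx
  induction m with
  | zero =>
    obtain ⟨n, rfl⟩ : ∃ n : ℕ, j = n := ⟨j.toNat, by omega⟩
    have i1 := col n h1
    rw [← i1]
    simp only [hU]
    rw [Nat.cast_zero, turn h0 h1 hj, sg_even hj, S.line n h0 h1 hj, sg_even rfl]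
    ring
  | succ m ih =>
    push_cast at hx' ⊢
    have i1 := ih (by omega)
    have i2 := row_tile (O := O) (a := a) (b := b) h0 h1 (x := m) (by omega) (by omega)
    have i3 := hl.hor m j (by omega) (by omega) h0 h1
    have i4 := hu.hor m (j - 1) (by omega) (by omega) (by omega) (by omega)
    rw [sg_congr (m := (m : ℤ) + j) (n := m) (by omega)] at i3
    rw [sg_flip (m := (m : ℤ) + (j - 1)) (n := m) (by omega)] at i4
    rw [← S.lowH j h0 h1 hj m j (by omega) (by omega) le_rfl h1] at i3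
    rw [← S.upH j h0 h1 hj m (j - 1) (by omega) (by omega) (by omega) le_rfl] at i4
    rw [sg_flip (m := (m : ℤ) + 1) (n := m) (by omega)]
    linear_combination i1 - sg m * i2 - ((1 - a) * w6 + a) * i3 + ((1 - a) * w6 + a) * i4

end Pool.Agent.H74.R45
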