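import Mathlib
import Pool.Agent.H74.R45.Pot
import Pool.Agent.H64.Q1.Sweep

set_option autoImplicit false
open Finset

/-! # The weights `a = wa φ` (east) and `b = wa (φ + π/2)` (south) -/

namespace Pool.Agent.H74.R45

open Pool.Agent.Q1 Pool.Agent.H64.Q1

lemma w6_exp : w6 = Complex.exp ((Real.pi / 3 : ℝ) * Complex.I) := by
  rw [Complex.exp_mul_I, ← Complex.ofReal_cos, ← Complex.ofReal_sin, Real.cos_pi_div_three,
    Real.sin_pi_div_three]
  unfold w6
  apply Complex.ext <;> simp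

/-- `(1 - a) + a w6` for `a = wa φ` -/
lemma den_wa (u : ℂ) (h : Complex.sin ((u + Real.pi) / 3) ≠ 0) :
    ((1 - wa u) + wa u * w6) * Complex.sin ((u + Real.pi) / 3) =
      ((Real.sqrt 3 / 2 : ℝ) : ℂ) * Complex.exp (u / 3 * Complex.I) := by
  have h1 := one_sub_wa u h
  have h2 : wa u * Complex.sin ((u + Real.pi) / 3) = Complex.sin (u / 3) := by
    unfold wa; exact div_mul_cancel₀ _ h
  have h3 : (1 - wa u) * Complex.sin ((u + Real.pi) / 3) = Complex.sin ((Real.pi - u) / 3) := by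
    rw [h1]; exact div_mul_cancel₀ _ h
  have e1 : (Real.pi - u) / 3 = ((Real.pi / 3 : ℝ) : ℂ) - u / 3 := by push_cast; ring
  rw [add_mul, h3, mul_right_comm, h2, e1, Complex.sin_sub, ← Complex.ofReal_cos,
    ← Complex.ofReal_sin, Real.cos_pi_div_three, Real.sin_pi_div_three, Complex.exp_mul_I]
  have hw : w6 = ((1 / 2 : ℝ) : ℂ) + ((Real.sqrt 3 / 2 : ℝ) : ℂ) * Complex.I := by
    unfold w6; apply Complex.ext <;> simp
  rw [hw]
  ring

/-- `(1 - a) w6 + a` for `a = wa φ` -/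
lemma num_wa (u : ℂ) (h : Complex.sin ((u + Real.pi) / 3) ≠ 0) :
    ((1 - wa u) * w6 + wa u) * Complex.sin ((u + Real.pi) / 3) =
      ((Real.sqrt 3 / 2 : ℝ) : ℂ) * (w6 * Complex.exp (-(u / 3) * Complex.I)) := by
  have h1 := one_sub_wa u h
  have h2 : wa u * Complex.sin ((u + Real.pi) / 3) = Complex.sin (u / 3) := by
    unfold wa; exact div_mul_cancel₀ _ h
  have h3 : (1 - wa u) * Complex.sin ((u + Real.pi) / 3) = Complex.sin ((Real.pi - u) / 3) := by
    rw [h1]; exact div_mul_cancel₀ _ h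
  have e1 : (Real.pi - u) / 3 = ((Real.pi / 3 : ℝ) : ℂ) - u / 3 := by push_cast; ring
  rw [add_mul, mul_right_comm, h3, h2, e1, Complex.sin_sub, ← Complex.ofReal_cos,
    ← Complex.ofReal_sin, Real.cos_pi_div_three, Real.sin_pi_div_three, Complex.exp_mul_I,
    Complex.cos_neg, Complex.sin_neg]
  have hw : w6 = ((1 / 2 : ℝ) : ℂ) + ((Real.sqrt 3 / 2 : ℝ) : ℂ) * Complex.I := by
    unfold w6; apply Complex.ext <;> simp
  have h33 : ((Real.sqrt 3 : ℝ) : ℂ) * ((Real.sqrt 3 : ℝ) : ℂ) = 3 := by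
    rw [← Complex.ofReal_mul, Real.mul_self_sqrt (by norm_num)]; norm_num
  rw [hw]
  push_cast
  linear_combination (-(Complex.sin (u / 3)) / 4) * h33 +
    (Complex.sin (u / 3)) * ((Real.sqrt 3 : ℝ) : ℂ) ^ 2 / 4 * Complex.I_sq

/-- the relation between the two classes -/
theorem wa_rel (u : ℂ) (h : Complex.sin ((u + Real.pi) / 3) ≠ 0)
    (h' : Complex.sin ((u + Real.pi / 2 + Real.pi) / 3) ≠ 0) :
    w6 * ((1 - wa (u + Real.pi / 2)) * w6 + wa (u + Real.pi / 2)) * ((1 - wa u) + wa u * w6) =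
      ((1 - wa u) * w6 + wa u) * ((1 - wa (u + Real.pi / 2)) + wa (u + Real.pi / 2) * w6) := by
  have a1 := den_wa u h
  have a2 := num_wa u h
  have b1 := den_wa (u + Real.pi / 2) h'
  have b2 := num_wa (u + Real.pi / 2) h'
  have e : w6 * (Complex.exp (-((u + Real.pi / 2) / 3) * Complex.I) *
      Complex.exp (u / 3 * Complex.I)) =
      Complex.exp (-(u / 3) * Complex.I) * Complex.exp ((u + Real.pi / 2) / 3 * Complex.I) := by
    rw [w6_exp, ← Complex.exp_add, ← Complex.exp_add, ← Complex.exp_add]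
    congr 1
    push_cast
    ring
  have hne : Complex.sin ((u + Real.pi) / 3) * Complex.sin ((u + Real.pi / 2 + Real.pi) / 3) ≠ 0 :=
    mul_ne_zero h h'
  apply mul_right_cancel₀ hne
  set S := Complex.sin ((u + Real.pi) / 3)
  set S' := Complex.sin ((u + Real.pi / 2 + Real.pi) / 3)
  calc w6 * ((1 - wa (u + Real.pi / 2)) * w6 + wa (u + Real.pi / 2)) *
        ((1 - wa u) + wa u * w6) * (S * S')
      = w6 * ((((1 - wa (u + Real.pi / 2)) * w6 + wa (u + Real.pi / 2)) * S') *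
        (((1 - wa u) + wa u * w6) * S)) := by ring
    _ = ((Real.sqrt 3 / 2 : ℝ) : ℂ) ^ 2 * w6 * (w6 *
        (Complex.exp (-((u + Real.pi / 2) / 3) * Complex.I) * Complex.exp (u / 3 * Complex.I))) := by
        rw [a1, b2]; ring
    _ = ((Real.sqrt 3 / 2 : ℝ) : ℂ) ^ 2 * w6 * (Complex.exp (-(u / 3) * Complex.I) *
        Complex.exp ((u + Real.pi / 2) / 3 * Complex.I)) := by rw [e]
    _ = (((1 - wa u) * w6 + wa u) * S) *
        (((1 - wa (u + Real.pi / 2)) + wa (u + Real.pi / 2) * w6) * S') := by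
        rw [a2, b1]; ring
    _ = _ := by ring

lemma den_ne (u : ℂ) (h : Complex.sin ((u + Real.pi) / 3) ≠ 0) :
    (1 - wa u) + wa u * w6 ≠ 0 := by
  intro h0
  have a1 := den_wa u h
  rw [h0, zero_mul] at a1
  have h3 : (0 : ℝ) < Real.sqrt 3 / 2 := by positivity
  have : ((Real.sqrt 3 / 2 : ℝ) : ℂ) * Complex.exp (u / 3 * Complex.I) ≠ 0 :=
    mul_ne_zero (by exact_mod_cast h3.ne') (Complex.exp_ne_zero _)
  exact this a1.symm

/-- the ratio `r(φ) = e^{-(2i/3)(φ - π/2)}` -/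
theorem ratio_wa (u : ℂ) (h : Complex.sin ((u + Real.pi) / 3) ≠ 0) :
    (1 - wa u) * w6 + wa u = Complex.exp (-(2 * Complex.I / 3) * (u - Real.pi / 2)) *
      ((1 - wa u) + wa u * w6) := by
  have a1 := den_wa u h
  have a2 := num_wa u h
  apply mul_right_cancel₀ h
  rw [a2, mul_assoc, a1, w6_exp]
  have e : Complex.exp (((Real.pi / 3 : ℝ) : ℂ) * Complex.I) * Complex.exp (-(u / 3) * Complex.I) =
      Complex.exp (-(2 * Complex.I / 3) * (u - Real.pi / 2)) * Complex.exp (u / 3 * Complex.I) := by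
    rw [← Complex.exp_add, ← Complex.exp_add]
    congr 1
    push_cast
    ring
  linear_combination ((Real.sqrt 3 / 2 : ℝ) : ℂ) * e

variable {w h : ℤ}

/-- **(A4)** for the weights `wa φ`, `wa (φ + π/2)`. -/
theorem potential_wa {O : Out w h} (u : ℂ) (h1 : Complex.sin ((u + Real.pi) / 3) ≠ 0)
    (h2 : Complex.sin ((u + Real.pi / 2 + Real.pi) / 3) ≠ 0)
    (S : Same O (wa u) (wa (u + Real.pi / 2)))
    {Hl Hu : ℤ → ℤ → ℂ} (hl : Pot (FJ O (wa u) (wa (u + Real.pi / 2)) 0) Hl 0 w 0 h)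
    (hu : Pot (FJ O (wa u) (wa (u + Real.pi / 2)) h) Hu 0 w (-1) (h - 1)) :
    ∃ C : ℂ, ∀ j x : ℤ, 0 ≤ j → j ≤ h → j % 2 = 0 → 0 ≤ x → x ≤ w →
      sg x * FJ O (wa u) (wa (u + Real.pi / 2)) j (ve (x, j - 1)) =
        Complex.exp (-(2 * Complex.I / 3) * (u - Real.pi / 2)) * (Hl x j - Hu x (j - 1)) + C := by
  obtain ⟨C, hC⟩ := potential S (den_ne _ h2) (wa_rel u h1 h2) hl hu
  have hD := den_ne u h1
  refine ⟨C / ((1 - wa u) + wa u * w6), fun j x a b c d e => ?_⟩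
  have := hC j x a b c d e
  rw [ratio_wa u h1] at this
  apply mul_left_cancel₀ hD
  have h3 : ((1 - wa u) + wa u * w6) * (C / ((1 - wa u) + wa u * w6)) = C :=
    mul_div_cancel₀ _ hD
  rw [this]
  linear_combination -h3

end Pool.Agent.H74.R45
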