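import Mathlib
import Pool.Agent.H13.Q1.Merge
import Pool.Agent.H74.R45.Wires

set_option autoImplicit false
open Finset

/-! # Comparison of plane environments

`DW A E c c' t` : with the open labels `A` the path from the corner `c` leads to the corner `c'` through
labels which are not in `E`, and turns by `t`. If two sets of open labels agree on `E` and the wires
(from the corners behind labels of `E` to the corners in front of labels of `E`) are the same, then the
increments at the corners of `E` are the same (`iG_comp`, `iW_comp`); the roots may be different.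
`iW_trans` : translations by lattice vectors. `iW_det` : deterministic weights. -/

namespace Pool.Agent.H74.R45

open Pool.Agent.H75.Perc hiding ph
open Pool.Agent.H75.TwoArm Pool.Agent.Q1 Pool.Agent.H33.Q1
open Pool.Agent.H75.Four Pool.Agent.H69.Q1 Pool.Agent.H80.Sweep
open Pool.Agent.H13.Q1 (iG)

/-! ### Deterministic paths -/

/-- a path through labels which are not in `E` -/
def DW (A E : Finset (ℤ × ℤ)) (c c' : ℤ × ℤ) (t : ℤ) : Prop :=
  ∃ n : ℕ, (∀ i < n, lab ((nx A)^[i] c) ∉ E) ∧ (nx A)^[n] c = c' ∧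
    ∑ i ∈ range n, del A ((nx A)^[i] c) = t

variable {A B E E' W W' : Finset (ℤ × ℤ)} {c c' c1 c0 c0' e : ℤ × ℤ} {t s k0 k0' t' : ℤ}

lemma DW.nil (c : ℤ × ℤ) : DW A E c c 0 :=
  ⟨0, fun i hi => absurd hi (Nat.not_lt_zero i), rfl, by simp⟩

lemma DW.to (h : c = c1) : DW A E c c1 0 := h ▸ DW.nil c

lemma DW.cons {d : ℤ} (hE : lab c ∉ E) (h1 : nx A c = c1)
    (h2 : del A c = d) (h : DW A E c1 c' t) (hs : s = d + t) : DW A E c c' s := by
  obtain ⟨n, a1, a2, a3⟩ := h
  refine ⟨n + 1, fun i hi => ?_, ?_, ?_⟩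
  · rcases i with _ | i
    · exact hE
    · rw [Function.iterate_succ_apply, h1]; exact a1 i (by omega)
  · rw [Function.iterate_succ_apply, h1]; exact a2
  · rw [sum_range_succ', hs, ← a3, Function.iterate_zero_apply, h2, add_comm]
    congr 1
    refine sum_congr rfl fun i _ => ?_
    rw [Function.iterate_succ_apply, h1]

lemma DW.trans (h : DW A E c c1 t) (h' : DW A E c1 c' s) : DW A E c c' (t + s) := by
  obtain ⟨n, a1, a2, a3⟩ := h
  obtain ⟨m, b1, b2, b3⟩ := h'
  have e : ∀ i, (nx A)^[n + i] c = (nx A)^[i] c1 := fun i => by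
    rw [add_comm, Function.iterate_add_apply, a2]
  refine ⟨n + m, fun i hi => ?_, ?_, ?_⟩
  · rcases Nat.lt_or_ge i n with h | h
    · exact a1 i h
    · obtain ⟨k, rfl⟩ := Nat.exists_eq_add_of_le h
      rw [e]; exact b1 k (by omega)
  · rw [e]; exact b2
  · rw [sum_range_add, a3]
    congr 1
    rw [← b3]
    exact sum_congr rfl fun i _ => by rw [e]

lemma DW.trans' (h : DW A E c c1 t) (h' : DW A E c1 c' s) (hs : t' = t + s) : DW A E c c' t' :=
  hs ▸ h.trans h'

lemma DW.cast (h : DW A E c c' t) (hc : c' = c1) (ht : t = s) : DW A E c c1 s := hc ▸ ht ▸ h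

/-- fewer random labels, open labels which agree outside -/
lemma DW.conv (h : DW A E c c' t) (hE : E' ⊆ E) (hA : ∀ x, x ∉ E → (x ∈ A ↔ x ∈ B)) :
    DW B E' c c' t := by
  obtain ⟨n, a1, a2, a3⟩ := h
  have e : ∀ i ≤ n, (nx B)^[i] c = (nx A)^[i] c := by
    intro i
    induction i with
    | zero => intro _; rfl
    | succ i ih =>
      intro hi
      rw [Function.iterate_succ_apply', Function.iterate_succ_apply', ih (by omega)]
      have := hA _ (a1 i (by omega))
      generalize (nx A)^[i] c = z at this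
      unfold nx
      by_cases h : lab z ∈ A
      · rw [if_pos h, if_pos (this.1 h)]
      · rw [if_neg h, if_neg fun h' => h (this.2 h')]
  refine ⟨n, fun i hi => ?_, (e n le_rfl).trans a2, ?_⟩
  · rw [e i hi.le]
    exact fun h' => a1 i hi (hE h')
  · rw [← a3]
    refine sum_congr rfl fun i hi => ?_
    have hi' := mem_range.1 hi
    rw [e i hi'.le]
    have := hA _ (a1 i hi')
    unfold del
    by_cases h : lab ((nx A)^[i] c) ∈ A
    · rw [if_pos h, if_pos (this.1 h)]
    · rw [if_neg h, if_neg fun h' => h (this.2 h')]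

/-- adding a configuration of the random labels -/
lemma DW.add {ω : Finset (ℤ × ℤ)} (h : DW W E c c' t) (hω : ω ⊆ E) : DW (ω ∪ W) E c c' t :=
  h.conv (subset_refl _) fun x hx => by
    rw [mem_union]
    exact ⟨Or.inr, fun h => h.resolve_left fun h' => hx (hω h')⟩

/-! ### Corners of `E` -/

/-- the corners before or behind a label of `E` -/
def RC (E : Finset (ℤ × ℤ)) (c : ℤ × ℤ) : Prop := lab c ∈ E ∨ plab c ∈ E

lemma plab_nx (A : Finset (ℤ × ℤ)) (c : ℤ × ℤ) : plab (nx A c) = lab c := by
  have h1 := lab_pv A (nx A c)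
  rw [pv_nx] at h1
  exact h1.symm

/-- the first return of a wire -/
lemma DW.ret (hc : lab c ∉ E) (hc' : lab c' ∈ E) (h : DW A E c c' t) :
    Ret (nx A) (del A) (RC E) c c' t := by
  obtain ⟨n, a1, a2, a3⟩ := h
  induction n generalizing c t with
  | zero =>
    rw [Function.iterate_zero_apply] at a2
    exact absurd (a2 ▸ hc') hc
  | succ n ih =>
    have e1 : ∀ i, (nx A)^[i + 1] c = (nx A)^[i] (nx A c) := fun i =>
      Function.iterate_succ_apply _ _ _
    rw [sum_range_succ', Function.iterate_zero_apply] at a3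
    simp only [e1] at a3
    rcases Nat.eq_zero_or_pos n with h0 | h0
    · subst h0
      rw [e1] at a2
      simp only [range_zero, sum_empty, zero_add, Function.iterate_zero_apply] at a2 a3
      exact Ret.last a2 (Or.inl hc') a3
    · have h2 : lab (nx A c) ∉ E := by
        have := a1 1 (by omega)
        rwa [e1, Function.iterate_zero_apply] at this
      have h3 : ¬ RC E (nx A c) := by
        rintro (h | h)
        · exact h2 h
        · rw [plab_nx] at h; exact hc h
      have h4 := ih h2 (fun i hi => by rw [← e1]; exact a1 (i + 1) (by omega))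
        (by rw [← e1]; exact a2) rfl
      have := Ret.step rfl h3 rfl h4
      rw [← a3, add_comm]
      exact this

/-! ### The root may be moved along the path -/

lemma incG_shift {D : Type*} [DecidableEq D] (f : D → D) (d : D → ℤ) (c0 : D) (k0 m : ℤ) (c : D) :
    incG f d c0 (k0 + m) c = ph m * incG f d c0 k0 c := by
  unfold incG
  rw [mul_sum]
  refine sum_congr rfl fun i _ => ?_
  split_ifs
  · rw [← ph_add]
    congr 1
    unfold KK
    ring
  · rw [mul_zero]

lemma incG_reroot {D : Type*} [DecidableEq D] {f : D → D} (hf : Function.Injective f) {d : D → ℤ}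
    {R : D → Prop} {c0 e c : D} {k0 : ℤ} {n : ℕ} (he : f^[n] c0 = e)
    (hn : ∀ i < n, ¬ R (f^[i] c0)) (hc : R c) :
    incG f d c0 k0 c = incG f d e (k0 + ∑ i ∈ range n, d (f^[i] c0)) c := by
  set t := ∑ i ∈ range n, d (f^[i] c0) with ht
  have key : ∀ k, Vis f d c0 k0 c k ↔ Vis f d e (k0 + t) c k := by
    intro k
    constructor
    · rintro ⟨i, hi, h1, h2⟩
      have hper : c0 ∈ Function.periodicPts f :=
        Function.minimalPeriod_pos_iff_mem_periodicPts.1 (by omega)
      have hin : n ≤ i := by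
        by_contra h
        exact hn i (by omega) (h1 ▸ hc)
      obtain ⟨m, rfl⟩ := Nat.exists_eq_add_of_le hin
      have hp : Function.minimalPeriod f e = Function.minimalPeriod f c0 := by
        rw [← he]; exact Function.minimalPeriod_apply_iterate hper n
      refine ⟨m, by rw [hp]; omega, ?_, ?_⟩
      · rw [← he, ← Function.iterate_add_apply, add_comm]; exact h1
      · rw [← h2, KK_iter_add, he]
        unfold KK
        rfl
    · rintro ⟨i, hi, h1, h2⟩
      have hpe : e ∈ Function.periodicPts f :=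
        Function.minimalPeriod_pos_iff_mem_periodicPts.1 (by omega)
      have hpc : c0 ∈ Function.periodicPts f := by
        obtain ⟨p, hp, hpp⟩ := hpe
        refine ⟨p, hp, ?_⟩
        have h3 : f^[n] (f^[p] c0) = f^[n] c0 := by
          rw [← Function.iterate_add_apply, add_comm, Function.iterate_add_apply, he]
          exact hpp
        exact hf.iterate n h3
      have hp : Function.minimalPeriod f e = Function.minimalPeriod f c0 := by
        rw [← he]; exact Function.minimalPeriod_apply_iterate hpc n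
      have h3 : f^[n + i] c0 = c := by
        rw [add_comm, Function.iterate_add_apply, he]; exact h1
      refine ⟨n + i, ?_, h3, ?_⟩
      · by_contra hcon
        push Not at hcon
        obtain ⟨m, hm⟩ := Nat.exists_eq_add_of_le hcon
        rw [hm, add_comm, Function.iterate_add_apply, Function.iterate_minimalPeriod] at h3
        exact hn m (by omega) (h3 ▸ hc)
      · rw [KK_iter_add, he, ← h2]
        unfold KK
        rfl
  by_cases h : ∃ k, Vis f d c0 k0 c k
  · obtain ⟨k, hk⟩ := h
    rw [incG_vis hk, incG_vis ((key k).1 hk)]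
  · push Not at h
    rw [incG_not_vis h, incG_not_vis fun k hk => h k ((key k).2 hk)]

/-- the root moved to the first corner in front of a random label -/
lemma iG_reroot (p0 : plab c0 ∉ E) (h0 : DW A E c0 e t) (hc : RC E c) :
    iG c0 k0 c A = iG e (k0 + t) c A := by
  obtain ⟨n, a1, a2, a3⟩ := h0
  unfold iG
  rw [← a3]
  refine incG_reroot (R := RC E) (nx_injective A) a2 (fun i hi => ?_) hc
  rintro (h | h)
  · exact a1 i hi h
  · rcases i with _ | i
    · exact p0 h
    · rw [Function.iterate_succ_apply', plab_nx] at h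
      exact a1 i (by omega) h

lemma iG_shift (m : ℤ) : iG c0 (k0 + m) c A = ph m * iG c0 k0 c A := incG_shift _ _ _ _ _ _

/-- **Comparison.** -/
theorem iG_comp (hAB : ∀ x ∈ E, x ∈ A ↔ x ∈ B)
    (hw : ∀ c, plab c ∈ E → lab c ∉ E → ∃ c' s, lab c' ∈ E ∧ DW A E c c' s ∧ DW B E c c' s)
    (he : lab e ∈ E) (h0 : DW A E c0 e t) (h0' : DW B E c0' e t') (p0 : plab c0 ∉ E)
    (p0' : plab c0' ∉ E) (hc : RC E c) :
    iG c0 k0 c A = ph (k0 + t - (k0' + t')) * iG c0' k0' c B := by
  rw [iG_reroot p0 h0 hc, iG_reroot p0' h0' hc, ← iG_shift, add_sub_cancel]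
  refine incG_congr (R := RC E) (Or.inl he) (fun x hx => ?_) hc
  by_cases hl : lab x ∈ E
  · refine ⟨nx A x, del A x, Ret.last rfl (Or.inr (by rw [plab_nx]; exact hl)) rfl, ?_⟩
    have h1 : nx B x = nx A x := by
      unfold nx
      by_cases h : lab x ∈ A
      · rw [if_pos h, if_pos ((hAB _ hl).1 h)]
      · rw [if_neg h, if_neg fun h' => h ((hAB _ hl).2 h')]
    have h2 : del B x = del A x := by
      unfold del
      by_cases h : lab x ∈ A
      · rw [if_pos h, if_pos ((hAB _ hl).1 h)]
      · rw [if_neg h, if_neg fun h' => h ((hAB _ hl).2 h')]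
    rw [← h1, ← h2]
    exact Ret.last rfl (Or.inr (by rw [plab_nx]; exact hl)) rfl
  · obtain ⟨c', s, h1, h2, h3⟩ := hw x (hx.resolve_left hl) hl
    exact ⟨c', s, h2.ret hl h1, h3.ret hl h1⟩

/-- **Comparison of plane environments** (any weights). -/
theorem iW_comp (hd : Disjoint E W) (hd' : Disjoint E W')
    (hw : ∀ c, plab c ∈ E → lab c ∉ E → ∃ c' s, lab c' ∈ E ∧ DW W E c c' s ∧ DW W' E c c' s)
    (he : lab e ∈ E) (h0 : DW W E c0 e t) (h0' : DW W' E c0' e t') (p0 : plab c0 ∉ E)
    (p0' : plab c0' ∉ E) (hc : RC E c) (q : ℤ × ℤ → ℂ) :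
    H13.Q1.iW E W q c0 k0 c = ph (k0 + t - (k0' + t')) * H13.Q1.iW E W' q c0' k0' c := by
  unfold H13.Q1.iW
  rw [← Ec_smul]
  refine Ec_congr fun ω hω => ?_
  refine iG_comp (fun x hx => ?_) (fun c h1 h2 => ?_) he (h0.add hω) (h0'.add hω) p0 p0' hc
  · rw [mem_union, mem_union]
    have h1 := disjoint_left.1 hd hx
    have h2 := disjoint_left.1 hd' hx
    tauto
  · obtain ⟨c', s, h3, h4, h5⟩ := hw c h1 h2
    exact ⟨c', s, h3, h4.add hω, h5.add hω⟩

/-! ### Translations -/

/-- translation by `(2 m, 0)` -/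
def sv (m : ℤ) (c : ℤ × ℤ) : ℤ × ℤ := (c.1 + 2 * m, c.2)

lemma sv_inj (m : ℤ) : Function.Injective (sv m) := by
  rintro ⟨a, b⟩ ⟨c, d⟩ h
  unfold sv at h
  simp only [Prod.mk.injEq] at h
  refine Prod.ext ?_ h.2
  simp only; omega

lemma lab_sv (m : ℤ) (c : ℤ × ℤ) : lab (sv m c) = sv m (lab c) := by
  obtain ⟨a, b⟩ := c
  unfold sv lab
  have h : (a + 2 * m) % 2 = a % 2 := by omega
  simp only [h]
  split_ifs <;> refine Prod.ext ?_ ?_ <;> dsimp only <;> omega

lemma plab_sv (m : ℤ) (c : ℤ × ℤ) : plab (sv m c) = sv m (plab c) := by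
  obtain ⟨a, b⟩ := c
  unfold sv plab
  have h : (a + 2 * m) % 2 = a % 2 := by omega
  simp only [h]
  split_ifs <;> refine Prod.ext ?_ ?_ <;> dsimp only <;> omega

lemma nx_sv (m : ℤ) (A : Finset (ℤ × ℤ)) (c : ℤ × ℤ) :
    nx (A.image (sv m)) (sv m c) = sv m (nx A c) := by
  have h1 : lab (sv m c) ∈ A.image (sv m) ↔ lab c ∈ A := by
    rw [lab_sv, mem_image]
    constructor
    · rintro ⟨x, hx, h⟩; rw [← sv_inj m h]; exact hx
    · exact fun h => ⟨_, h, rfl⟩
  unfold nx
  have h2 : nxO (sv m c) = sv m (nxO c) := by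
    obtain ⟨a, b⟩ := c
    unfold sv nxO
    have h : (a + 2 * m) % 2 = a % 2 := by omega
    simp only [h]
    split_ifs <;> refine Prod.ext ?_ ?_ <;> dsimp only <;> omega
  have h3 : nxC (sv m c) = sv m (nxC c) := by
    obtain ⟨a, b⟩ := c
    unfold sv nxC
    have h : (a + 2 * m) % 2 = a % 2 := by omega
    simp only [h]
    split_ifs <;> refine Prod.ext ?_ ?_ <;> dsimp only <;> omega
  by_cases h : lab c ∈ A
  · rw [if_pos h, if_pos (h1.2 h), h2]
  · rw [if_neg h, if_neg fun h' => h (h1.1 h'), h3]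

lemma del_sv (m : ℤ) (A : Finset (ℤ × ℤ)) (c : ℤ × ℤ) :
    del (A.image (sv m)) (sv m c) = del A c := by
  have h1 : lab (sv m c) ∈ A.image (sv m) ↔ lab c ∈ A := by
    rw [lab_sv, mem_image]
    constructor
    · rintro ⟨x, hx, h⟩; rw [← sv_inj m h]; exact hx
    · exact fun h => ⟨_, h, rfl⟩
  unfold del
  by_cases h : lab c ∈ A
  · rw [if_pos h, if_pos (h1.2 h)]
  · rw [if_neg h, if_neg fun h' => h (h1.1 h')]

lemma iter_sv (m : ℤ) (A : Finset (ℤ × ℤ)) (c : ℤ × ℤ) (i : ℕ) :
    (nx (A.image (sv m)))^[i] (sv m c) = sv m ((nx A)^[i] c) := by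
  induction i with
  | zero => rfl
  | succ i ih => rw [Function.iterate_succ_apply', Function.iterate_succ_apply', ih, nx_sv]

lemma DW.sv (m : ℤ) (h : DW A E c c' t) :
    DW (A.image (sv m)) (E.image (R45.sv m)) (R45.sv m c) (R45.sv m c') t := by
  obtain ⟨n, a1, a2, a3⟩ := h
  refine ⟨n, fun i hi => ?_, by rw [iter_sv, a2], ?_⟩
  · rw [iter_sv, lab_sv, mem_image]
    rintro ⟨x, hx, h⟩
    rw [sv_inj m h] at hx
    exact a1 i hi hx
  · rw [← a3]
    exact sum_congr rfl fun i _ => by rw [iter_sv, del_sv]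

lemma iG_sv (m : ℤ) : iG (sv m c0) k0 (sv m c) (A.image (sv m)) = iG c0 k0 c A := by
  have hper : Function.minimalPeriod (nx (A.image (sv m))) (sv m c0) =
      Function.minimalPeriod (nx A) c0 := by
    refine Function.minimalPeriod_eq_minimalPeriod_iff.2 fun n => ?_
    unfold Function.IsPeriodicPt Function.IsFixedPt
    rw [iter_sv]
    exact ⟨fun h => sv_inj m h, fun h => by rw [h]⟩
  unfold iG incG
  rw [hper]
  refine sum_congr rfl fun i _ => ?_
  have h1 : (nx (A.image (sv m)))^[i] (sv m c0) = sv m c ↔ (nx A)^[i] c0 = c := by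
    rw [iter_sv]
    exact ⟨fun h => sv_inj m h, fun h => by rw [h]⟩
  have h2 : KK (nx (A.image (sv m))) (del (A.image (sv m))) (sv m c0) k0 i =
      KK (nx A) (del A) c0 k0 i := by
    unfold KK
    congr 1
    exact sum_congr rfl fun j _ => by rw [iter_sv, del_sv]
  by_cases h : (nx A)^[i] c0 = c
  · rw [if_pos h, if_pos (h1.2 h), h2]
  · rw [if_neg h, if_neg fun h' => h (h1.1 h')]

lemma Ec_image {f : ℤ × ℤ → ℤ × ℤ} (hf : Function.Injective f) (q : ℤ × ℤ → ℂ)
    (E : Finset (ℤ × ℤ)) (F : Finset (ℤ × ℤ) → ℂ) :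
    Ec q (E.image f) F = Ec (fun e => q (f e)) E (fun ω => F (ω.image f)) := by
  induction E using Finset.induction_on generalizing F with
  | empty => simp
  | insert e E he ih =>
    have h1 : f e ∉ E.image f := by
      rw [mem_image]
      rintro ⟨x, hx, h⟩
      exact he (hf h ▸ hx)
    rw [image_insert, Ec_insert q h1, Ec_insert _ he, ih, ih]
    simp only [image_insert]

/-- **Translation of a plane environment.** -/
theorem iW_sv (m : ℤ) (q : ℤ × ℤ → ℂ) : H13.Q1.iW (E.image (sv m)) (W.image (sv m)) q (sv m c0) k0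
    (sv m c) = H13.Q1.iW E W (fun e => q (sv m e)) c0 k0 c := by
  unfold H13.Q1.iW
  rw [Ec_image (sv_inj m)]
  refine Ec_congr fun ω _ => ?_
  rw [← image_union, iG_sv]

/-! ### Deterministic weights -/

lemma Ec_01 {q : ℤ × ℤ → ℂ} {D : Finset (ℤ × ℤ)} {p : ℤ × ℤ → Prop} [DecidablePred p]
    (hq : ∀ e ∈ D, q e = if p e then 1 else 0) (F : Finset (ℤ × ℤ) → ℂ) :
    Ec q D F = F (D.filter p) := by
  induction D using Finset.induction_on generalizing F with
  | empty => simp
  | insert e D he ih =>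
    have h1 := hq e (mem_insert_self _ _)
    have h2 : ∀ x ∈ D, q x = if p x then 1 else 0 := fun x hx => hq x (mem_insert_of_mem hx)
    rw [Ec_insert q he, ih h2, ih h2, filter_insert, h1]
    by_cases hp : p e
    · rw [if_pos hp, if_pos hp]; simp
    · rw [if_neg hp, if_neg hp]; simp

/-- labels with the weights `0` and `1` -/
theorem iW_det {q : ℤ × ℤ → ℂ} {D : Finset (ℤ × ℤ)} {p : ℤ × ℤ → Prop} [DecidablePred p]
    (hD : D ⊆ E) (hq : ∀ e ∈ D, q e = if p e then 1 else 0) :
    H13.Q1.iW E W q c0 k0 c = H13.Q1.iW (E \ D) (W ∪ D.filter p) q c0 k0 c := by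
  unfold H13.Q1.iW
  rw [Ec_split q hD, Ec_01 hq]
  refine Ec_congr fun ω _ => ?_
  congr 1
  ext x
  simp only [mem_union]
  tauto

end Pool.Agent.H74.R45
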