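import Mathlib
import Pool.Agent.H74.R45.Cmp
import Pool.Agent.H74.R45.Pot
import Pool.Agent.H74.R45.Ext

set_option autoImplicit false
open Finset

/-! # The environments `0` and `h` with one natural row or one natural column

`AL`, `AU` : the open labels of the environments `0`, `h` when the column is deterministic (`b = 1`);
random labels `[0,w) × [-1,h)`. `BL`, `BU` : the same when the row is deterministic (`a = 0`); random
labels `[-1,w) × [0,h)`, `[0,w+1) × [-1,h-1)`. The wires of `AL` and `AU` are the same, those of `BU` are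
the translates by `(1,-1)` of those of `BL`. -/

namespace Pool.Agent.H74.R45

open Pool.Agent.H75.Perc hiding ph
open Pool.Agent.H75.TwoArm Pool.Agent.Q1 Pool.Agent.H33.Q1
open Pool.Agent.H75.Four Pool.Agent.H69.Q1

/-! ### Steps of deterministic paths -/

section step

variable {A E : Finset (ℤ × ℤ)} {x y : ℤ} {c' : ℤ × ℤ} {t s : ℤ}

lemma DW.EN (hp : (x + y) % 2 = 1) (hE : lt (x, y) ∉ E) (hA : lt (x, y) ∉ A)
    (H : DW A E (he (x, y + 1)) c' t) (hs : s = 1 + t) : DW A E (ve (x, y)) c' s := by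
  obtain ⟨a1, a2⟩ := R45.EN (w := A) hp hA
  exact DW.cons (by rw [lab_ve_E hp]; exact hE) a1 a2 H hs

lemma DW.ES (hp : (x + y) % 2 = 1) (hE : lt (x, y) ∉ E) (hA : lt (x, y) ∈ A)
    (H : DW A E (he (x, y)) c' t) (hs : s = -1 + t) : DW A E (ve (x, y)) c' s := by
  obtain ⟨a1, a2⟩ := R45.ES (w := A) hp hA
  exact DW.cons (by rw [lab_ve_E hp]; exact hE) a1 a2 H hs

lemma DW.WS (hp : (x + y) % 2 = 0) (hE : lt (x - 1, y) ∉ E) (hA : lt (x - 1, y) ∉ A)
    (H : DW A E (he (x - 1, y)) c' t) (hs : s = 1 + t) : DW A E (ve (x, y)) c' s := by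
  obtain ⟨a1, a2⟩ := R45.WS (w := A) hp hA
  exact DW.cons (by rw [lab_ve_W hp]; exact hE) a1 a2 H hs

lemma DW.WN (hp : (x + y) % 2 = 0) (hE : lt (x - 1, y) ∉ E) (hA : lt (x - 1, y) ∈ A)
    (H : DW A E (he (x - 1, y + 1)) c' t) (hs : s = -1 + t) : DW A E (ve (x, y)) c' s := by
  obtain ⟨a1, a2⟩ := R45.WN (w := A) hp hA
  exact DW.cons (by rw [lab_ve_W hp]; exact hE) a1 a2 H hs

lemma DW.SE (hp : (x + y) % 2 = 1) (hE : lt (x, y - 1) ∉ E) (hA : lt (x, y - 1) ∉ A)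
    (H : DW A E (ve (x + 1, y - 1)) c' t) (hs : s = 1 + t) : DW A E (he (x, y)) c' s := by
  obtain ⟨a1, a2⟩ := R45.SE (w := A) hp hA
  exact DW.cons (by rw [lab_he_S hp]; exact hE) a1 a2 H hs

lemma DW.SW (hp : (x + y) % 2 = 1) (hE : lt (x, y - 1) ∉ E) (hA : lt (x, y - 1) ∈ A)
    (H : DW A E (ve (x, y - 1)) c' t) (hs : s = -1 + t) : DW A E (he (x, y)) c' s := by
  obtain ⟨a1, a2⟩ := R45.SW (w := A) hp hA
  exact DW.cons (by rw [lab_he_S hp]; exact hE) a1 a2 H hs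

lemma DW.NW (hp : (x + y) % 2 = 0) (hE : lt (x, y) ∉ E) (hA : lt (x, y) ∉ A)
    (H : DW A E (ve (x, y)) c' t) (hs : s = 1 + t) : DW A E (he (x, y)) c' s := by
  obtain ⟨a1, a2⟩ := R45.NW (w := A) hp hA
  exact DW.cons (by rw [lab_he_N hp]; exact hE) a1 a2 H hs

lemma DW.NE (hp : (x + y) % 2 = 0) (hE : lt (x, y) ∉ E) (hA : lt (x, y) ∈ A)
    (H : DW A E (ve (x + 1, y)) c' t) (hs : s = -1 + t) : DW A E (he (x, y)) c' s := by
  obtain ⟨a1, a2⟩ := R45.NE (w := A) hp hA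
  exact DW.cons (by rw [lab_he_N hp]; exact hE) a1 a2 H hs

end step

/-! ### Sets of labels -/

/-- the label of a tile of odd parity -/
def pO (e : ℤ × ℤ) : Prop := ((tt e).1 + (tt e).2) % 2 = 1

instance : DecidablePred pO := fun e => by unfold pO; infer_instance

lemma pO_lt {x y : ℤ} : pO (lt (x, y)) ↔ (x + y) % 2 = 1 := by unfold pO; rw [tt_lt]

/-- two sets of odd labels -/
lemma ext_lt {A B : Finset (ℤ × ℤ)} (hA : ∀ e ∈ A, (e.1 + e.2) % 2 = 1)
    (hB : ∀ e ∈ B, (e.1 + e.2) % 2 = 1) (H : ∀ x y, lt (x, y) ∈ A ↔ lt (x, y) ∈ B) : A = B := by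
  ext e
  constructor
  · intro h
    obtain ⟨x, y, rfl⟩ := exists_lt (hA e h)
    exact (H x y).1 h
  · intro h
    obtain ⟨x, y, rfl⟩ := exists_lt (hB e h)
    exact (H x y).2 h

variable {w h : ℤ}

/-- open labels, environment `0`, deterministic column -/
noncomputable def AL (O : Out w h) : Finset (ℤ × ℤ) := WJ w h 0 O.Wo ∪ (RT (-1) 0 0 h).filter pO

/-- open labels, environment `h`, deterministic column -/
noncomputable def AU (O : Out w h) : Finset (ℤ × ℤ) :=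
  WJ w h h O.Wo ∪ (RT w (w + 1) (-1) (h - 1)).filter pO

/-- open labels, environment `0`, deterministic row -/
noncomputable def BL (O : Out w h) : Finset (ℤ × ℤ) := WJ w h 0 O.Wo ∪ (RT 0 w (-1) 0).filter pO

/-- open labels, environment `h`, deterministic row -/
noncomputable def BU (O : Out w h) : Finset (ℤ × ℤ) := WJ w h h O.Wo ∪ (RT 0 w (h - 1) h).filter pO

section mem

variable {O : Out w h} {x y : ℤ}

lemma mem_AL (hn : -2 ≤ x ∧ x < w + 2 ∧ -2 ≤ y ∧ y ≤ h) : lt (x, y) ∈ AL O ↔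
    ((x = w ∨ x = -2 ∨ x = w + 1) ∧ -1 ≤ y ∧ y < h) ∨ (x = -1 ∧ 0 ≤ y ∧ y < h ∧ (x + y) % 2 = 1) := by
  unfold AL
  rw [mem_union, mem_WJ hn, mem_WR, mem_filter, lt_mem_RT, pO_lt]
  omega

lemma mem_AU (hn : -2 ≤ x ∧ x < w + 2 ∧ -2 ≤ y ∧ y ≤ h) : lt (x, y) ∈ AU O ↔
    ((x = -2 ∨ x = w + 1) ∧ -1 ≤ y ∧ y < h) ∨ (x = -1 ∧ -1 ≤ y ∧ y < h - 1) ∨
    (x = w ∧ y = h - 1) ∨ (x = w ∧ -1 ≤ y ∧ y < h - 1 ∧ (x + y) % 2 = 1) := by
  unfold AU
  rw [mem_union, mem_WJ hn, mem_WR, mem_filter, lt_mem_RT, pO_lt]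
  omega

lemma mem_BL (hn : -2 ≤ x ∧ x < w + 2 ∧ -2 ≤ y ∧ y ≤ h) : lt (x, y) ∈ BL O ↔
    ((x = w ∨ x = -2 ∨ x = w + 1) ∧ -1 ≤ y ∧ y < h) ∨ (0 ≤ x ∧ x < w ∧ y = -1 ∧ (x + y) % 2 = 1) := by
  unfold BL
  rw [mem_union, mem_WJ hn, mem_WR, mem_filter, lt_mem_RT, pO_lt]
  omega

lemma mem_BU (hn : -2 ≤ x ∧ x < w + 2 ∧ -2 ≤ y ∧ y ≤ h) : lt (x, y) ∈ BU O ↔
    ((x = -2 ∨ x = w + 1) ∧ -1 ≤ y ∧ y < h) ∨ (x = -1 ∧ -1 ≤ y ∧ y < h - 1) ∨
    (x = w ∧ y = h - 1) ∨ (0 ≤ x ∧ x < w ∧ y = h - 1 ∧ (x + y) % 2 = 1) := by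
  unfold BU
  rw [mem_union, mem_WJ hn, mem_WR, mem_filter, lt_mem_RT, pO_lt]
  omega

lemma iAL (H : (-2 ≤ x ∧ x < w + 2 ∧ -2 ≤ y ∧ y ≤ h) ∧
    (((x = w ∨ x = -2 ∨ x = w + 1) ∧ -1 ≤ y ∧ y < h) ∨
      (x = -1 ∧ 0 ≤ y ∧ y < h ∧ (x + y) % 2 = 1))) : lt (x, y) ∈ AL O := (mem_AL H.1).2 H.2

lemma nAL (H : (-2 ≤ x ∧ x < w + 2 ∧ -2 ≤ y ∧ y ≤ h) ∧
    ¬ (((x = w ∨ x = -2 ∨ x = w + 1) ∧ -1 ≤ y ∧ y < h) ∨
      (x = -1 ∧ 0 ≤ y ∧ y < h ∧ (x + y) % 2 = 1))) : lt (x, y) ∉ AL O :=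
  fun h' => H.2 ((mem_AL H.1).1 h')

lemma iAU (H : (-2 ≤ x ∧ x < w + 2 ∧ -2 ≤ y ∧ y ≤ h) ∧
    (((x = -2 ∨ x = w + 1) ∧ -1 ≤ y ∧ y < h) ∨ (x = -1 ∧ -1 ≤ y ∧ y < h - 1) ∨
    (x = w ∧ y = h - 1) ∨ (x = w ∧ -1 ≤ y ∧ y < h - 1 ∧ (x + y) % 2 = 1))) : lt (x, y) ∈ AU O :=
  (mem_AU H.1).2 H.2

lemma nAU (H : (-2 ≤ x ∧ x < w + 2 ∧ -2 ≤ y ∧ y ≤ h) ∧
    ¬ (((x = -2 ∨ x = w + 1) ∧ -1 ≤ y ∧ y < h) ∨ (x = -1 ∧ -1 ≤ y ∧ y < h - 1) ∨
    (x = w ∧ y = h - 1) ∨ (x = w ∧ -1 ≤ y ∧ y < h - 1 ∧ (x + y) % 2 = 1))) : lt (x, y) ∉ AU O :=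
  fun h' => H.2 ((mem_AU H.1).1 h')

lemma iBL (H : (-2 ≤ x ∧ x < w + 2 ∧ -2 ≤ y ∧ y ≤ h) ∧
    (((x = w ∨ x = -2 ∨ x = w + 1) ∧ -1 ≤ y ∧ y < h) ∨
      (0 ≤ x ∧ x < w ∧ y = -1 ∧ (x + y) % 2 = 1))) : lt (x, y) ∈ BL O := (mem_BL H.1).2 H.2

lemma nBL (H : (-2 ≤ x ∧ x < w + 2 ∧ -2 ≤ y ∧ y ≤ h) ∧
    ¬ (((x = w ∨ x = -2 ∨ x = w + 1) ∧ -1 ≤ y ∧ y < h) ∨
      (0 ≤ x ∧ x < w ∧ y = -1 ∧ (x + y) % 2 = 1))) : lt (x, y) ∉ BL O :=
  fun h' => H.2 ((mem_BL H.1).1 h')

lemma iBU (H : (-2 ≤ x ∧ x < w + 2 ∧ -2 ≤ y ∧ y ≤ h) ∧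
    (((x = -2 ∨ x = w + 1) ∧ -1 ≤ y ∧ y < h) ∨ (x = -1 ∧ -1 ≤ y ∧ y < h - 1) ∨
    (x = w ∧ y = h - 1) ∨ (0 ≤ x ∧ x < w ∧ y = h - 1 ∧ (x + y) % 2 = 1))) : lt (x, y) ∈ BU O :=
  (mem_BU H.1).2 H.2

lemma nBU (H : (-2 ≤ x ∧ x < w + 2 ∧ -2 ≤ y ∧ y ≤ h) ∧
    ¬ (((x = -2 ∨ x = w + 1) ∧ -1 ≤ y ∧ y < h) ∨ (x = -1 ∧ -1 ≤ y ∧ y < h - 1) ∨
    (x = w ∧ y = h - 1) ∨ (0 ≤ x ∧ x < w ∧ y = h - 1 ∧ (x + y) % 2 = 1))) : lt (x, y) ∉ BU O :=
  fun h' => H.2 ((mem_BU H.1).1 h')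

lemma nALE (H : ¬ (0 ≤ x ∧ x < w ∧ -1 ≤ y ∧ y < h)) : lt (x, y) ∉ RT 0 w (-1) h :=
  fun h' => H (lt_mem_RT.1 h')

lemma nAUE (H : ¬ (0 ≤ x ∧ x < w ∧ -1 ≤ y ∧ y < h)) : lt (x, y) ∉ RT 0 w (-1) h :=
  fun h' => H (lt_mem_RT.1 h')

lemma nBLE (H : ¬ (-1 ≤ x ∧ x < w ∧ 0 ≤ y ∧ y < h)) : lt (x, y) ∉ RT (-1) w 0 h :=
  fun h' => H (lt_mem_RT.1 h')

lemma nBUE (H : ¬ (0 ≤ x ∧ x < w + 1 ∧ -1 ≤ y ∧ y < h - 1)) :
    lt (x, y) ∉ RT 0 (w + 1) (-1) (h - 1) := fun h' => H (lt_mem_RT.1 h')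

end mem

/-! ### Wires -/

section wires

variable (O : Out w h)

/-! #### the wires of `AL` -/

lemma AL_left {m : ℤ} (a : 0 ≤ m) (b : 2 * m + 2 < h) :
    DW (AL O) (RT 0 w (-1) h) (ve (0, 2 * m)) (ve (0, 2 * m + 1)) (-2) := by
  have := O.hw
  have := O.w2
  have := O.hh
  have := O.h2
  exact (DW.WN (t := -1) (by omega) (nALE (by omega)) (iAL (by omega))
    (DW.NW (t := -2) (by omega) (nALE (by omega)) (nAL (by omega))
    (DW.WN (t := -1) (by omega) (nALE (by omega)) (iAL (by omega))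
    (DW.NE (t := 0) (by omega) (nALE (by omega)) (iAL (by omega))
    (DW.ES (t := 1) (by omega) (nALE (by omega)) (iAL (by omega))
    (DW.SE (t := 0) (by omega) (nALE (by omega)) (nAL (by omega))
    (DW.to (ve_eq (by omega) (by omega))) (by norm_num)) (by norm_num)) (by norm_num)) (by norm_num)) (by norm_num)) (by norm_num))

lemma AL_NW :
    DW (AL O) (RT 0 w (-1) h) (ve (0, h - 2)) (he (-2, h)) (-1) := by
  have := O.hw
  have := O.w2
  have := O.hh
  have := O.h2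
  exact (DW.WN (t := 0) (by omega) (nALE (by omega)) (iAL (by omega))
    (DW.NW (t := -1) (by omega) (nALE (by omega)) (nAL (by omega))
    (DW.WN (t := 0) (by omega) (nALE (by omega)) (iAL (by omega))
    (DW.to (he_eq (by omega) (by omega))) (by norm_num)) (by norm_num)) (by norm_num))

lemma AL_top {m : ℤ} (a : 1 ≤ m) (b : 2 * m < w) :
    DW (AL O) (RT 0 w (-1) h) (he (2 * m, h)) (he (2 * m - 1, h)) 2 := by
  have := O.hw
  have := O.w2
  have := O.hh
  have := O.h2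
  exact (DW.NW (t := 1) (by omega) (nALE (by omega)) (nAL (by omega))
    (DW.WS (t := 0) (by omega) (nALE (by omega)) (nAL (by omega))
    (DW.to (he_eq (by omega) (by omega))) (by norm_num)) (by norm_num))

lemma AL_top0 :
    DW (AL O) (RT 0 w (-1) h) (he (0, h)) (ve (0, h - 1)) 3 := by
  have := O.hw
  have := O.w2
  have := O.hh
  have := O.h2
  exact (DW.NW (t := 2) (by omega) (nALE (by omega)) (nAL (by omega))
    (DW.WS (t := 1) (by omega) (nALE (by omega)) (nAL (by omega))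
    (DW.SE (t := 0) (by omega) (nALE (by omega)) (nAL (by omega))
    (DW.to (ve_eq (by omega) (by omega))) (by norm_num)) (by norm_num)) (by norm_num))

lemma AL_right {m : ℤ} (a : 0 ≤ m) (b : 2 * m < h) :
    DW (AL O) (RT 0 w (-1) h) (ve (w, 2 * m + 1)) (ve (w, 2 * m)) (-2) := by
  have := O.hw
  have := O.w2
  have := O.hh
  have := O.h2
  exact (DW.ES (t := -1) (by omega) (nALE (by omega)) (iAL (by omega))
    (DW.SW (t := 0) (by omega) (nALE (by omega)) (iAL (by omega))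
    (DW.to (ve_eq (by omega) (by omega))) (by norm_num)) (by norm_num))

lemma AL_SE :
    DW (AL O) (RT 0 w (-1) h) (ve (w, -1)) (ve (w + 1, -2)) 0 := by
  have := O.hw
  have := O.w2
  have := O.hh
  have := O.h2
  exact (DW.ES (t := 1) (by omega) (nALE (by omega)) (iAL (by omega))
    (DW.SE (t := 0) (by omega) (nALE (by omega)) (nAL (by omega))
    (DW.to (ve_eq (by omega) (by omega))) (by norm_num)) (by norm_num))

lemma AL_bot {m : ℤ} (a : 0 ≤ m) (b : 2 * m < w) :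
    DW (AL O) (RT 0 w (-1) h) (he (2 * m, -1)) (he (2 * m + 1, -1)) 2 := by
  have := O.hw
  have := O.w2
  have := O.hh
  have := O.h2
  exact (DW.SE (t := 1) (by omega) (nALE (by omega)) (nAL (by omega))
    (DW.EN (t := 0) (by omega) (nALE (by omega)) (nAL (by omega))
    (DW.to (he_eq (by omega) (by omega))) (by norm_num)) (by norm_num))

lemma AL_SW :
    DW (AL O) (RT 0 w (-1) h) (ve (-1, -2)) (ve (0, -1)) 0 := by
  have := O.hw
  have := O.w2
  have := O.hh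
  have := O.h2
  exact (DW.EN (t := -1) (by omega) (nALE (by omega)) (nAL (by omega))
    (DW.NW (t := -2) (by omega) (nALE (by omega)) (nAL (by omega))
    (DW.WN (t := -1) (by omega) (nALE (by omega)) (iAL (by omega))
    (DW.NE (t := 0) (by omega) (nALE (by omega)) (iAL (by omega))
    (DW.ES (t := 1) (by omega) (nALE (by omega)) (iAL (by omega))
    (DW.SE (t := 0) (by omega) (nALE (by omega)) (nAL (by omega))
    (DW.to (ve_eq (by omega) (by omega))) (by norm_num)) (by norm_num)) (by norm_num)) (by norm_num)) (by norm_num)) (by norm_num))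

lemma AL_NE :
    DW (AL O) (RT 0 w (-1) h) (he (w + 1, h)) (he (w - 1, h)) 0 := by
  have := O.hw
  have := O.w2
  have := O.hh
  have := O.h2
  exact (DW.SW (t := 1) (by omega) (nALE (by omega)) (iAL (by omega))
    (DW.WN (t := 2) (by omega) (nALE (by omega)) (iAL (by omega))
    (DW.NW (t := 1) (by omega) (nALE (by omega)) (nAL (by omega))
    (DW.WS (t := 0) (by omega) (nALE (by omega)) (nAL (by omega))
    (DW.to (he_eq (by omega) (by omega))) (by norm_num)) (by norm_num)) (by norm_num)) (by norm_num))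

/-! #### the wires of `AU` -/

lemma AU_left {m : ℤ} (a : 0 ≤ m) (b : 2 * m + 2 < h) :
    DW (AU O) (RT 0 w (-1) h) (ve (0, 2 * m)) (ve (0, 2 * m + 1)) (-2) := by
  have := O.hw
  have := O.w2
  have := O.hh
  have := O.h2
  exact (DW.WN (t := -1) (by omega) (nAUE (by omega)) (iAU (by omega))
    (DW.NE (t := 0) (by omega) (nAUE (by omega)) (iAU (by omega))
    (DW.to (ve_eq (by omega) (by omega))) (by norm_num)) (by norm_num))

lemma AU_NW :
    DW (AU O) (RT 0 w (-1) h) (ve (0, h - 2)) (he (-2, h)) (-1) := by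
  have := O.hw
  have := O.w2
  have := O.hh
  have := O.h2
  exact (DW.WN (t := 0) (by omega) (nAUE (by omega)) (iAU (by omega))
    (DW.NW (t := -1) (by omega) (nAUE (by omega)) (nAU (by omega))
    (DW.WN (t := 0) (by omega) (nAUE (by omega)) (iAU (by omega))
    (DW.to (he_eq (by omega) (by omega))) (by norm_num)) (by norm_num)) (by norm_num))

lemma AU_top {m : ℤ} (a : 1 ≤ m) (b : 2 * m < w) :
    DW (AU O) (RT 0 w (-1) h) (he (2 * m, h)) (he (2 * m - 1, h)) 2 := by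
  have := O.hw
  have := O.w2
  have := O.hh
  have := O.h2
  exact (DW.NW (t := 1) (by omega) (nAUE (by omega)) (nAU (by omega))
    (DW.WS (t := 0) (by omega) (nAUE (by omega)) (nAU (by omega))
    (DW.to (he_eq (by omega) (by omega))) (by norm_num)) (by norm_num))

lemma AU_top0 :
    DW (AU O) (RT 0 w (-1) h) (he (0, h)) (ve (0, h - 1)) 3 := by
  have := O.hw
  have := O.w2
  have := O.hh
  have := O.h2
  exact (DW.NW (t := 2) (by omega) (nAUE (by omega)) (nAU (by omega))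
    (DW.WS (t := 1) (by omega) (nAUE (by omega)) (nAU (by omega))
    (DW.SE (t := 0) (by omega) (nAUE (by omega)) (nAU (by omega))
    (DW.to (ve_eq (by omega) (by omega))) (by norm_num)) (by norm_num)) (by norm_num))

lemma AU_right {m : ℤ} (a : 0 ≤ m) (b : 2 * m < h) :
    DW (AU O) (RT 0 w (-1) h) (ve (w, 2 * m + 1)) (ve (w, 2 * m)) (-2) := by
  have := O.hw
  have := O.w2
  have := O.hh
  have := O.h2
  exact (DW.ES (t := -1) (by omega) (nAUE (by omega)) (iAU (by omega))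
    (DW.SE (t := -2) (by omega) (nAUE (by omega)) (nAU (by omega))
    (DW.ES (t := -1) (by omega) (nAUE (by omega)) (iAU (by omega))
    (DW.SW (t := 0) (by omega) (nAUE (by omega)) (iAU (by omega))
    (DW.WN (t := 1) (by omega) (nAUE (by omega)) (iAU (by omega))
    (DW.NW (t := 0) (by omega) (nAUE (by omega)) (nAU (by omega))
    (DW.to (ve_eq (by omega) (by omega))) (by norm_num)) (by norm_num)) (by norm_num)) (by norm_num)) (by norm_num)) (by norm_num))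

lemma AU_SE :
    DW (AU O) (RT 0 w (-1) h) (ve (w, -1)) (ve (w + 1, -2)) 0 := by
  have := O.hw
  have := O.w2
  have := O.hh
  have := O.h2
  exact (DW.ES (t := 1) (by omega) (nAUE (by omega)) (iAU (by omega))
    (DW.SE (t := 0) (by omega) (nAUE (by omega)) (nAU (by omega))
    (DW.to (ve_eq (by omega) (by omega))) (by norm_num)) (by norm_num))

lemma AU_bot {m : ℤ} (a : 0 ≤ m) (b : 2 * m < w) :
    DW (AU O) (RT 0 w (-1) h) (he (2 * m, -1)) (he (2 * m + 1, -1)) 2 := by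
  have := O.hw
  have := O.w2
  have := O.hh
  have := O.h2
  exact (DW.SE (t := 1) (by omega) (nAUE (by omega)) (nAU (by omega))
    (DW.EN (t := 0) (by omega) (nAUE (by omega)) (nAU (by omega))
    (DW.to (he_eq (by omega) (by omega))) (by norm_num)) (by norm_num))

lemma AU_SW :
    DW (AU O) (RT 0 w (-1) h) (ve (-1, -2)) (ve (0, -1)) 0 := by
  have := O.hw
  have := O.w2
  have := O.hh
  have := O.h2
  exact (DW.EN (t := -1) (by omega) (nAUE (by omega)) (nAU (by omega))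
    (DW.NE (t := 0) (by omega) (nAUE (by omega)) (iAU (by omega))
    (DW.to (ve_eq (by omega) (by omega))) (by norm_num)) (by norm_num))

lemma AU_NE :
    DW (AU O) (RT 0 w (-1) h) (he (w + 1, h)) (he (w - 1, h)) 0 := by
  have := O.hw
  have := O.w2
  have := O.hh
  have := O.h2
  exact (DW.SW (t := 1) (by omega) (nAUE (by omega)) (iAU (by omega))
    (DW.WN (t := 2) (by omega) (nAUE (by omega)) (iAU (by omega))
    (DW.NW (t := 1) (by omega) (nAUE (by omega)) (nAU (by omega))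
    (DW.WS (t := 0) (by omega) (nAUE (by omega)) (nAU (by omega))
    (DW.to (he_eq (by omega) (by omega))) (by norm_num)) (by norm_num)) (by norm_num)) (by norm_num))

/-! #### the wires of `BL` -/

lemma BL_left {m : ℤ} (a : 0 < m) (b : 2 * m < h) :
    DW (BL O) (RT (-1) w 0 h) (ve (-1, 2 * m - 1)) (ve (-1, 2 * m)) (-2) := by
  have := O.hw
  have := O.w2
  have := O.hh
  have := O.h2
  exact (DW.WN (t := -1) (by omega) (nBLE (by omega)) (iBL (by omega))
    (DW.NE (t := 0) (by omega) (nBLE (by omega)) (iBL (by omega))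
    (DW.to (ve_eq (by omega) (by omega))) (by norm_num)) (by norm_num))

lemma BL_NW :
    DW (BL O) (RT (-1) w 0 h) (ve (-1, h - 1)) (he (-2, h)) (-1) := by
  have := O.hw
  have := O.w2
  have := O.hh
  have := O.h2
  exact (DW.WN (t := 0) (by omega) (nBLE (by omega)) (iBL (by omega))
    (DW.to (he_eq (by omega) (by omega))) (by norm_num))

lemma BL_top {m : ℤ} (a : 0 ≤ m) (b : 2 * m < w) :
    DW (BL O) (RT (-1) w 0 h) (he (2 * m, h)) (he (2 * m - 1, h)) 2 := by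
  have := O.hw
  have := O.w2
  have := O.hh
  have := O.h2
  exact (DW.NW (t := 1) (by omega) (nBLE (by omega)) (nBL (by omega))
    (DW.WS (t := 0) (by omega) (nBLE (by omega)) (nBL (by omega))
    (DW.to (he_eq (by omega) (by omega))) (by norm_num)) (by norm_num))

lemma BL_right {m : ℤ} (a : 0 ≤ m) (b : 2 * m < h) :
    DW (BL O) (RT (-1) w 0 h) (ve (w, 2 * m + 1)) (ve (w, 2 * m)) (-2) := by
  have := O.hw
  have := O.w2
  have := O.hh
  have := O.h2
  exact (DW.ES (t := -1) (by omega) (nBLE (by omega)) (iBL (by omega))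
    (DW.SW (t := 0) (by omega) (nBLE (by omega)) (iBL (by omega))
    (DW.to (ve_eq (by omega) (by omega))) (by norm_num)) (by norm_num))

lemma BL_bot {m : ℤ} (a : 0 ≤ m) (b : 2 * m < w) :
    DW (BL O) (RT (-1) w 0 h) (he (2 * m - 1, 0)) (he (2 * m, 0)) 2 := by
  have := O.hw
  have := O.w2
  have := O.hh
  have := O.h2
  exact (DW.SE (t := 1) (by omega) (nBLE (by omega)) (nBL (by omega))
    (DW.ES (t := 2) (by omega) (nBLE (by omega)) (iBL (by omega))
    (DW.SE (t := 1) (by omega) (nBLE (by omega)) (nBL (by omega))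
    (DW.EN (t := 0) (by omega) (nBLE (by omega)) (nBL (by omega))
    (DW.NW (t := -1) (by omega) (nBLE (by omega)) (nBL (by omega))
    (DW.WN (t := 0) (by omega) (nBLE (by omega)) (iBL (by omega))
    (DW.to (he_eq (by omega) (by omega))) (by norm_num)) (by norm_num)) (by norm_num)) (by norm_num)) (by norm_num)) (by norm_num))

lemma BL_SE :
    DW (BL O) (RT (-1) w 0 h) (he (w - 1, 0)) (ve (w + 1, -2)) 1 := by
  have := O.hw
  have := O.w2
  have := O.hh
  have := O.h2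
  exact (DW.SE (t := 0) (by omega) (nBLE (by omega)) (nBL (by omega))
    (DW.ES (t := 1) (by omega) (nBLE (by omega)) (iBL (by omega))
    (DW.SE (t := 0) (by omega) (nBLE (by omega)) (nBL (by omega))
    (DW.to (ve_eq (by omega) (by omega))) (by norm_num)) (by norm_num)) (by norm_num))

lemma BL_SW :
    DW (BL O) (RT (-1) w 0 h) (ve (-1, -2)) (ve (-1, 0)) 0 := by
  have := O.hw
  have := O.w2
  have := O.hh
  have := O.h2
  exact (DW.EN (t := -1) (by omega) (nBLE (by omega)) (nBL (by omega))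
    (DW.NW (t := -2) (by omega) (nBLE (by omega)) (nBL (by omega))
    (DW.WN (t := -1) (by omega) (nBLE (by omega)) (iBL (by omega))
    (DW.NE (t := 0) (by omega) (nBLE (by omega)) (iBL (by omega))
    (DW.to (ve_eq (by omega) (by omega))) (by norm_num)) (by norm_num)) (by norm_num)) (by norm_num))

lemma BL_NE :
    DW (BL O) (RT (-1) w 0 h) (he (w + 1, h)) (he (w - 1, h)) 0 := by
  have := O.hw
  have := O.w2
  have := O.hh
  have := O.h2
  exact (DW.SW (t := 1) (by omega) (nBLE (by omega)) (iBL (by omega))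
    (DW.WN (t := 2) (by omega) (nBLE (by omega)) (iBL (by omega))
    (DW.NW (t := 1) (by omega) (nBLE (by omega)) (nBL (by omega))
    (DW.WS (t := 0) (by omega) (nBLE (by omega)) (nBL (by omega))
    (DW.to (he_eq (by omega) (by omega))) (by norm_num)) (by norm_num)) (by norm_num)) (by norm_num))

/-! #### the wires of `BU` -/

lemma BU_left {m : ℤ} (a : 0 < m) (b : 2 * m < h) :
    DW (BU O) (RT 0 (w + 1) (-1) (h - 1)) (ve (0, 2 * m - 2)) (ve (0, 2 * m - 1)) (-2) := by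
  have := O.hw
  have := O.w2
  have := O.hh
  have := O.h2
  exact (DW.WN (t := -1) (by omega) (nBUE (by omega)) (iBU (by omega))
    (DW.NE (t := 0) (by omega) (nBUE (by omega)) (iBU (by omega))
    (DW.to (ve_eq (by omega) (by omega))) (by norm_num)) (by norm_num))

lemma BU_NW :
    DW (BU O) (RT 0 (w + 1) (-1) (h - 1)) (ve (0, h - 2)) (he (-2, h)) (-1) := by
  have := O.hw
  have := O.w2
  have := O.hh
  have := O.h2
  exact (DW.WN (t := 0) (by omega) (nBUE (by omega)) (iBU (by omega))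
    (DW.NW (t := -1) (by omega) (nBUE (by omega)) (nBU (by omega))
    (DW.WN (t := 0) (by omega) (nBUE (by omega)) (iBU (by omega))
    (DW.to (he_eq (by omega) (by omega))) (by norm_num)) (by norm_num)) (by norm_num))

lemma BU_top {m : ℤ} (a : 0 ≤ m) (b : 2 * m < w) :
    DW (BU O) (RT 0 (w + 1) (-1) (h - 1)) (he (2 * m + 1, h - 1)) (he (2 * m, h - 1)) 2 := by
  have := O.hw
  have := O.w2
  have := O.hh
  have := O.h2
  exact (DW.NW (t := 1) (by omega) (nBUE (by omega)) (nBU (by omega))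
    (DW.WN (t := 2) (by omega) (nBUE (by omega)) (iBU (by omega))
    (DW.NW (t := 1) (by omega) (nBUE (by omega)) (nBU (by omega))
    (DW.WS (t := 0) (by omega) (nBUE (by omega)) (nBU (by omega))
    (DW.SE (t := -1) (by omega) (nBUE (by omega)) (nBU (by omega))
    (DW.ES (t := 0) (by omega) (nBUE (by omega)) (iBU (by omega))
    (DW.to (he_eq (by omega) (by omega))) (by norm_num)) (by norm_num)) (by norm_num)) (by norm_num)) (by norm_num)) (by norm_num))

lemma BU_right {m : ℤ} (a : 0 ≤ m) (b : 2 * m < h) :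
    DW (BU O) (RT 0 (w + 1) (-1) (h - 1)) (ve (w + 1, 2 * m)) (ve (w + 1, 2 * m - 1)) (-2) := by
  have := O.hw
  have := O.w2
  have := O.hh
  have := O.h2
  exact (DW.ES (t := -1) (by omega) (nBUE (by omega)) (iBU (by omega))
    (DW.SW (t := 0) (by omega) (nBUE (by omega)) (iBU (by omega))
    (DW.to (ve_eq (by omega) (by omega))) (by norm_num)) (by norm_num))

lemma BU_bot {m : ℤ} (a : 0 ≤ m) (b : 2 * m < w) :
    DW (BU O) (RT 0 (w + 1) (-1) (h - 1)) (he (2 * m, -1)) (he (2 * m + 1, -1)) 2 := by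
  have := O.hw
  have := O.w2
  have := O.hh
  have := O.h2
  exact (DW.SE (t := 1) (by omega) (nBUE (by omega)) (nBU (by omega))
    (DW.EN (t := 0) (by omega) (nBUE (by omega)) (nBU (by omega))
    (DW.to (he_eq (by omega) (by omega))) (by norm_num)) (by norm_num))

lemma BU_SE :
    DW (BU O) (RT 0 (w + 1) (-1) (h - 1)) (he (w, -1)) (ve (w + 1, -2)) 1 := by
  have := O.hw
  have := O.w2
  have := O.hh
  have := O.h2
  exact (DW.SE (t := 0) (by omega) (nBUE (by omega)) (nBU (by omega))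
    (DW.to (ve_eq (by omega) (by omega))) (by norm_num))

lemma BU_SW :
    DW (BU O) (RT 0 (w + 1) (-1) (h - 1)) (ve (-1, -2)) (ve (0, -1)) 0 := by
  have := O.hw
  have := O.w2
  have := O.hh
  have := O.h2
  exact (DW.EN (t := -1) (by omega) (nBUE (by omega)) (nBU (by omega))
    (DW.NE (t := 0) (by omega) (nBUE (by omega)) (iBU (by omega))
    (DW.to (ve_eq (by omega) (by omega))) (by norm_num)) (by norm_num))

lemma BU_NE :
    DW (BU O) (RT 0 (w + 1) (-1) (h - 1)) (he (w + 1, h)) (he (w, h - 1)) 0 := by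
  have := O.hw
  have := O.w2
  have := O.hh
  have := O.h2
  exact (DW.SW (t := 1) (by omega) (nBUE (by omega)) (iBU (by omega))
    (DW.WN (t := 2) (by omega) (nBUE (by omega)) (iBU (by omega))
    (DW.NW (t := 1) (by omega) (nBUE (by omega)) (nBU (by omega))
    (DW.WS (t := 0) (by omega) (nBUE (by omega)) (nBU (by omega))
    (DW.SE (t := -1) (by omega) (nBUE (by omega)) (nBU (by omega))
    (DW.ES (t := 0) (by omega) (nBUE (by omega)) (iBU (by omega))
    (DW.to (he_eq (by omega) (by omega))) (by norm_num)) (by norm_num)) (by norm_num)) (by norm_num)) (by norm_num)) (by norm_num))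


end wires

end Pool.Agent.H74.R45
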