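import Mathlib
import Pool.Agent.H74.R45.WAB

set_option autoImplicit false
open Finset

/-! # Exact translations (S1), (S2)

`S1` : with the weights `[1/2, 1]` (natural row, deterministic column) the environments `0` and `h` have
the same increments. `S2` : with the weights `[0, 1/2]` (deterministic row, natural column) the
increments of the environment `h` are those of the environment `0` translated by `(1,-1)`. -/

namespace Pool.Agent.H74.R45

open Pool.Agent.H75.Perc hiding ph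
open Pool.Agent.H75.TwoArm Pool.Agent.Q1 Pool.Agent.H33.Q1
open Pool.Agent.H75.Four Pool.Agent.H69.Q1

variable {w h : ℤ}

/-! ### Exits of a rectangle -/

lemma rect_exit {x0 x1 y0 y1 : ℤ} {c : ℤ × ℤ} (hp : plab c ∈ RT x0 x1 y0 y1)
    (hl : lab c ∉ RT x0 x1 y0 y1) :
    (∃ y, c = ve (x0, y) ∧ (x0 + y) % 2 = 0 ∧ y0 ≤ y ∧ y < y1 ∧ x0 < x1) ∨
    (∃ y, c = ve (x1, y) ∧ (x1 + y) % 2 = 1 ∧ y0 ≤ y ∧ y < y1 ∧ x0 < x1) ∨
    (∃ x, c = he (x, y1) ∧ (x + y1) % 2 = 0 ∧ x0 ≤ x ∧ x < x1 ∧ y0 < y1) ∨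
    (∃ x, c = he (x, y0) ∧ (x + y0) % 2 = 1 ∧ x0 ≤ x ∧ x < x1 ∧ y0 < y1) := by
  rcases exists_edge c with ⟨x, y, rfl⟩ | ⟨x, y, rfl⟩
  · rcases Int.emod_two_eq_zero_or_one (x + y) with h | h
    · rw [plab_ve_W h, lt_mem_RT] at hp
      rw [lab_ve_W h, lt_mem_RT] at hl
      left
      have : x = x0 := by omega
      subst this
      exact ⟨y, rfl, h, by omega, by omega, by omega⟩
    · rw [plab_ve_E h, lt_mem_RT] at hp
      rw [lab_ve_E h, lt_mem_RT] at hl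
      right; left
      have : x = x1 := by omega
      subst this
      exact ⟨y, rfl, h, by omega, by omega, by omega⟩
  · rcases Int.emod_two_eq_zero_or_one (x + y) with h | h
    · rw [plab_he_N h, lt_mem_RT] at hp
      rw [lab_he_N h, lt_mem_RT] at hl
      right; right; left
      have : y = y1 := by omega
      subst this
      exact ⟨x, rfl, h, by omega, by omega, by omega⟩
    · rw [plab_he_S h, lt_mem_RT] at hp
      rw [lab_he_S h, lt_mem_RT] at hl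
      right; right; right
      have : y = y0 := by omega
      subst this
      exact ⟨x, rfl, h, by omega, by omega, by omega⟩

/-! ### The paths outside -/

/-- the path outside with deterministic random labels -/
lemma DW.frz {j : ℤ} {O : Out w h} {h0 : 0 ≤ j} {h1 : j ≤ h} {D : Finset (ℤ × ℤ)}
    {p : ℤ × ℤ → Prop} [DecidablePred p] (hD : D ⊆ EJ w h j) {c c' : ℤ × ℤ} {t : ℤ}
    (H : Wire (XJ O j h0 h1) c c' t) {E' : Finset (ℤ × ℤ)} (hE : E' ⊆ EJ w h j) :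
    DW (WJ w h j O.Wo ∪ D.filter p) E' c c' t := by
  have H' : DW (WJ w h j O.Wo) (EJ w h j) c c' t := H
  refine H'.conv hE fun x hx => ?_
  rw [mem_union]
  exact ⟨Or.inl, fun h => h.resolve_right fun h' => hx (hD (mem_filter.1 h').1)⟩

/-- the hypotheses on the root: the root corner is outside and its path meets the box -/
structure RootOut (O : Out w h) : Prop where
  far : plab O.c0 ∉ RT (-2) (w + 2) (-2) (h + 1)
  meets : ∃ i, lab ((nx (OW O))^[i] O.c0) ∈ IB w h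

/-- the path of the root up to the entry, in two environments -/
lemma root_two {O : Out w h} (R : RootOut O) : ∃ b t, IsEnt w h b ∧
    ∀ j (h0 : 0 ≤ j) (h1 : j ≤ h), Wire (XJ O j h0 h1) O.c0 b t := by
  obtain ⟨n, b, hb, hn, hav⟩ := outer_path O (Or.inr R.far) R.meets
  refine ⟨b, ∑ i ∈ range n, del (OW O) ((nx (OW O))^[i] O.c0), hb, fun j h0 h1 => ?_⟩
  have e := (wire_outer (O := O) h0 h1 (a := O.c0) (n := n) fun i hi => hav i (by omega)).2
  rw [hn] at e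
  exact e

lemma plab_c0 {O : Out w h} {x0 x1 y0 y1 : ℤ} (hx : -2 ≤ x0) (hx' : x1 ≤ w + 2) (hy : -1 ≤ y0)
    (hy' : y1 ≤ h) : plab O.c0 ∉ RT x0 x1 y0 y1 := by
  intro h'
  apply O.hroot
  obtain ⟨x, y, he, h2⟩ := mem_RT.1 h'
  rw [he]
  unfold GA
  rw [lt_mem_RT]
  omega

/-! ### (S1) -/

section S1

variable (O : Out w h)

lemma sub_AL (_ : Out w h) : RT 0 w (-1) h ⊆ EJ w h 0 ∧ RT 0 w (-1) h ⊆ EJ w h h ∧
    RT (-1) 0 0 h ⊆ EJ w h 0 ∧ RT w (w + 1) (-1) (h - 1) ⊆ EJ w h h := by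
  refine ⟨?_, ?_, ?_, ?_⟩ <;> intro e he <;> obtain ⟨x, y, rfl⟩ := exists_lt (odd_RT he) <;>
    rw [lt_mem_RT] at he <;> rw [mem_EJ] <;> omega

lemma A_in {b : ℤ × ℤ} (hb : IsEnt w h b) : ∃ c' s, lab c' ∈ RT 0 w (-1) h ∧
    DW (AL O) (RT 0 w (-1) h) b c' s ∧ DW (AU O) (RT 0 w (-1) h) b c' s := by
  have := O.hw
  have := O.w2
  have := O.hh
  have := O.h2
  rcases hb with rfl | rfl
  · refine ⟨_, _, ?_, AL_SW O, AU_SW O⟩
    rw [lab_ve_E (by omega), lt_mem_RT]; omega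
  · refine ⟨_, _, ?_, AL_NE O, AU_NE O⟩
    rw [lab_he_S (by omega), lt_mem_RT]; omega

lemma A_wires {c : ℤ × ℤ} (hp : plab c ∈ RT 0 w (-1) h) (hl : lab c ∉ RT 0 w (-1) h) :
    ∃ c' s, lab c' ∈ RT 0 w (-1) h ∧ DW (AL O) (RT 0 w (-1) h) c c' s ∧
      DW (AU O) (RT 0 w (-1) h) c c' s := by
  have hw := O.hw
  have w2 := O.w2
  have hh := O.hh
  have h2 := O.h2
  obtain ⟨s1, s2, s3, s4⟩ := sub_AL O
  obtain ⟨σ, τ, H⟩ := wires_outer O
  have thru : ∀ {a : ℤ × ℤ} {t : ℤ}, IsExt w h a → DW (AL O) (RT 0 w (-1) h) c a t →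
      DW (AU O) (RT 0 w (-1) h) c a t → ∃ c' s, lab c' ∈ RT 0 w (-1) h ∧
      DW (AL O) (RT 0 w (-1) h) c c' s ∧ DW (AU O) (RT 0 w (-1) h) c c' s := by
    intro a t ha d1 d2
    obtain ⟨hb, hw'⟩ := H a ha
    obtain ⟨c', s, g1, g2, g3⟩ := A_in O hb
    exact ⟨c', _, g1, (d1.trans (DW.frz s3 (hw' 0 le_rfl (by omega)) s1)).trans g2,
      (d2.trans (DW.frz s4 (hw' h (by omega) le_rfl) s2)).trans g3⟩
  rcases rect_exit hp hl with ⟨y, rfl, k1, k2, k3, -⟩ | ⟨y, rfl, k1, k2, k3, -⟩ |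
    ⟨x, rfl, k1, k2, k3, -⟩ | ⟨x, rfl, k1, k2, k3, -⟩
  · obtain ⟨m, rfl⟩ : ∃ m, y = 2 * m := ⟨y / 2, by omega⟩
    by_cases hy : 2 * m + 2 < h
    · refine ⟨_, _, ?_, AL_left O (by omega) hy, AU_left O (by omega) hy⟩
      rw [lab_ve_E (by omega), lt_mem_RT]; omega
    · have e : ve ((0 : ℤ), 2 * m) = ve (0, h - 2) := ve_eq rfl (by omega)
      refine thru (Or.inl rfl) (t := -1) ?_ ?_
      · rw [e]; exact AL_NW O
      · rw [e]; exact AU_NW O
  · by_cases hy : y = -1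
    · subst hy
      exact thru (Or.inr rfl) (AL_SE O) (AU_SE O)
    · obtain ⟨m, rfl⟩ : ∃ m, y = 2 * m + 1 := ⟨y / 2, by omega⟩
      refine ⟨_, _, ?_, AL_right O (by omega) (by omega), AU_right O (by omega) (by omega)⟩
      rw [lab_ve_W (by omega), lt_mem_RT]; omega
  · obtain ⟨m, rfl⟩ : ∃ m, x = 2 * m := ⟨x / 2, by omega⟩
    by_cases hm : m = 0
    · subst hm
      refine ⟨_, _, ?_, AL_top0 O, AU_top0 O⟩
      rw [lab_ve_E (by omega), lt_mem_RT]; omega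
    · refine ⟨_, _, ?_, AL_top O (by omega) k3, AU_top O (by omega) k3⟩
      rw [lab_he_S (by omega), lt_mem_RT]; omega
  · obtain ⟨m, rfl⟩ : ∃ m, x = 2 * m := ⟨x / 2, by omega⟩
    refine ⟨_, _, ?_, AL_bot O (by omega) k3, AU_bot O (by omega) k3⟩
    rw [lab_he_N (by omega), lt_mem_RT]; omega

lemma qJ_col {j x y : ℤ} {α : ℂ} (hx : x = -1 ∨ x = w) : qJ w h j α 1 (lt (x, y)) =
    if pO (lt (x, y)) then 1 else 0 := by
  unfold qJ
  simp only [tt_lt]
  rw [if_pos hx]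
  by_cases hp : pO (lt (x, y))
  · rw [if_pos hp, if_pos (pO_lt.1 hp)]
  · rw [if_neg hp, if_neg (fun h' => hp (pO_lt.2 h')), sub_self]

/-- environment `0`, natural row, deterministic column -/
lemma FJ_AL (c : ℤ × ℤ) : FJ O (1 / 2) 1 0 c =
    Pool.Agent.H13.Q1.iW (RT 0 w (-1) h) (AL O) (fun _ => 1 / 2) O.c0 O.k0 c := by
  have hw := O.hw
  have hh := O.hh
  have hD : RT (-1) 0 0 h ⊆ EJ w h 0 := (sub_AL O).2.2.1
  have hE : EJ w h 0 \ RT (-1) 0 0 h = RT 0 w (-1) h := by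
    refine ext_lt (fun e he => odd_EJ (mem_sdiff.1 he).1) (fun e he => odd_RT he) fun x y => ?_
    rw [mem_sdiff, mem_EJ, lt_mem_RT, lt_mem_RT]; omega
  rw [FJ_eq le_rfl (by omega)]
  unfold XJ
  rw [Pool.Agent.H13.Q1.plane_incW, iW_det hD (p := pO) (fun e he => ?_), hE]
  · unfold Pool.Agent.H13.Q1.iW AL
    refine Ec_congr_q (fun e he => ?_) _
    obtain ⟨x, y, rfl⟩ := exists_lt (odd_RT he)
    rw [lt_mem_RT] at he
    unfold qJ
    simp only [tt_lt]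
    rw [if_neg (by omega)]
    split_ifs <;> norm_num
  · obtain ⟨x, y, rfl⟩ := exists_lt (odd_RT he)
    rw [lt_mem_RT] at he
    exact qJ_col (Or.inl (by omega))

/-- environment `h`, natural row, deterministic column -/
lemma FJ_AU (c : ℤ × ℤ) : FJ O (1 / 2) 1 h c =
    Pool.Agent.H13.Q1.iW (RT 0 w (-1) h) (AU O) (fun _ => 1 / 2) O.c0 O.k0 c := by
  have hw := O.hw
  have hh := O.hh
  have hD : RT w (w + 1) (-1) (h - 1) ⊆ EJ w h h := (sub_AL O).2.2.2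
  have hE : EJ w h h \ RT w (w + 1) (-1) (h - 1) = RT 0 w (-1) h := by
    refine ext_lt (fun e he => odd_EJ (mem_sdiff.1 he).1) (fun e he => odd_RT he) fun x y => ?_
    rw [mem_sdiff, mem_EJ, lt_mem_RT, lt_mem_RT]; omega
  rw [FJ_eq (by omega) le_rfl]
  unfold XJ
  rw [Pool.Agent.H13.Q1.plane_incW, iW_det hD (p := pO) (fun e he => ?_), hE]
  · unfold Pool.Agent.H13.Q1.iW AU
    refine Ec_congr_q (fun e he => ?_) _
    obtain ⟨x, y, rfl⟩ := exists_lt (odd_RT he)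
    rw [lt_mem_RT] at he
    unfold qJ
    simp only [tt_lt]
    rw [if_neg (by omega)]
    split_ifs <;> norm_num
  · obtain ⟨x, y, rfl⟩ := exists_lt (odd_RT he)
    rw [lt_mem_RT] at he
    exact qJ_col (Or.inr (by omega))

lemma disj_AL : Disjoint (RT 0 w (-1) h) (AL O) ∧ Disjoint (RT 0 w (-1) h) (AU O) := by
  have hw := O.hw
  constructor <;> rw [disjoint_left] <;> intro e he <;>
    obtain ⟨x, y, rfl⟩ := exists_lt (odd_RT he) <;> rw [lt_mem_RT] at he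
  · exact nAL (by omega)
  · exact nAU (by omega)

/-- **(S1)** -/
theorem S1 (R : RootOut O) {c : ℤ × ℤ} (hc : RC (RT 0 w (-1) h) c) :
    FJ O (1 / 2) 1 0 c = FJ O (1 / 2) 1 h c := by
  have hw := O.hw
  have hh := O.hh
  obtain ⟨s1, s2, s3, s4⟩ := sub_AL O
  obtain ⟨b, t, hb, H⟩ := root_two R
  obtain ⟨e, s, g1, g2, g3⟩ := A_in O hb
  rw [FJ_AL, FJ_AU, iW_comp (disj_AL O).1 (disj_AL O).2 (fun c h1 h2 => A_wires O h1 h2) g1
    ((DW.frz s3 (H 0 le_rfl (by omega)) s1).trans g2)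
    ((DW.frz s4 (H h (by omega) le_rfl) s2).trans g3)
    (plab_c0 (by omega) (by omega) (by omega) (by omega))
    (plab_c0 (by omega) (by omega) (by omega) (by omega)) hc (k0' := O.k0), sub_self, ph_zero,
    one_mul]

end S1

/-! ### (S2) -/

section S2

variable (O : Out w h)

include O in
lemma sub_BL : RT (-1) w 0 h ⊆ EJ w h 0 ∧ RT 0 (w + 1) (-1) (h - 1) ⊆ EJ w h h ∧
    RT 0 w (-1) 0 ⊆ EJ w h 0 ∧ RT 0 w (h - 1) h ⊆ EJ w h h := by
  have := O.hw
  have := O.hh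
  refine ⟨?_, ?_, ?_, ?_⟩ <;> intro e he <;> obtain ⟨x, y, rfl⟩ := exists_lt (odd_RT he) <;>
    rw [lt_mem_RT] at he <;> rw [mem_EJ] <;> omega

lemma sv_lt (x y : ℤ) : sv 1 (lt (x, y)) = lt (x + 1, y - 1) := by
  unfold sv lt
  refine Prod.ext ?_ ?_ <;> dsimp only <;> ring

lemma sv_ve (x y : ℤ) : sv 1 (ve (x, y)) = ve (x + 1, y - 1) := by
  unfold sv ve
  refine Prod.ext ?_ ?_ <;> dsimp only <;> ring

lemma sv_he (x y : ℤ) : sv 1 (he (x, y)) = he (x + 1, y - 1) := by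
  unfold sv he
  refine Prod.ext ?_ ?_ <;> dsimp only <;> ring

lemma sv_odd {e : ℤ × ℤ} (m : ℤ) : ((sv m e).1 + (sv m e).2) % 2 = (e.1 + e.2) % 2 := by
  unfold sv
  dsimp only
  omega

lemma image_RT {x0 x1 y0 y1 : ℤ} :
    (RT x0 x1 y0 y1).image (sv 1) = RT (x0 + 1) (x1 + 1) (y0 - 1) (y1 - 1) := by
  refine ext_lt (fun e he => ?_) (fun e he => odd_RT he) fun x y => ?_
  · obtain ⟨f, hf, rfl⟩ := mem_image.1 he
    rw [sv_odd]; exact odd_RT hf
  · rw [lt_mem_RT, mem_image]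
    constructor
    · rintro ⟨f, hf, h'⟩
      obtain ⟨x', y', rfl⟩ := exists_lt (odd_RT hf)
      rw [sv_lt] at h'
      have := lt_inj h'
      simp only [Prod.mk.injEq] at this
      rw [lt_mem_RT] at hf
      omega
    · intro h'
      refine ⟨lt (x - 1, y + 1), ?_, ?_⟩
      · rw [lt_mem_RT]; omega
      · rw [sv_lt]; congr 2 <;> ring

/-- the random labels of the environment `h` -/
lemma image_E : (RT (-1) w 0 h).image (sv 1) = RT 0 (w + 1) (-1) (h - 1) := by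
  rw [image_RT]
  congr 1

/-- translated path -/
lemma tB {c c' d d' : ℤ × ℤ} {t : ℤ} (H : DW (BL O) (RT (-1) w 0 h) c c' t) (e : sv 1 c = d)
    (e' : sv 1 c' = d') : DW ((BL O).image (sv 1)) (RT 0 (w + 1) (-1) (h - 1)) d d' t := by
  have := H.sv 1
  rw [image_E, e, e'] at this
  exact this

lemma B_in {b : ℤ × ℤ} (hb : IsEnt w h b) : ∃ c' s, lab c' ∈ RT 0 (w + 1) (-1) (h - 1) ∧
    DW ((BL O).image (sv 1)) (RT 0 (w + 1) (-1) (h - 1)) (sv 1 b) c' s ∧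
    DW (BU O) (RT 0 (w + 1) (-1) (h - 1)) b c' s := by
  have := O.hw
  have := O.w2
  have := O.hh
  have := O.h2
  rcases hb with rfl | rfl
  · refine ⟨ve (0, -1), 0, ?_, tB O (BL_SW O) rfl ?_, BU_SW O⟩
    · rw [lab_ve_E (by omega), lt_mem_RT]; omega
    · rw [sv_ve]; exact ve_eq (by ring) (by ring)
  · refine ⟨he (w, h - 1), 0, ?_, tB O (BL_NE O) rfl ?_, BU_NE O⟩
    · rw [lab_he_S (by omega), lt_mem_RT]; omega
    · rw [sv_he]; exact he_eq (by ring) (by ring)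

lemma B_wires {c : ℤ × ℤ} (hp : plab c ∈ RT 0 (w + 1) (-1) (h - 1))
    (hl : lab c ∉ RT 0 (w + 1) (-1) (h - 1)) :
    ∃ c' s, lab c' ∈ RT 0 (w + 1) (-1) (h - 1) ∧
      DW ((BL O).image (sv 1)) (RT 0 (w + 1) (-1) (h - 1)) c c' s ∧
      DW (BU O) (RT 0 (w + 1) (-1) (h - 1)) c c' s := by
  have hw := O.hw
  have w2 := O.w2
  have hh := O.hh
  have h2 := O.h2
  obtain ⟨s1, s2, s3, s4⟩ := sub_BL O
  obtain ⟨σ, τ, H⟩ := wires_outer O
  have thru : ∀ {a : ℤ × ℤ} {t : ℤ}, IsExt w h a →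
      DW ((BL O).image (sv 1)) (RT 0 (w + 1) (-1) (h - 1)) c (sv 1 a) t →
      DW (BU O) (RT 0 (w + 1) (-1) (h - 1)) c a t →
      ∃ c' s, lab c' ∈ RT 0 (w + 1) (-1) (h - 1) ∧
      DW ((BL O).image (sv 1)) (RT 0 (w + 1) (-1) (h - 1)) c c' s ∧
      DW (BU O) (RT 0 (w + 1) (-1) (h - 1)) c c' s := by
    intro a t ha d1 d2
    obtain ⟨hb, hw'⟩ := H a ha
    obtain ⟨c', s, g1, g2, g3⟩ := B_in O hb
    exact ⟨c', _, g1, (d1.trans (tB O (DW.frz s3 (hw' 0 le_rfl (by omega)) s1) rfl rfl)).trans g2,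
      (d2.trans (DW.frz s4 (hw' h (by omega) le_rfl) s2)).trans g3⟩
  rcases rect_exit hp hl with ⟨y, rfl, k1, k2, k3, -⟩ | ⟨y, rfl, k1, k2, k3, -⟩ |
    ⟨x, rfl, k1, k2, k3, -⟩ | ⟨x, rfl, k1, k2, k3, -⟩
  · obtain ⟨m, rfl⟩ : ∃ m, y = 2 * m - 2 := ⟨y / 2 + 1, by omega⟩
    by_cases hy : 2 * m < h
    · refine ⟨ve (0, 2 * m - 1), -2, ?_, tB O (BL_left O (m := m) (by omega) hy) ?_ ?_,
        BU_left O (by omega) hy⟩
      · rw [lab_ve_E (by omega), lt_mem_RT]; omega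
      · rw [sv_ve]; exact ve_eq (by ring) (by ring)
      · rw [sv_ve]; exact ve_eq (by ring) (by ring)
    · have e : ve ((0 : ℤ), 2 * m - 2) = ve (0, h - 2) := ve_eq rfl (by omega)
      refine thru (Or.inl rfl) (t := -1) ?_ ?_
      · rw [e]
        refine tB O (BL_NW O) ?_ rfl
        rw [sv_ve]; exact ve_eq (by ring) (by ring)
      · rw [e]; exact BU_NW O
  · obtain ⟨m, rfl⟩ : ∃ m, y = 2 * m := ⟨y / 2, by omega⟩
    refine ⟨ve (w + 1, 2 * m - 1), -2, ?_, tB O (BL_right O (m := m) (by omega) (by omega)) ?_ ?_,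
      BU_right O (by omega) (by omega)⟩
    · rw [lab_ve_W (by omega), lt_mem_RT]; omega
    · rw [sv_ve]; exact ve_eq (by ring) (by ring)
    · rw [sv_ve, show (2 * m - 1 : ℤ) = 2 * m - 1 from rfl]
  · obtain ⟨m, rfl⟩ : ∃ m, x = 2 * m + 1 := ⟨x / 2, by omega⟩
    refine ⟨he (2 * m, h - 1), 2, ?_, tB O (BL_top O (m := m) (by omega) (by omega)) ?_ ?_,
      BU_top O (by omega) (by omega)⟩
    · rw [lab_he_S (by omega), lt_mem_RT]; omega
    · rw [sv_he]
    · rw [sv_he]; exact he_eq (by ring) (by ring)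
  · by_cases hx : x = w
    · subst hx
      refine thru (Or.inr rfl) (t := 1) ?_ (BU_SE O)
      refine tB O (BL_SE O) ?_ rfl
      rw [sv_he]; exact he_eq (by ring) (by ring)
    · obtain ⟨m, rfl⟩ : ∃ m, x = 2 * m := ⟨x / 2, by omega⟩
      refine ⟨he (2 * m + 1, -1), 2, ?_, tB O (BL_bot O (m := m) (by omega) (by omega)) ?_ ?_,
        BU_bot O (by omega) (by omega)⟩
      · rw [lab_he_N (by omega), lt_mem_RT]; omega
      · rw [sv_he]; exact he_eq (by ring) (by ring)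
      · rw [sv_he]; exact he_eq (by ring) (by ring)

lemma qJ_row0 {j x y : ℤ} {β : ℂ} (hx : ¬ (x = -1 ∨ x = w)) (hy : y = j - 1) :
    qJ w h j 0 β (lt (x, y)) = if pO (lt (x, y)) then 1 else 0 := by
  unfold qJ
  simp only [tt_lt]
  rw [if_neg hx, if_pos hy]
  by_cases hp : pO (lt (x, y))
  · have := pO_lt.1 hp
    rw [if_pos hp, if_neg (by omega), sub_zero]
  · have : (x + y) % 2 = 0 := by
      rcases Int.emod_two_eq_zero_or_one (x + y) with h | h
      · exact h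
      · exact absurd (pO_lt.2 h) hp
    rw [if_neg hp, if_pos this]

/-- environment `0`, deterministic row, natural column -/
lemma FJ_BL (c : ℤ × ℤ) : FJ O 0 (1 / 2) 0 c =
    Pool.Agent.H13.Q1.iW (RT (-1) w 0 h) (BL O) (fun _ => 1 / 2) O.c0 O.k0 c := by
  have hw := O.hw
  have hh := O.hh
  have hD : RT 0 w (-1) 0 ⊆ EJ w h 0 := (sub_BL O).2.2.1
  have hE : EJ w h 0 \ RT 0 w (-1) 0 = RT (-1) w 0 h := by
    refine ext_lt (fun e he => odd_EJ (mem_sdiff.1 he).1) (fun e he => odd_RT he) fun x y => ?_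
    rw [mem_sdiff, mem_EJ, lt_mem_RT, lt_mem_RT]; omega
  rw [FJ_eq le_rfl (by omega)]
  unfold XJ
  rw [Pool.Agent.H13.Q1.plane_incW, iW_det hD (p := pO) (fun e he => ?_), hE]
  · unfold Pool.Agent.H13.Q1.iW BL
    refine Ec_congr_q (fun e he => ?_) _
    obtain ⟨x, y, rfl⟩ := exists_lt (odd_RT he)
    rw [lt_mem_RT] at he
    unfold qJ
    simp only [tt_lt]
    split_ifs <;> first | omega | norm_num
  · obtain ⟨x, y, rfl⟩ := exists_lt (odd_RT he)
    rw [lt_mem_RT] at he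
    exact qJ_row0 (by omega) (by omega)

/-- environment `h`, deterministic row, natural column -/
lemma FJ_BU (c : ℤ × ℤ) : FJ O 0 (1 / 2) h c =
    Pool.Agent.H13.Q1.iW (RT 0 (w + 1) (-1) (h - 1)) (BU O) (fun _ => 1 / 2) O.c0 O.k0 c := by
  have hw := O.hw
  have hh := O.hh
  have hD : RT 0 w (h - 1) h ⊆ EJ w h h := (sub_BL O).2.2.2
  have hE : EJ w h h \ RT 0 w (h - 1) h = RT 0 (w + 1) (-1) (h - 1) := by
    refine ext_lt (fun e he => odd_EJ (mem_sdiff.1 he).1) (fun e he => odd_RT he) fun x y => ?_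
    rw [mem_sdiff, mem_EJ, lt_mem_RT, lt_mem_RT]; omega
  rw [FJ_eq (by omega) le_rfl]
  unfold XJ
  rw [Pool.Agent.H13.Q1.plane_incW, iW_det hD (p := pO) (fun e he => ?_), hE]
  · unfold Pool.Agent.H13.Q1.iW BU
    refine Ec_congr_q (fun e he => ?_) _
    obtain ⟨x, y, rfl⟩ := exists_lt (odd_RT he)
    rw [lt_mem_RT] at he
    unfold qJ
    simp only [tt_lt]
    split_ifs <;> first | omega | norm_num
  · obtain ⟨x, y, rfl⟩ := exists_lt (odd_RT he)
    rw [lt_mem_RT] at he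
    exact qJ_row0 (by omega) (by omega)

lemma disj_B : Disjoint (RT 0 (w + 1) (-1) (h - 1)) ((BL O).image (sv 1)) ∧
    Disjoint (RT 0 (w + 1) (-1) (h - 1)) (BU O) := by
  have hw := O.hw
  constructor
  · rw [← image_E, disjoint_image (sv_inj 1), disjoint_left]
    intro e he
    obtain ⟨x, y, rfl⟩ := exists_lt (odd_RT he)
    rw [lt_mem_RT] at he
    exact nBL (by omega)
  · rw [disjoint_left]
    intro e he
    obtain ⟨x, y, rfl⟩ := exists_lt (odd_RT he)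
    rw [lt_mem_RT] at he
    exact nBU (by omega)

lemma RC_sv {E : Finset (ℤ × ℤ)} {m : ℤ} {c : ℤ × ℤ} (h : RC E c) :
    RC (E.image (sv m)) (sv m c) := by
  rcases h with h | h
  · left; rw [lab_sv]; exact mem_image_of_mem _ h
  · right; rw [plab_sv]; exact mem_image_of_mem _ h

/-- **(S2)** -/
theorem S2 (R : RootOut O) {c : ℤ × ℤ} (hc : RC (RT (-1) w 0 h) c) :
    FJ O 0 (1 / 2) h (sv 1 c) = FJ O 0 (1 / 2) 0 c := by
  have hw := O.hw
  have hh := O.hh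
  obtain ⟨s1, s2, s3, s4⟩ := sub_BL O
  obtain ⟨b, t, hb, H⟩ := root_two R
  obtain ⟨e, s, g1, g2, g3⟩ := B_in O hb
  have hc' : RC (RT 0 (w + 1) (-1) (h - 1)) (sv 1 c) := by
    have := RC_sv (m := 1) hc
    rw [image_E] at this
    exact this
  have key := iW_comp (disj_B O).1 (disj_B O).2 (fun c h1 h2 => B_wires O h1 h2) g1
    ((tB O (DW.frz s3 (H 0 le_rfl (by omega)) s1) rfl rfl).trans g2)
    ((DW.frz s4 (H h (by omega) le_rfl) s2).trans g3) (k0 := O.k0)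
    (by
      rw [plab_sv, ← image_E, mem_image]
      rintro ⟨x, hx, h'⟩
      rw [sv_inj 1 h'] at hx
      exact plab_c0 (by omega) (by omega) (by omega) (by omega) hx)
    (plab_c0 (by omega) (by omega) (by omega) (by omega)) hc' (k0' := O.k0) (fun _ => 1 / 2)
  rw [sub_self, ph_zero, one_mul, ← image_E, iW_sv, image_E] at key
  rw [FJ_BL, FJ_BU]
  exact key.symm

end S2

end Pool.Agent.H74.R45
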