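import Mathlib
import Pool.Agent.H74.R45.S12

set_option autoImplicit false
open Finset

/-! # The natural rectangle

`NN O` : the open labels of the natural environment of the rectangle `[0,w) × [0,h)`: columns `-1`, `w`
on `[0,h)`, columns `-2`, `w+1` on `[-1,h)`, and the far labels. `NA O` : the same without the label
`lt (-1, h-1)` (the corner vertex at NW is free). `S3` : with the weights `[0, 1]` the environment `0` is
the environment `NA O`. -/

namespace Pool.Agent.H74.R45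

open Pool.Agent.H75.Perc hiding ph
open Pool.Agent.H75.TwoArm Pool.Agent.Q1 Pool.Agent.H33.Q1
open Pool.Agent.H75.Four Pool.Agent.H69.Q1

variable {w h : ℤ}

/-- open labels, environment `0`, deterministic row and column -/
noncomputable def CL (O : Out w h) : Finset (ℤ × ℤ) :=
  WJ w h 0 O.Wo ∪ (RT 0 w (-1) 0 ∪ RT (-1) 0 0 h).filter pO

/-- open labels of the natural rectangle -/
noncomputable def NN (O : Out w h) : Finset (ℤ × ℤ) :=
  RT (-1) 0 0 h ∪ RT w (w + 1) 0 h ∪ RT (-2) (-1) (-1) h ∪ RT (w + 1) (w + 2) (-1) h ∪ O.Wo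

/-- open labels of the natural rectangle with a free corner vertex at NW -/
noncomputable def NA (O : Out w h) : Finset (ℤ × ℤ) := (NN O).erase (lt (-1, h - 1))

section mem

variable {O : Out w h} {x y : ℤ}

lemma mem_CL (hn : -2 ≤ x ∧ x < w + 2 ∧ -2 ≤ y ∧ y ≤ h) : lt (x, y) ∈ CL O ↔
    ((x = w ∨ x = -2 ∨ x = w + 1) ∧ -1 ≤ y ∧ y < h) ∨
    (((0 ≤ x ∧ x < w ∧ y = -1) ∨ (x = -1 ∧ 0 ≤ y ∧ y < h)) ∧ (x + y) % 2 = 1) := by
  unfold CL
  rw [mem_union, mem_WJ hn, mem_WR, mem_filter, mem_union, lt_mem_RT, lt_mem_RT, pO_lt]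
  omega

lemma mem_NN (hn : -2 ≤ x ∧ x < w + 2 ∧ -2 ≤ y ∧ y ≤ h) : lt (x, y) ∈ NN O ↔
    ((x = -1 ∨ x = w) ∧ 0 ≤ y ∧ y < h) ∨ ((x = -2 ∨ x = w + 1) ∧ -1 ≤ y ∧ y < h) := by
  have := fun h' => O.far x y h' hn
  unfold NN
  rw [mem_union, mem_union, mem_union, mem_union, lt_mem_RT, lt_mem_RT, lt_mem_RT, lt_mem_RT]
  constructor
  · rintro ((((h1 | h1) | h1) | h1) | h1)
    · omega
    · omega
    · omega
    · omega
    · exact absurd h1 this
  · intro h1
    left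
    omega

lemma mem_NA (hn : -2 ≤ x ∧ x < w + 2 ∧ -2 ≤ y ∧ y ≤ h) : lt (x, y) ∈ NA O ↔
    (((x = -1 ∨ x = w) ∧ 0 ≤ y ∧ y < h) ∨ ((x = -2 ∨ x = w + 1) ∧ -1 ≤ y ∧ y < h)) ∧
    ¬ (x = -1 ∧ y = h - 1) := by
  unfold NA
  rw [mem_erase, mem_NN hn]
  constructor
  · rintro ⟨h1, h2⟩
    refine ⟨h2, ?_⟩
    rintro ⟨rfl, rfl⟩
    exact h1 rfl
  · rintro ⟨h1, h2⟩
    refine ⟨fun h' => h2 ?_, h1⟩
    have := lt_inj h'
    simpa only [Prod.mk.injEq] using this

lemma iCL (H : (-2 ≤ x ∧ x < w + 2 ∧ -2 ≤ y ∧ y ≤ h) ∧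
    (((x = w ∨ x = -2 ∨ x = w + 1) ∧ -1 ≤ y ∧ y < h) ∨
    (((0 ≤ x ∧ x < w ∧ y = -1) ∨ (x = -1 ∧ 0 ≤ y ∧ y < h)) ∧ (x + y) % 2 = 1))) :
    lt (x, y) ∈ CL O := (mem_CL H.1).2 H.2

lemma nCL (H : (-2 ≤ x ∧ x < w + 2 ∧ -2 ≤ y ∧ y ≤ h) ∧
    ¬ (((x = w ∨ x = -2 ∨ x = w + 1) ∧ -1 ≤ y ∧ y < h) ∨
    (((0 ≤ x ∧ x < w ∧ y = -1) ∨ (x = -1 ∧ 0 ≤ y ∧ y < h)) ∧ (x + y) % 2 = 1))) :
    lt (x, y) ∉ CL O := fun h' => H.2 ((mem_CL H.1).1 h')

lemma iNN (H : (-2 ≤ x ∧ x < w + 2 ∧ -2 ≤ y ∧ y ≤ h) ∧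
    (((x = -1 ∨ x = w) ∧ 0 ≤ y ∧ y < h) ∨ ((x = -2 ∨ x = w + 1) ∧ -1 ≤ y ∧ y < h))) :
    lt (x, y) ∈ NN O := (mem_NN H.1).2 H.2

lemma nNN (H : (-2 ≤ x ∧ x < w + 2 ∧ -2 ≤ y ∧ y ≤ h) ∧
    ¬ (((x = -1 ∨ x = w) ∧ 0 ≤ y ∧ y < h) ∨ ((x = -2 ∨ x = w + 1) ∧ -1 ≤ y ∧ y < h))) :
    lt (x, y) ∉ NN O := fun h' => H.2 ((mem_NN H.1).1 h')

lemma iNA (H : (-2 ≤ x ∧ x < w + 2 ∧ -2 ≤ y ∧ y ≤ h) ∧
    ((((x = -1 ∨ x = w) ∧ 0 ≤ y ∧ y < h) ∨ ((x = -2 ∨ x = w + 1) ∧ -1 ≤ y ∧ y < h)) ∧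
    ¬ (x = -1 ∧ y = h - 1))) : lt (x, y) ∈ NA O := (mem_NA H.1).2 H.2

lemma nNA (H : (-2 ≤ x ∧ x < w + 2 ∧ -2 ≤ y ∧ y ≤ h) ∧
    ¬ ((((x = -1 ∨ x = w) ∧ 0 ≤ y ∧ y < h) ∨ ((x = -2 ∨ x = w + 1) ∧ -1 ≤ y ∧ y < h)) ∧
    ¬ (x = -1 ∧ y = h - 1))) : lt (x, y) ∉ NA O := fun h' => H.2 ((mem_NA H.1).1 h')

lemma nCLE (H : ¬ (0 ≤ x ∧ x < w ∧ 0 ≤ y ∧ y < h)) : lt (x, y) ∉ RT 0 w 0 h :=
  fun h' => H (lt_mem_RT.1 h')

lemma nNAE (H : ¬ (0 ≤ x ∧ x < w ∧ 0 ≤ y ∧ y < h)) : lt (x, y) ∉ RT 0 w 0 h :=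
  fun h' => H (lt_mem_RT.1 h')

lemma nNNE (H : ¬ (0 ≤ x ∧ x < w ∧ 0 ≤ y ∧ y < h)) : lt (x, y) ∉ RT 0 w 0 h :=
  fun h' => H (lt_mem_RT.1 h')

end mem

section wires

variable (O : Out w h)

/-! #### the wires of `CL` -/

lemma CL_left {m : ℤ} (a : 0 ≤ m) (b : 2 * m + 2 < h) :
    DW (CL O) (RT 0 w 0 h) (ve (0, 2 * m)) (ve (0, 2 * m + 1)) (-2) := by
  have := O.hw
  have := O.w2
  have := O.hh
  have := O.h2
  exact (DW.WN (t := -1) (by omega) (nCLE (by omega)) (iCL (by omega))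
    (DW.NW (t := -2) (by omega) (nCLE (by omega)) (nCL (by omega))
    (DW.WN (t := -1) (by omega) (nCLE (by omega)) (iCL (by omega))
    (DW.NE (t := 0) (by omega) (nCLE (by omega)) (iCL (by omega))
    (DW.ES (t := 1) (by omega) (nCLE (by omega)) (iCL (by omega))
    (DW.SE (t := 0) (by omega) (nCLE (by omega)) (nCL (by omega))
    (DW.to (ve_eq (by omega) (by omega))) (by norm_num)) (by norm_num)) (by norm_num)) (by norm_num)) (by norm_num)) (by norm_num))

lemma CL_NW :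
    DW (CL O) (RT 0 w 0 h) (ve (0, h - 2)) (he (-2, h)) (-1) := by
  have := O.hw
  have := O.w2
  have := O.hh
  have := O.h2
  exact (DW.WN (t := 0) (by omega) (nCLE (by omega)) (iCL (by omega))
    (DW.NW (t := -1) (by omega) (nCLE (by omega)) (nCL (by omega))
    (DW.WN (t := 0) (by omega) (nCLE (by omega)) (iCL (by omega))
    (DW.to (he_eq (by omega) (by omega))) (by norm_num)) (by norm_num)) (by norm_num))

lemma CL_top {m : ℤ} (a : 1 ≤ m) (b : 2 * m < w) :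
    DW (CL O) (RT 0 w 0 h) (he (2 * m, h)) (he (2 * m - 1, h)) 2 := by
  have := O.hw
  have := O.w2
  have := O.hh
  have := O.h2
  exact (DW.NW (t := 1) (by omega) (nCLE (by omega)) (nCL (by omega))
    (DW.WS (t := 0) (by omega) (nCLE (by omega)) (nCL (by omega))
    (DW.to (he_eq (by omega) (by omega))) (by norm_num)) (by norm_num))

lemma CL_top0 :
    DW (CL O) (RT 0 w 0 h) (he (0, h)) (ve (0, h - 1)) 3 := by
  have := O.hw
  have := O.w2
  have := O.hh
  have := O.h2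
  exact (DW.NW (t := 2) (by omega) (nCLE (by omega)) (nCL (by omega))
    (DW.WS (t := 1) (by omega) (nCLE (by omega)) (nCL (by omega))
    (DW.SE (t := 0) (by omega) (nCLE (by omega)) (nCL (by omega))
    (DW.to (ve_eq (by omega) (by omega))) (by norm_num)) (by norm_num)) (by norm_num))

lemma CL_right {m : ℤ} (a : 0 ≤ m) (b : 2 * m < h) :
    DW (CL O) (RT 0 w 0 h) (ve (w, 2 * m + 1)) (ve (w, 2 * m)) (-2) := by
  have := O.hw
  have := O.w2
  have := O.hh
  have := O.h2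
  exact (DW.ES (t := -1) (by omega) (nCLE (by omega)) (iCL (by omega))
    (DW.SW (t := 0) (by omega) (nCLE (by omega)) (iCL (by omega))
    (DW.to (ve_eq (by omega) (by omega))) (by norm_num)) (by norm_num))

lemma CL_bot {m : ℤ} (a : 1 ≤ m) (b : 2 * m < w) :
    DW (CL O) (RT 0 w 0 h) (he (2 * m - 1, 0)) (he (2 * m, 0)) 2 := by
  have := O.hw
  have := O.w2
  have := O.hh
  have := O.h2
  exact (DW.SE (t := 1) (by omega) (nCLE (by omega)) (nCL (by omega))
    (DW.ES (t := 2) (by omega) (nCLE (by omega)) (iCL (by omega))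
    (DW.SE (t := 1) (by omega) (nCLE (by omega)) (nCL (by omega))
    (DW.EN (t := 0) (by omega) (nCLE (by omega)) (nCL (by omega))
    (DW.NW (t := -1) (by omega) (nCLE (by omega)) (nCL (by omega))
    (DW.WN (t := 0) (by omega) (nCLE (by omega)) (iCL (by omega))
    (DW.to (he_eq (by omega) (by omega))) (by norm_num)) (by norm_num)) (by norm_num)) (by norm_num)) (by norm_num)) (by norm_num))

lemma CL_SE :
    DW (CL O) (RT 0 w 0 h) (he (w - 1, 0)) (ve (w + 1, -2)) 1 := by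
  have := O.hw
  have := O.w2
  have := O.hh
  have := O.h2
  exact (DW.SE (t := 0) (by omega) (nCLE (by omega)) (nCL (by omega))
    (DW.ES (t := 1) (by omega) (nCLE (by omega)) (iCL (by omega))
    (DW.SE (t := 0) (by omega) (nCLE (by omega)) (nCL (by omega))
    (DW.to (ve_eq (by omega) (by omega))) (by norm_num)) (by norm_num)) (by norm_num))

lemma CL_SW :
    DW (CL O) (RT 0 w 0 h) (ve (-1, -2)) (he (0, 0)) 1 := by
  have := O.hw
  have := O.w2
  have := O.hh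
  have := O.h2
  exact (DW.EN (t := 0) (by omega) (nCLE (by omega)) (nCL (by omega))
    (DW.NW (t := -1) (by omega) (nCLE (by omega)) (nCL (by omega))
    (DW.WN (t := 0) (by omega) (nCLE (by omega)) (iCL (by omega))
    (DW.NE (t := 1) (by omega) (nCLE (by omega)) (iCL (by omega))
    (DW.ES (t := 2) (by omega) (nCLE (by omega)) (iCL (by omega))
    (DW.SE (t := 1) (by omega) (nCLE (by omega)) (nCL (by omega))
    (DW.ES (t := 2) (by omega) (nCLE (by omega)) (iCL (by omega))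
    (DW.SE (t := 1) (by omega) (nCLE (by omega)) (nCL (by omega))
    (DW.EN (t := 0) (by omega) (nCLE (by omega)) (nCL (by omega))
    (DW.NW (t := -1) (by omega) (nCLE (by omega)) (nCL (by omega))
    (DW.WN (t := 0) (by omega) (nCLE (by omega)) (iCL (by omega))
    (DW.to (he_eq (by omega) (by omega))) (by norm_num)) (by norm_num)) (by norm_num)) (by norm_num)) (by norm_num)) (by norm_num)) (by norm_num)) (by norm_num)) (by norm_num)) (by norm_num)) (by norm_num))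

lemma CL_NE :
    DW (CL O) (RT 0 w 0 h) (he (w + 1, h)) (he (w - 1, h)) 0 := by
  have := O.hw
  have := O.w2
  have := O.hh
  have := O.h2
  exact (DW.SW (t := 1) (by omega) (nCLE (by omega)) (iCL (by omega))
    (DW.WN (t := 2) (by omega) (nCLE (by omega)) (iCL (by omega))
    (DW.NW (t := 1) (by omega) (nCLE (by omega)) (nCL (by omega))
    (DW.WS (t := 0) (by omega) (nCLE (by omega)) (nCL (by omega))
    (DW.to (he_eq (by omega) (by omega))) (by norm_num)) (by norm_num)) (by norm_num)) (by norm_num))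

/-! #### the wires of `NA` -/

lemma NA_left {m : ℤ} (a : 0 ≤ m) (b : 2 * m + 2 < h) :
    DW (NA O) (RT 0 w 0 h) (ve (0, 2 * m)) (ve (0, 2 * m + 1)) (-2) := by
  have := O.hw
  have := O.w2
  have := O.hh
  have := O.h2
  exact (DW.WN (t := -1) (by omega) (nNAE (by omega)) (iNA (by omega))
    (DW.NE (t := 0) (by omega) (nNAE (by omega)) (iNA (by omega))
    (DW.to (ve_eq (by omega) (by omega))) (by norm_num)) (by norm_num))

lemma NA_NW :
    DW (NA O) (RT 0 w 0 h) (ve (0, h - 2)) (he (-2, h)) (-1) := by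
  have := O.hw
  have := O.w2
  have := O.hh
  have := O.h2
  exact (DW.WN (t := 0) (by omega) (nNAE (by omega)) (iNA (by omega))
    (DW.NW (t := -1) (by omega) (nNAE (by omega)) (nNA (by omega))
    (DW.WN (t := 0) (by omega) (nNAE (by omega)) (iNA (by omega))
    (DW.to (he_eq (by omega) (by omega))) (by norm_num)) (by norm_num)) (by norm_num))

lemma NA_top {m : ℤ} (a : 1 ≤ m) (b : 2 * m < w) :
    DW (NA O) (RT 0 w 0 h) (he (2 * m, h)) (he (2 * m - 1, h)) 2 := by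
  have := O.hw
  have := O.w2
  have := O.hh
  have := O.h2
  exact (DW.NW (t := 1) (by omega) (nNAE (by omega)) (nNA (by omega))
    (DW.WS (t := 0) (by omega) (nNAE (by omega)) (nNA (by omega))
    (DW.to (he_eq (by omega) (by omega))) (by norm_num)) (by norm_num))

lemma NA_top0 :
    DW (NA O) (RT 0 w 0 h) (he (0, h)) (ve (0, h - 1)) 3 := by
  have := O.hw
  have := O.w2
  have := O.hh
  have := O.h2
  exact (DW.NW (t := 2) (by omega) (nNAE (by omega)) (nNA (by omega))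
    (DW.WS (t := 1) (by omega) (nNAE (by omega)) (nNA (by omega))
    (DW.SE (t := 0) (by omega) (nNAE (by omega)) (nNA (by omega))
    (DW.to (ve_eq (by omega) (by omega))) (by norm_num)) (by norm_num)) (by norm_num))

lemma NA_right {m : ℤ} (a : 0 ≤ m) (b : 2 * m < h) :
    DW (NA O) (RT 0 w 0 h) (ve (w, 2 * m + 1)) (ve (w, 2 * m)) (-2) := by
  have := O.hw
  have := O.w2
  have := O.hh
  have := O.h2
  exact (DW.ES (t := -1) (by omega) (nNAE (by omega)) (iNA (by omega))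
    (DW.SW (t := 0) (by omega) (nNAE (by omega)) (iNA (by omega))
    (DW.to (ve_eq (by omega) (by omega))) (by norm_num)) (by norm_num))

lemma NA_bot {m : ℤ} (a : 1 ≤ m) (b : 2 * m < w) :
    DW (NA O) (RT 0 w 0 h) (he (2 * m - 1, 0)) (he (2 * m, 0)) 2 := by
  have := O.hw
  have := O.w2
  have := O.hh
  have := O.h2
  exact (DW.SE (t := 1) (by omega) (nNAE (by omega)) (nNA (by omega))
    (DW.EN (t := 0) (by omega) (nNAE (by omega)) (nNA (by omega))
    (DW.to (he_eq (by omega) (by omega))) (by norm_num)) (by norm_num))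

lemma NA_SE :
    DW (NA O) (RT 0 w 0 h) (he (w - 1, 0)) (ve (w + 1, -2)) 1 := by
  have := O.hw
  have := O.w2
  have := O.hh
  have := O.h2
  exact (DW.SE (t := 0) (by omega) (nNAE (by omega)) (nNA (by omega))
    (DW.EN (t := -1) (by omega) (nNAE (by omega)) (nNA (by omega))
    (DW.NE (t := 0) (by omega) (nNAE (by omega)) (iNA (by omega))
    (DW.ES (t := 1) (by omega) (nNAE (by omega)) (iNA (by omega))
    (DW.SW (t := 2) (by omega) (nNAE (by omega)) (iNA (by omega))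
    (DW.WS (t := 1) (by omega) (nNAE (by omega)) (nNA (by omega))
    (DW.SE (t := 0) (by omega) (nNAE (by omega)) (nNA (by omega))
    (DW.to (ve_eq (by omega) (by omega))) (by norm_num)) (by norm_num)) (by norm_num)) (by norm_num)) (by norm_num)) (by norm_num)) (by norm_num))

lemma NA_SW :
    DW (NA O) (RT 0 w 0 h) (ve (-1, -2)) (he (0, 0)) 1 := by
  have := O.hw
  have := O.w2
  have := O.hh
  have := O.h2
  exact (DW.EN (t := 0) (by omega) (nNAE (by omega)) (nNA (by omega))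
    (DW.NW (t := -1) (by omega) (nNAE (by omega)) (nNA (by omega))
    (DW.WN (t := 0) (by omega) (nNAE (by omega)) (iNA (by omega))
    (DW.NE (t := 1) (by omega) (nNAE (by omega)) (iNA (by omega))
    (DW.ES (t := 2) (by omega) (nNAE (by omega)) (iNA (by omega))
    (DW.SE (t := 1) (by omega) (nNAE (by omega)) (nNA (by omega))
    (DW.EN (t := 0) (by omega) (nNAE (by omega)) (nNA (by omega))
    (DW.to (he_eq (by omega) (by omega))) (by norm_num)) (by norm_num)) (by norm_num)) (by norm_num)) (by norm_num)) (by norm_num)) (by norm_num))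

lemma NA_NE :
    DW (NA O) (RT 0 w 0 h) (he (w + 1, h)) (he (w - 1, h)) 0 := by
  have := O.hw
  have := O.w2
  have := O.hh
  have := O.h2
  exact (DW.SW (t := 1) (by omega) (nNAE (by omega)) (iNA (by omega))
    (DW.WN (t := 2) (by omega) (nNAE (by omega)) (iNA (by omega))
    (DW.NW (t := 1) (by omega) (nNAE (by omega)) (nNA (by omega))
    (DW.WS (t := 0) (by omega) (nNAE (by omega)) (nNA (by omega))
    (DW.to (he_eq (by omega) (by omega))) (by norm_num)) (by norm_num)) (by norm_num)) (by norm_num))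

/-! #### the wires of `NN` -/

lemma NN_left {m : ℤ} (a : 0 ≤ m) (b : 2 * m < h) :
    DW (NN O) (RT 0 w 0 h) (ve (0, 2 * m)) (ve (0, 2 * m + 1)) (-2) := by
  have := O.hw
  have := O.w2
  have := O.hh
  have := O.h2
  exact (DW.WN (t := -1) (by omega) (nNNE (by omega)) (iNN (by omega))
    (DW.NE (t := 0) (by omega) (nNNE (by omega)) (iNN (by omega))
    (DW.to (ve_eq (by omega) (by omega))) (by norm_num)) (by norm_num))

lemma NN_top {m : ℤ} (a : 1 ≤ m) (b : 2 * m < w) :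
    DW (NN O) (RT 0 w 0 h) (he (2 * m, h)) (he (2 * m - 1, h)) 2 := by
  have := O.hw
  have := O.w2
  have := O.hh
  have := O.h2
  exact (DW.NW (t := 1) (by omega) (nNNE (by omega)) (nNN (by omega))
    (DW.WS (t := 0) (by omega) (nNNE (by omega)) (nNN (by omega))
    (DW.to (he_eq (by omega) (by omega))) (by norm_num)) (by norm_num))

lemma NN_NW :
    DW (NN O) (RT 0 w 0 h) (he (0, h)) (he (-2, h)) 0 := by
  have := O.hw
  have := O.w2
  have := O.hh
  have := O.h2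
  exact (DW.NW (t := -1) (by omega) (nNNE (by omega)) (nNN (by omega))
    (DW.WS (t := -2) (by omega) (nNNE (by omega)) (nNN (by omega))
    (DW.SW (t := -1) (by omega) (nNNE (by omega)) (iNN (by omega))
    (DW.WN (t := 0) (by omega) (nNNE (by omega)) (iNN (by omega))
    (DW.to (he_eq (by omega) (by omega))) (by norm_num)) (by norm_num)) (by norm_num)) (by norm_num))

lemma NN_right {m : ℤ} (a : 0 ≤ m) (b : 2 * m < h) :
    DW (NN O) (RT 0 w 0 h) (ve (w, 2 * m + 1)) (ve (w, 2 * m)) (-2) := by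
  have := O.hw
  have := O.w2
  have := O.hh
  have := O.h2
  exact (DW.ES (t := -1) (by omega) (nNNE (by omega)) (iNN (by omega))
    (DW.SW (t := 0) (by omega) (nNNE (by omega)) (iNN (by omega))
    (DW.to (ve_eq (by omega) (by omega))) (by norm_num)) (by norm_num))

lemma NN_bot {m : ℤ} (a : 1 ≤ m) (b : 2 * m < w) :
    DW (NN O) (RT 0 w 0 h) (he (2 * m - 1, 0)) (he (2 * m, 0)) 2 := by
  have := O.hw
  have := O.w2
  have := O.hh
  have := O.h2
  exact (DW.SE (t := 1) (by omega) (nNNE (by omega)) (nNN (by omega))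
    (DW.EN (t := 0) (by omega) (nNNE (by omega)) (nNN (by omega))
    (DW.to (he_eq (by omega) (by omega))) (by norm_num)) (by norm_num))

lemma NN_SE :
    DW (NN O) (RT 0 w 0 h) (he (w - 1, 0)) (ve (w + 1, -2)) 1 := by
  have := O.hw
  have := O.w2
  have := O.hh
  have := O.h2
  exact (DW.SE (t := 0) (by omega) (nNNE (by omega)) (nNN (by omega))
    (DW.EN (t := -1) (by omega) (nNNE (by omega)) (nNN (by omega))
    (DW.NE (t := 0) (by omega) (nNNE (by omega)) (iNN (by omega))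
    (DW.ES (t := 1) (by omega) (nNNE (by omega)) (iNN (by omega))
    (DW.SW (t := 2) (by omega) (nNNE (by omega)) (iNN (by omega))
    (DW.WS (t := 1) (by omega) (nNNE (by omega)) (nNN (by omega))
    (DW.SE (t := 0) (by omega) (nNNE (by omega)) (nNN (by omega))
    (DW.to (ve_eq (by omega) (by omega))) (by norm_num)) (by norm_num)) (by norm_num)) (by norm_num)) (by norm_num)) (by norm_num)) (by norm_num))

lemma NN_SW :
    DW (NN O) (RT 0 w 0 h) (ve (-1, -2)) (he (0, 0)) 1 := by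
  have := O.hw
  have := O.w2
  have := O.hh
  have := O.h2
  exact (DW.EN (t := 0) (by omega) (nNNE (by omega)) (nNN (by omega))
    (DW.NW (t := -1) (by omega) (nNNE (by omega)) (nNN (by omega))
    (DW.WN (t := 0) (by omega) (nNNE (by omega)) (iNN (by omega))
    (DW.NE (t := 1) (by omega) (nNNE (by omega)) (iNN (by omega))
    (DW.ES (t := 2) (by omega) (nNNE (by omega)) (iNN (by omega))
    (DW.SE (t := 1) (by omega) (nNNE (by omega)) (nNN (by omega))
    (DW.EN (t := 0) (by omega) (nNNE (by omega)) (nNN (by omega))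
    (DW.to (he_eq (by omega) (by omega))) (by norm_num)) (by norm_num)) (by norm_num)) (by norm_num)) (by norm_num)) (by norm_num)) (by norm_num))

lemma NN_NE :
    DW (NN O) (RT 0 w 0 h) (he (w + 1, h)) (he (w - 1, h)) 0 := by
  have := O.hw
  have := O.w2
  have := O.hh
  have := O.h2
  exact (DW.SW (t := 1) (by omega) (nNNE (by omega)) (iNN (by omega))
    (DW.WN (t := 2) (by omega) (nNNE (by omega)) (iNN (by omega))
    (DW.NW (t := 1) (by omega) (nNNE (by omega)) (nNN (by omega))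
    (DW.WS (t := 0) (by omega) (nNNE (by omega)) (nNN (by omega))
    (DW.to (he_eq (by omega) (by omega))) (by norm_num)) (by norm_num)) (by norm_num)) (by norm_num))


/-! ### (S3) -/

lemma NN_sub : NN O ⊆ GA w h ∪ O.Wo := by
  have := O.hw
  intro e he
  unfold NN at he
  rw [mem_union] at he
  rw [mem_union]
  refine he.imp (fun he => ?_) id
  obtain ⟨x, y, rfl⟩ : ∃ x y, e = lt (x, y) := by
    rw [mem_union, mem_union, mem_union] at he
    rcases he with ((he | he) | he) | he <;> exact exists_lt (odd_RT he)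
  rw [mem_union, mem_union, mem_union, lt_mem_RT, lt_mem_RT, lt_mem_RT, lt_mem_RT] at he
  unfold GA
  rw [lt_mem_RT]
  omega

lemma RTN_sub : RT 0 w 0 h ⊆ GA w h := by
  intro e he
  obtain ⟨x, y, rfl⟩ := exists_lt (odd_RT he)
  rw [lt_mem_RT] at he
  unfold GA
  rw [lt_mem_RT]
  omega

lemma disj_NN : Disjoint (RT 0 w 0 h) (NN O) := by
  have := O.hw
  rw [disjoint_left]
  intro e he
  obtain ⟨x, y, rfl⟩ := exists_lt (odd_RT he)
  rw [lt_mem_RT] at he
  exact nNN (by omega)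

lemma disj_NA : Disjoint (RT 0 w 0 h) (NA O) := (disj_NN O).mono_right (erase_subset _ _)

lemma disj_CL : Disjoint (RT 0 w 0 h) (CL O) := by
  have := O.hw
  rw [disjoint_left]
  intro e he
  obtain ⟨x, y, rfl⟩ := exists_lt (odd_RT he)
  rw [lt_mem_RT] at he
  exact nCL (by omega)

/-- **The natural rectangle.** -/
noncomputable def XN (O : Out w h) : Env :=
  Env.plane (RT 0 w 0 h) (NN O) O.c0 O.k0 O.g (fun _ he => odd_RT he) (disj_NN O) O.hk
    (fun h => O.hroot (RTN_sub h)) (O.hg.anti (union_subset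
      (RTN_sub.trans subset_union_left) (NN_sub O)))
    (fun v hv => O.hlow v (hv.mono (union_subset (RTN_sub.trans subset_union_left) (NN_sub O))))

/-- **The natural rectangle with a free corner vertex at NW.** -/
noncomputable def XA (O : Out w h) : Env :=
  Env.plane (RT 0 w 0 h) (NA O) O.c0 O.k0 O.g (fun _ he => odd_RT he) (disj_NA O) O.hk
    (fun h => O.hroot (RTN_sub h)) (O.hg.anti (union_subset
      (RTN_sub.trans subset_union_left) ((erase_subset _ _).trans (NN_sub O))))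
    (fun v hv => O.hlow v (hv.mono (union_subset (RTN_sub.trans subset_union_left)
      ((erase_subset _ _).trans (NN_sub O)))))

/-- the outer labels of `NN` -/
lemma NN_outer {x : ℤ × ℤ} (hx : x ∉ IB w h) : x ∈ NN O ↔ x ∈ OW O := by
  unfold NN OW
  simp only [mem_union]
  constructor
  · rintro ((((h1 | h1) | h1) | h1) | h1)
    · exfalso; apply hx
      obtain ⟨a, b, rfl⟩ := exists_lt (odd_RT h1)
      rw [lt_mem_RT] at h1
      rw [mem_IB]; have := O.hw; omega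
    · exfalso; apply hx
      obtain ⟨a, b, rfl⟩ := exists_lt (odd_RT h1)
      rw [lt_mem_RT] at h1
      rw [mem_IB]; have := O.hw; omega
    · exact Or.inl (Or.inl h1)
    · exact Or.inl (Or.inr h1)
    · exact Or.inr h1
  · rintro ((h1 | h1) | h1)
    · exact Or.inl (Or.inl (Or.inr h1))
    · exact Or.inl (Or.inr h1)
    · exact Or.inr h1

lemma NA_outer {x : ℤ × ℤ} (hx : x ∉ IB w h) : x ∈ NA O ↔ x ∈ OW O := by
  rw [← NN_outer O hx]
  unfold NA
  rw [mem_erase]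
  refine ⟨fun h => h.2, fun h' => ⟨?_, h'⟩⟩
  rintro rfl
  apply hx
  rw [mem_IB]
  have := O.hw
  have := O.hh
  omega

lemma RTN_IB : RT 0 w 0 h ⊆ IB w h := by
  intro e he
  obtain ⟨x, y, rfl⟩ := exists_lt (odd_RT he)
  rw [lt_mem_RT] at he
  rw [mem_IB]
  omega

/-- the path outside, for every set of open labels which agrees with `OW` outside the box -/
lemma outer_DW {A E : Finset (ℤ × ℤ)} (hA : ∀ x, x ∉ IB w h → (x ∈ A ↔ x ∈ OW O))
    (hE : E ⊆ IB w h) {a : ℤ × ℤ} {n : ℕ} (hn : ∀ i < n, lab ((nx (OW O))^[i] a) ∉ IB w h) :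
    DW A E a ((nx (OW O))^[n] a) (∑ i ∈ range n, del (OW O) ((nx (OW O))^[i] a)) := by
  have : DW (OW O) (IB w h) a ((nx (OW O))^[n] a)
      (∑ i ∈ range n, del (OW O) ((nx (OW O))^[i] a)) := ⟨n, hn, rfl, rfl⟩
  exact this.conv hE fun x hx => (hA x hx).symm

/-- the wires outside, as paths of `OW` -/
lemma wires_OW : ∃ (σ : ℤ × ℤ → ℤ × ℤ) (τ : ℤ × ℤ → ℤ), ∀ a, IsExt w h a → IsEnt w h (σ a) ∧
    ∀ (A E : Finset (ℤ × ℤ)), (∀ x, x ∉ IB w h → (x ∈ A ↔ x ∈ OW O)) → E ⊆ IB w h →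
      DW A E a (σ a) (τ a) := by
  classical
  have key : ∀ a, ∃ p : (ℤ × ℤ) × ℤ, IsExt w h a → IsEnt w h p.1 ∧
      ∀ (A E : Finset (ℤ × ℤ)), (∀ x, x ∉ IB w h → (x ∈ A ↔ x ∈ OW O)) → E ⊆ IB w h →
        DW A E a p.1 p.2 := by
    intro a
    by_cases ha : IsExt w h a
    · obtain ⟨n, b, hb, hn, hav⟩ := outer_path O (Or.inl ha) (exit_meets O ha)
      refine ⟨(b, ∑ i ∈ range n, del (OW O) ((nx (OW O))^[i] a)), fun _ => ⟨hb, ?_⟩⟩
      intro A E hA hE
      have := outer_DW O hA hE (a := a) (n := n) fun i hi => hav i (by omega)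
      rw [hn] at this
      exact this
    · exact ⟨(a, 0), fun h => absurd h ha⟩
  choose f hf using key
  exact ⟨fun a => (f a).1, fun a => (f a).2, fun a ha => hf a ha⟩

/-- the path of the root up to the entry -/
lemma root_OW (R : RootOut O) : ∃ b t, IsEnt w h b ∧
    ∀ (A E : Finset (ℤ × ℤ)), (∀ x, x ∉ IB w h → (x ∈ A ↔ x ∈ OW O)) → E ⊆ IB w h →
      DW A E O.c0 b t := by
  obtain ⟨n, b, hb, hn, hav⟩ := outer_path O (Or.inr R.far) R.meets
  refine ⟨b, ∑ i ∈ range n, del (OW O) ((nx (OW O))^[i] O.c0), hb, fun A E hA hE => ?_⟩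
  have := outer_DW O hA hE (a := O.c0) (n := n) fun i hi => hav i (by omega)
  rw [hn] at this
  exact this

lemma CL_outer {x : ℤ × ℤ} (hx : x ∉ IB w h) : x ∈ CL O ↔ x ∈ OW O := by
  have hw := O.hw
  have hh := O.hh
  rw [← OW_iff (O := O) (j := 0) le_rfl (by omega) hx]
  unfold CL
  rw [mem_union]
  refine ⟨fun h' => h'.resolve_right fun h1 => hx ?_, Or.inl⟩
  have h2 := (mem_filter.1 h1).1
  obtain ⟨a, b, rfl⟩ : ∃ a b, x = lt (a, b) := by
    rcases mem_union.1 h2 with h2 | h2 <;> exact exists_lt (odd_RT h2)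
  rw [mem_union, lt_mem_RT, lt_mem_RT] at h2
  rw [mem_IB]
  omega

lemma C_in {b : ℤ × ℤ} (hb : IsEnt w h b) : ∃ c' s, lab c' ∈ RT 0 w 0 h ∧
    DW (CL O) (RT 0 w 0 h) b c' s ∧ DW (NA O) (RT 0 w 0 h) b c' s ∧
    DW (NN O) (RT 0 w 0 h) b c' s := by
  have := O.hw
  have := O.w2
  have := O.hh
  have := O.h2
  rcases hb with rfl | rfl
  · refine ⟨_, _, ?_, CL_SW O, NA_SW O, NN_SW O⟩
    rw [lab_he_N (by omega), lt_mem_RT]; omega
  · refine ⟨_, _, ?_, CL_NE O, NA_NE O, NN_NE O⟩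
    rw [lab_he_S (by omega), lt_mem_RT]; omega

lemma C_wires {c : ℤ × ℤ} (hp : plab c ∈ RT 0 w 0 h) (hl : lab c ∉ RT 0 w 0 h) :
    ∃ c' s, lab c' ∈ RT 0 w 0 h ∧ DW (CL O) (RT 0 w 0 h) c c' s ∧
      DW (NA O) (RT 0 w 0 h) c c' s := by
  have hw := O.hw
  have w2 := O.w2
  have hh := O.hh
  have h2 := O.h2
  obtain ⟨σ, τ, H⟩ := wires_OW O
  have thru : ∀ {a : ℤ × ℤ} {t : ℤ}, IsExt w h a → DW (CL O) (RT 0 w 0 h) c a t →
      DW (NA O) (RT 0 w 0 h) c a t → ∃ c' s, lab c' ∈ RT 0 w 0 h ∧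
      DW (CL O) (RT 0 w 0 h) c c' s ∧ DW (NA O) (RT 0 w 0 h) c c' s := by
    intro a t ha d1 d2
    obtain ⟨hb, hw'⟩ := H a ha
    obtain ⟨c', s, g1, g2, g3, -⟩ := C_in O hb
    exact ⟨c', _, g1, (d1.trans (hw' _ _ (fun x hx => CL_outer O hx) RTN_IB)).trans g2,
      (d2.trans (hw' _ _ (fun x hx => NA_outer O hx) RTN_IB)).trans g3⟩
  rcases rect_exit hp hl with ⟨y, rfl, k1, k2, k3, -⟩ | ⟨y, rfl, k1, k2, k3, -⟩ |
    ⟨x, rfl, k1, k2, k3, -⟩ | ⟨x, rfl, k1, k2, k3, -⟩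
  · obtain ⟨m, rfl⟩ : ∃ m, y = 2 * m := ⟨y / 2, by omega⟩
    by_cases hy : 2 * m + 2 < h
    · refine ⟨_, _, ?_, CL_left O (by omega) hy, NA_left O (by omega) hy⟩
      rw [lab_ve_E (by omega), lt_mem_RT]; omega
    · have e : ve ((0 : ℤ), 2 * m) = ve (0, h - 2) := ve_eq rfl (by omega)
      refine thru (Or.inl rfl) (t := -1) ?_ ?_
      · rw [e]; exact CL_NW O
      · rw [e]; exact NA_NW O
  · obtain ⟨m, rfl⟩ : ∃ m, y = 2 * m + 1 := ⟨y / 2, by omega⟩
    refine ⟨_, _, ?_, CL_right O (by omega) (by omega), NA_right O (by omega) (by omega)⟩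
    rw [lab_ve_W (by omega), lt_mem_RT]; omega
  · obtain ⟨m, rfl⟩ : ∃ m, x = 2 * m := ⟨x / 2, by omega⟩
    by_cases hm : m = 0
    · subst hm
      refine ⟨_, _, ?_, CL_top0 O, NA_top0 O⟩
      rw [lab_ve_E (by omega), lt_mem_RT]; omega
    · refine ⟨_, _, ?_, CL_top O (by omega) k3, NA_top O (by omega) k3⟩
      rw [lab_he_S (by omega), lt_mem_RT]; omega
  · obtain ⟨m, rfl⟩ : ∃ m, x = 2 * m - 1 := ⟨(x + 1) / 2, by omega⟩
    by_cases hm : 2 * m < w
    · refine ⟨_, _, ?_, CL_bot O (by omega) hm, NA_bot O (by omega) hm⟩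
      rw [lab_he_N (by omega), lt_mem_RT]; omega
    · have e : he (2 * m - 1, 0) = he (w - 1, 0) := he_eq (by omega) rfl
      refine thru (Or.inr rfl) (t := 1) ?_ ?_
      · rw [e]; exact CL_SE O
      · rw [e]; exact NA_SE O

/-- environment `0`, deterministic row and column -/
lemma FJ_CL (c : ℤ × ℤ) : FJ O 0 1 0 c =
    Pool.Agent.H13.Q1.iW (RT 0 w 0 h) (CL O) (fun _ => 1 / 2) O.c0 O.k0 c := by
  have hw := O.hw
  have hh := O.hh
  have hD : RT 0 w (-1) 0 ∪ RT (-1) 0 0 h ⊆ EJ w h 0 :=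
    union_subset (sub_BL O).2.2.1 (sub_AL O).2.2.1
  have hE : EJ w h 0 \ (RT 0 w (-1) 0 ∪ RT (-1) 0 0 h) = RT 0 w 0 h := by
    refine ext_lt (fun e he => odd_EJ (mem_sdiff.1 he).1) (fun e he => odd_RT he) fun x y => ?_
    rw [mem_sdiff, mem_EJ, mem_union, lt_mem_RT, lt_mem_RT, lt_mem_RT]; omega
  rw [FJ_eq le_rfl (by omega)]
  unfold XJ
  rw [Pool.Agent.H13.Q1.plane_incW, iW_det hD (p := pO) (fun e he => ?_), hE]
  · unfold Pool.Agent.H13.Q1.iW CL
    refine Ec_congr_q (fun e he => ?_) _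
    obtain ⟨x, y, rfl⟩ := exists_lt (odd_RT he)
    rw [lt_mem_RT] at he
    unfold qJ
    simp only [tt_lt]
    rw [if_neg (by omega), if_neg (by omega)]
  · rcases mem_union.1 he with he | he
    · obtain ⟨x, y, rfl⟩ := exists_lt (odd_RT he)
      rw [lt_mem_RT] at he
      exact qJ_row0 (by omega) (by omega)
    · obtain ⟨x, y, rfl⟩ := exists_lt (odd_RT he)
      rw [lt_mem_RT] at he
      exact qJ_col (Or.inl (by omega))

/-- **(S3)** -/
theorem S3 (R : RootOut O) {c : ℤ × ℤ} (hc : RC (RT 0 w 0 h) c) :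
    FJ O 0 1 0 c = (XA O).inc c := by
  obtain ⟨b, t, hb, H⟩ := root_OW O R
  obtain ⟨e, s, g1, g2, g3, -⟩ := C_in O hb
  have e1 : (XA O).inc c =
      Pool.Agent.H13.Q1.iW (RT 0 w 0 h) (NA O) (fun _ => 1 / 2) O.c0 O.k0 c := by
    have := Pool.Agent.H13.Q1.plane_incW (E := RT 0 w 0 h) (W := NA O) (c0 := O.c0) (k0 := O.k0)
      (g := O.g) (hE := fun _ he => odd_RT he) (hd := disj_NA O) (hk := O.hk)
      (hroot := fun h => O.hroot (RTN_sub h)) (hg := O.hg.anti (union_subset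
      (RTN_sub.trans subset_union_left) ((erase_subset _ _).trans (NN_sub O))))
      (hlow := fun v hv => O.hlow v (hv.mono (union_subset (RTN_sub.trans subset_union_left)
      ((erase_subset _ _).trans (NN_sub O))))) (fun _ => 1 / 2) c
    rw [← this, Env.inc_eq]
    rfl
  rw [e1, FJ_CL, iW_comp (disj_CL O) (disj_NA O) (fun c h1 h2 => C_wires O h1 h2) g1
    ((H _ _ (fun x hx => CL_outer O hx) RTN_IB).trans g2)
    ((H _ _ (fun x hx => NA_outer O hx) RTN_IB).trans g3)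
    (plab_c0 (by omega) (by omega) (by omega) (by omega))
    (plab_c0 (by omega) (by omega) (by omega) (by omega)) hc (k0' := O.k0), sub_self, ph_zero,
    one_mul]

end wires

end Pool.Agent.H74.R45
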