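import Mathlib
import Pool.Agent.H74.R45.Nat
import Pool.Agent.H21.FM.Inter

set_option autoImplicit false
open Finset

/-! # (S1), (S2), (S3) for the potentials -/

namespace Pool.Agent.H74.R45

open Pool.Agent.H75.Perc hiding ph
open Pool.Agent.H75.TwoArm Pool.Agent.Q1 Pool.Agent.H33.Q1
open Pool.Agent.H75.Four Pool.Agent.H69.Q1

/-- functions on a rectangle with the same differences along the edges differ by a constant -/
lemma diff_const {K H : ℤ → ℤ → ℂ} {x0 x1 y0 y1 : ℤ}
    (hh : ∀ x y, x0 ≤ x → x < x1 → y0 ≤ y → y ≤ y1 → K x y - K (x + 1) y = H x y - H (x + 1) y)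
    (hv : ∀ x y, x0 ≤ x → x ≤ x1 → y0 ≤ y → y < y1 → K x y - K x (y + 1) = H x y - H x (y + 1)) :
    ∃ C, ∀ x y, x0 ≤ x → x ≤ x1 → y0 ≤ y → y ≤ y1 → K x y = H x y + C := by
  refine ⟨K x0 y0 - H x0 y0, fun x y a b c d => ?_⟩
  have e1 : ∀ n : ℕ, x0 + n ≤ x1 → K (x0 + n) y0 = H (x0 + n) y0 + (K x0 y0 - H x0 y0) := by
    intro n
    induction n with
    | zero => intro _; simp
    | succ n ih =>
      intro hn
      push_cast at hn
      have i1 := ih (by omega)
      have i2 := hh (x0 + n) y0 (by omega) (by omega) le_rfl (by omega)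
      have e : x0 + ((n + 1 : ℕ) : ℤ) = x0 + n + 1 := by push_cast; ring
      rw [e]
      linear_combination i1 - i2
  have e2 : ∀ n : ℕ, y0 + n ≤ y1 → K x (y0 + n) = H x (y0 + n) + (K x0 y0 - H x0 y0) := by
    intro n
    induction n with
    | zero =>
      intro _
      have := e1 (x - x0).toNat (by omega)
      have e : x0 + ((x - x0).toNat : ℤ) = x := by omega
      rw [e] at this
      simpa using this
    | succ n ih =>
      intro hn
      push_cast at hn
      have i1 := ih (by omega)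
      have i2 := hv x (y0 + n) a b (by omega) (by omega)
      have e : y0 + ((n + 1 : ℕ) : ℤ) = y0 + n + 1 := by push_cast; ring
      rw [e]
      linear_combination i1 - i2
  have := e2 (y - y0).toNat (by omega)
  have e : y0 + ((y - y0).toNat : ℤ) = y := by omega
  rw [e] at this
  exact this

lemma RC_he {x0 x1 y0 y1 x y : ℤ} (a : x0 ≤ x) (b : x < x1) (c : y0 ≤ y) (d : y ≤ y1)
    (e : y0 < y1) : RC (RT x0 x1 y0 y1) (he (x, y)) := by
  rcases Int.emod_two_eq_zero_or_one (x + y) with h | h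
  · by_cases hy : y < y1
    · left; rw [lab_he_N h, lt_mem_RT]; omega
    · right; rw [plab_he_N h, lt_mem_RT]; omega
  · by_cases hy : y0 < y
    · left; rw [lab_he_S h, lt_mem_RT]; omega
    · right; rw [plab_he_S h, lt_mem_RT]; omega

lemma RC_ve {x0 x1 y0 y1 x y : ℤ} (a : x0 ≤ x) (b : x ≤ x1) (c : y0 ≤ y) (d : y < y1)
    (e : x0 < x1) : RC (RT x0 x1 y0 y1) (ve (x, y)) := by
  rcases Int.emod_two_eq_zero_or_one (x + y) with h | h
  · by_cases hx : x0 < x
    · left; rw [lab_ve_W h, lt_mem_RT]; omega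
    · right; rw [plab_ve_W h, lt_mem_RT]; omega
  · by_cases hx : x < x1
    · left; rw [lab_ve_E h, lt_mem_RT]; omega
    · right; rw [plab_ve_E h, lt_mem_RT]; omega

variable {w h : ℤ} {O : Out w h}

/-- **(S1)** for the potentials -/
theorem S1_pot (R : RootOut O) {Hl Hu : ℤ → ℤ → ℂ} (hl : Pot (FJ O (1 / 2) 1 0) Hl 0 w 0 h)
    (hu : Pot (FJ O (1 / 2) 1 h) Hu 0 w (-1) (h - 1)) :
    ∃ C, ∀ x y, 0 ≤ x → x ≤ w → 0 ≤ y → y ≤ h - 1 → Hu x y = Hl x y + C := by
  have hw := O.hw
  have hh := O.hh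
  refine diff_const (fun x y a b c d => ?_) (fun x y a b c d => ?_)
  · rw [← hu.hor x y a b (by omega) d, ← hl.hor x y a b c (by omega),
      S1 O R (RC_he a b (by omega) (by omega) (by omega))]
  · rw [← hu.ver x y a b (by omega) d, ← hl.ver x y a b c (by omega),
      S1 O R (RC_ve a b (by omega) (by omega) (by omega))]

/-- **(S2)** for the potentials -/
theorem S2_pot (R : RootOut O) {Hl Hu : ℤ → ℤ → ℂ} (hl : Pot (FJ O 0 (1 / 2) 0) Hl 0 w 0 h)
    (hu : Pot (FJ O 0 (1 / 2) h) Hu 0 w (-1) (h - 1)) :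
    ∃ C, ∀ x y, 1 ≤ x → x ≤ w → -1 ≤ y → y ≤ h - 1 → Hu x y = Hl (x - 1) (y + 1) + C := by
  have hw := O.hw
  have hh := O.hh
  refine diff_const (K := Hu) (H := fun x y => Hl (x - 1) (y + 1)) (fun x y a b c d => ?_)
    (fun x y a b c d => ?_)
  · have e1 := S2 O R (c := he (x - 1, y + 1))
      (RC_he (by omega) (by omega) (by omega) (by omega) (by omega))
    rw [sv_he, show x - 1 + 1 = x by ring, show y + 1 - 1 = y by ring] at e1
    have e2 := hl.hor (x - 1) (y + 1) (by omega) (by omega) (by omega) (by omega)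
    rw [show x - 1 + 1 = x by ring] at e2
    rw [← hu.hor x y (by omega) b (by omega) d, e1, show x + 1 - 1 = x by ring, ← e2,
      sg_congr (show (x + y) % 2 = (x - 1 + (y + 1)) % 2 by omega)]
  · have e1 := S2 O R (c := ve (x - 1, y + 1))
      (RC_ve (by omega) (by omega) (by omega) (by omega) (by omega))
    rw [sv_ve, show x - 1 + 1 = x by ring, show y + 1 - 1 = y by ring] at e1
    have e2 := hl.ver (x - 1) (y + 1) (by omega) (by omega) (by omega) (by omega)
    rw [← hu.ver x y (by omega) b (by omega) d, e1, ← e2,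
      sg_congr (show (x + y) % 2 = (x - 1 + (y + 1)) % 2 by omega)]

/-! ### Primitives on the tile grid -/

lemma gprim_edge {X : Env} {Ht : ℤ × ℤ → ℂ} (H : H21.FM.GPrim X Ht) {x y : ℤ} :
    (RC X.E (he (x, y)) → sg (x + y) * X.inc (he (x, y)) = Ht (x, y) - Ht (x + 1, y)) ∧
    (RC X.E (ve (x, y)) → sg (x + y) * X.inc (ve (x, y)) = Ht (x, y) - Ht (x, y + 1)) := by
  constructor
  · intro hc
    have h1 := H _ hc
    rcases Int.emod_two_eq_zero_or_one (x + y) with hp | hp
    · have e1 : tv (vx (he (x, y))) = (x, y) := by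
        unfold tv vx he; refine Prod.ext ?_ ?_ <;> dsimp only <;> omega
      have e2 : tf (fi (he (x, y))) = (x + 1, y) := by
        unfold tf fi he; refine Prod.ext ?_ ?_ <;> dsimp only <;> omega
      rw [e1, e2] at h1
      rw [sg_even hp, one_mul, h1]
    · have e1 : tv (vx (he (x, y))) = (x + 1, y) := by
        unfold tv vx he; refine Prod.ext ?_ ?_ <;> dsimp only <;> omega
      have e2 : tf (fi (he (x, y))) = (x, y) := by
        unfold tf fi he; refine Prod.ext ?_ ?_ <;> dsimp only <;> omega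
      rw [e1, e2] at h1
      rw [sg_odd hp, ← h1]; ring
  · intro hc
    have h1 := H _ hc
    rcases Int.emod_two_eq_zero_or_one (x + y) with hp | hp
    · have e1 : tv (vx (ve (x, y))) = (x, y) := by
        unfold tv vx ve; refine Prod.ext ?_ ?_ <;> dsimp only <;> omega
      have e2 : tf (fi (ve (x, y))) = (x, y + 1) := by
        unfold tf fi ve; refine Prod.ext ?_ ?_ <;> dsimp only <;> omega
      rw [e1, e2] at h1
      rw [sg_even hp, one_mul, h1]
    · have e1 : tv (vx (ve (x, y))) = (x, y + 1) := by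
        unfold tv vx ve; refine Prod.ext ?_ ?_ <;> dsimp only <;> omega
      have e2 : tf (fi (ve (x, y))) = (x, y) := by
        unfold tf fi ve; refine Prod.ext ?_ ?_ <;> dsimp only <;> omega
      rw [e1, e2] at h1
      rw [sg_odd hp, ← h1]; ring

/-- **(S3)** for the potentials -/
theorem S3_pot (R : RootOut O) {Hl : ℤ → ℤ → ℂ} (hl : Pot (FJ O 0 1 0) Hl 0 w 0 h)
    {Ht : ℤ × ℤ → ℂ} (hg : H21.FM.GPrim (XA O) Ht) :
    ∃ C, ∀ x y, 0 ≤ x → x ≤ w → 0 ≤ y → y ≤ h → Hl x y = Ht (x, y) + C := by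
  have hw := O.hw
  have hh := O.hh
  refine diff_const (K := Hl) (H := fun x y => Ht (x, y)) (fun x y a b c d => ?_)
    (fun x y a b c d => ?_)
  · have hr : RC (RT 0 w 0 h) (he (x, y)) := RC_he a b c d (by omega)
    rw [← hl.hor x y a b c d, S3 O R hr, (gprim_edge hg).1 hr]
  · have hr : RC (RT 0 w 0 h) (ve (x, y)) := RC_ve a b c d (by omega)
    rw [← hl.ver x y a b c d, S3 O R hr, (gprim_edge hg).2 hr]

end Pool.Agent.H74.R45
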