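import Mathlib
import Pool.Agent.H74.R45.SPot

set_option autoImplicit false
open Finset

/-! # The natural rectangle below

`UN O` : the open labels of the natural environment of the rectangle `[0,w) × [-1,h-1)`: columns `-1`,
`w` on `[-1,h-1)`, columns `-2`, `w+1` on `[-1,h)`, and the far labels. `S4` : with the weights `[0, 1]`
the environment `h` is the environment `XU O` of the open labels `UN O`. -/

namespace Pool.Agent.H74.R45

open Pool.Agent.H75.Perc hiding ph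
open Pool.Agent.H75.TwoArm Pool.Agent.Q1 Pool.Agent.H33.Q1
open Pool.Agent.H75.Four Pool.Agent.H69.Q1

variable {w h : ℤ}

/-- open labels, environment `h`, deterministic row and column -/
noncomputable def CU (O : Out w h) : Finset (ℤ × ℤ) :=
  WJ w h h O.Wo ∪ (RT 0 w (h - 1) h ∪ RT w (w + 1) (-1) (h - 1)).filter pO

/-- open labels of the natural rectangle below -/
noncomputable def UN (O : Out w h) : Finset (ℤ × ℤ) :=
  RT (-1) 0 (-1) (h - 1) ∪ RT w (w + 1) (-1) (h - 1) ∪ RT (-2) (-1) (-1) h ∪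
    RT (w + 1) (w + 2) (-1) h ∪ O.Wo

section mem

variable {O : Out w h} {x y : ℤ}

lemma mem_CU (hn : -2 ≤ x ∧ x < w + 2 ∧ -2 ≤ y ∧ y ≤ h) : lt (x, y) ∈ CU O ↔
    (x = -1 ∧ -1 ≤ y ∧ y < h - 1) ∨ (x = w ∧ h - 1 ≤ y ∧ y < h) ∨
    ((x = -2 ∨ x = w + 1) ∧ -1 ≤ y ∧ y < h) ∨
    (((0 ≤ x ∧ x < w ∧ y = h - 1) ∨ (x = w ∧ -1 ≤ y ∧ y < h - 1)) ∧ (x + y) % 2 = 1) := by
  unfold CU
  rw [mem_union, mem_WJ hn, mem_WR, mem_filter, mem_union, lt_mem_RT, lt_mem_RT, pO_lt]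
  omega

lemma mem_UN (hn : -2 ≤ x ∧ x < w + 2 ∧ -2 ≤ y ∧ y ≤ h) : lt (x, y) ∈ UN O ↔
    ((x = -1 ∨ x = w) ∧ -1 ≤ y ∧ y < h - 1) ∨ ((x = -2 ∨ x = w + 1) ∧ -1 ≤ y ∧ y < h) := by
  have := fun h' => O.far x y h' hn
  unfold UN
  rw [mem_union, mem_union, mem_union, mem_union, lt_mem_RT, lt_mem_RT, lt_mem_RT, lt_mem_RT]
  constructor
  · rintro ((((h1 | h1) | h1) | h1) | h1)
    · omega
    · omega
    · omega
    · omega
    · exact absurd h1 this
  · intro h1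
    left
    omega

lemma iCU (H : (-2 ≤ x ∧ x < w + 2 ∧ -2 ≤ y ∧ y ≤ h) ∧
    ((x = -1 ∧ -1 ≤ y ∧ y < h - 1) ∨ (x = w ∧ h - 1 ≤ y ∧ y < h) ∨
    ((x = -2 ∨ x = w + 1) ∧ -1 ≤ y ∧ y < h) ∨
    (((0 ≤ x ∧ x < w ∧ y = h - 1) ∨ (x = w ∧ -1 ≤ y ∧ y < h - 1)) ∧ (x + y) % 2 = 1))) :
    lt (x, y) ∈ CU O := (mem_CU H.1).2 H.2

lemma nCU (H : (-2 ≤ x ∧ x < w + 2 ∧ -2 ≤ y ∧ y ≤ h) ∧
    ¬ ((x = -1 ∧ -1 ≤ y ∧ y < h - 1) ∨ (x = w ∧ h - 1 ≤ y ∧ y < h) ∨
    ((x = -2 ∨ x = w + 1) ∧ -1 ≤ y ∧ y < h) ∨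
    (((0 ≤ x ∧ x < w ∧ y = h - 1) ∨ (x = w ∧ -1 ≤ y ∧ y < h - 1)) ∧ (x + y) % 2 = 1))) :
    lt (x, y) ∉ CU O := fun h' => H.2 ((mem_CU H.1).1 h')

lemma iUN (H : (-2 ≤ x ∧ x < w + 2 ∧ -2 ≤ y ∧ y ≤ h) ∧
    (((x = -1 ∨ x = w) ∧ -1 ≤ y ∧ y < h - 1) ∨ ((x = -2 ∨ x = w + 1) ∧ -1 ≤ y ∧ y < h))) :
    lt (x, y) ∈ UN O := (mem_UN H.1).2 H.2

lemma nUN (H : (-2 ≤ x ∧ x < w + 2 ∧ -2 ≤ y ∧ y ≤ h) ∧
    ¬ (((x = -1 ∨ x = w) ∧ -1 ≤ y ∧ y < h - 1) ∨ ((x = -2 ∨ x = w + 1) ∧ -1 ≤ y ∧ y < h))) :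
    lt (x, y) ∉ UN O := fun h' => H.2 ((mem_UN H.1).1 h')

lemma nCUE (H : ¬ (0 ≤ x ∧ x < w ∧ -1 ≤ y ∧ y < h - 1)) : lt (x, y) ∉ RT 0 w (-1) (h - 1) :=
  fun h' => H (lt_mem_RT.1 h')

lemma nUNE (H : ¬ (0 ≤ x ∧ x < w ∧ -1 ≤ y ∧ y < h - 1)) : lt (x, y) ∉ RT 0 w (-1) (h - 1) :=
  fun h' => H (lt_mem_RT.1 h')

end mem

section wires

variable (O : Out w h)

/-! #### the wires of `CU` -/

lemma CU_left {m : ℤ} (a : 0 ≤ m) (b : 2 * m + 2 < h) :
    DW (CU O) (RT 0 w (-1) (h - 1)) (ve (0, 2 * m)) (ve (0, 2 * m + 1)) (-2) := by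
  have := O.hw
  have := O.w2
  have := O.hh
  have := O.h2
  exact (DW.WN (t := -1) (by omega) (nCUE (by omega)) (iCU (by omega))
    (DW.NE (t := 0) (by omega) (nCUE (by omega)) (iCU (by omega))
    (DW.to (ve_eq (by omega) (by omega))) (by norm_num)) (by norm_num))

lemma CU_NW :
    DW (CU O) (RT 0 w (-1) (h - 1)) (ve (0, h - 2)) (he (-2, h)) (-1) := by
  have := O.hw
  have := O.w2
  have := O.hh
  have := O.h2
  exact (DW.WN (t := 0) (by omega) (nCUE (by omega)) (iCU (by omega))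
    (DW.NW (t := -1) (by omega) (nCUE (by omega)) (nCU (by omega))
    (DW.WN (t := 0) (by omega) (nCUE (by omega)) (iCU (by omega))
    (DW.to (he_eq (by omega) (by omega))) (by norm_num)) (by norm_num)) (by norm_num))

lemma CU_top {m : ℤ} (a : 0 ≤ m) (b : 2 * m < w) :
    DW (CU O) (RT 0 w (-1) (h - 1)) (he (2 * m + 1, h - 1)) (he (2 * m, h - 1)) 2 := by
  have := O.hw
  have := O.w2
  have := O.hh
  have := O.h2
  exact (DW.NW (t := 1) (by omega) (nCUE (by omega)) (nCU (by omega))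
    (DW.WN (t := 2) (by omega) (nCUE (by omega)) (iCU (by omega))
    (DW.NW (t := 1) (by omega) (nCUE (by omega)) (nCU (by omega))
    (DW.WS (t := 0) (by omega) (nCUE (by omega)) (nCU (by omega))
    (DW.SE (t := -1) (by omega) (nCUE (by omega)) (nCU (by omega))
    (DW.ES (t := 0) (by omega) (nCUE (by omega)) (iCU (by omega))
    (DW.to (he_eq (by omega) (by omega))) (by norm_num)) (by norm_num)) (by norm_num)) (by norm_num)) (by norm_num)) (by norm_num))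

lemma CU_right {m : ℤ} (a : 0 ≤ m) (b : 2 * m + 2 < h) :
    DW (CU O) (RT 0 w (-1) (h - 1)) (ve (w, 2 * m + 1)) (ve (w, 2 * m)) (-2) := by
  have := O.hw
  have := O.w2
  have := O.hh
  have := O.h2
  exact (DW.ES (t := -1) (by omega) (nCUE (by omega)) (iCU (by omega))
    (DW.SE (t := -2) (by omega) (nCUE (by omega)) (nCU (by omega))
    (DW.ES (t := -1) (by omega) (nCUE (by omega)) (iCU (by omega))
    (DW.SW (t := 0) (by omega) (nCUE (by omega)) (iCU (by omega))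
    (DW.WN (t := 1) (by omega) (nCUE (by omega)) (iCU (by omega))
    (DW.NW (t := 0) (by omega) (nCUE (by omega)) (nCU (by omega))
    (DW.to (ve_eq (by omega) (by omega))) (by norm_num)) (by norm_num)) (by norm_num)) (by norm_num)) (by norm_num)) (by norm_num))

lemma CU_SE :
    DW (CU O) (RT 0 w (-1) (h - 1)) (ve (w, -1)) (ve (w + 1, -2)) 0 := by
  have := O.hw
  have := O.w2
  have := O.hh
  have := O.h2
  exact (DW.ES (t := 1) (by omega) (nCUE (by omega)) (iCU (by omega))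
    (DW.SE (t := 0) (by omega) (nCUE (by omega)) (nCU (by omega))
    (DW.to (ve_eq (by omega) (by omega))) (by norm_num)) (by norm_num))

lemma CU_bot {m : ℤ} (a : 0 ≤ m) (b : 2 * m < w) :
    DW (CU O) (RT 0 w (-1) (h - 1)) (he (2 * m, -1)) (he (2 * m + 1, -1)) 2 := by
  have := O.hw
  have := O.w2
  have := O.hh
  have := O.h2
  exact (DW.SE (t := 1) (by omega) (nCUE (by omega)) (nCU (by omega))
    (DW.EN (t := 0) (by omega) (nCUE (by omega)) (nCU (by omega))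
    (DW.to (he_eq (by omega) (by omega))) (by norm_num)) (by norm_num))

lemma CU_SW :
    DW (CU O) (RT 0 w (-1) (h - 1)) (ve (-1, -2)) (ve (0, -1)) 0 := by
  have := O.hw
  have := O.w2
  have := O.hh
  have := O.h2
  exact (DW.EN (t := -1) (by omega) (nCUE (by omega)) (nCU (by omega))
    (DW.NE (t := 0) (by omega) (nCUE (by omega)) (iCU (by omega))
    (DW.to (ve_eq (by omega) (by omega))) (by norm_num)) (by norm_num))

lemma CU_NE :
    DW (CU O) (RT 0 w (-1) (h - 1)) (he (w + 1, h)) (ve (w, h - 2)) (-1) := by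
  have := O.hw
  have := O.w2
  have := O.hh
  have := O.h2
  exact (DW.SW (t := 0) (by omega) (nCUE (by omega)) (iCU (by omega))
    (DW.WN (t := 1) (by omega) (nCUE (by omega)) (iCU (by omega))
    (DW.NW (t := 0) (by omega) (nCUE (by omega)) (nCU (by omega))
    (DW.WS (t := -1) (by omega) (nCUE (by omega)) (nCU (by omega))
    (DW.SE (t := -2) (by omega) (nCUE (by omega)) (nCU (by omega))
    (DW.ES (t := -1) (by omega) (nCUE (by omega)) (iCU (by omega))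
    (DW.SE (t := -2) (by omega) (nCUE (by omega)) (nCU (by omega))
    (DW.ES (t := -1) (by omega) (nCUE (by omega)) (iCU (by omega))
    (DW.SW (t := 0) (by omega) (nCUE (by omega)) (iCU (by omega))
    (DW.WN (t := 1) (by omega) (nCUE (by omega)) (iCU (by omega))
    (DW.NW (t := 0) (by omega) (nCUE (by omega)) (nCU (by omega))
    (DW.to (ve_eq (by omega) (by omega))) (by norm_num)) (by norm_num)) (by norm_num)) (by norm_num)) (by norm_num)) (by norm_num)) (by norm_num)) (by norm_num)) (by norm_num)) (by norm_num)) (by norm_num))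

/-! #### the wires of `UN` -/

lemma UN_left {m : ℤ} (a : 0 ≤ m) (b : 2 * m + 2 < h) :
    DW (UN O) (RT 0 w (-1) (h - 1)) (ve (0, 2 * m)) (ve (0, 2 * m + 1)) (-2) := by
  have := O.hw
  have := O.w2
  have := O.hh
  have := O.h2
  exact (DW.WN (t := -1) (by omega) (nUNE (by omega)) (iUN (by omega))
    (DW.NE (t := 0) (by omega) (nUNE (by omega)) (iUN (by omega))
    (DW.to (ve_eq (by omega) (by omega))) (by norm_num)) (by norm_num))

lemma UN_NW :
    DW (UN O) (RT 0 w (-1) (h - 1)) (ve (0, h - 2)) (he (-2, h)) (-1) := by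
  have := O.hw
  have := O.w2
  have := O.hh
  have := O.h2
  exact (DW.WN (t := 0) (by omega) (nUNE (by omega)) (iUN (by omega))
    (DW.NW (t := -1) (by omega) (nUNE (by omega)) (nUN (by omega))
    (DW.WN (t := 0) (by omega) (nUNE (by omega)) (iUN (by omega))
    (DW.to (he_eq (by omega) (by omega))) (by norm_num)) (by norm_num)) (by norm_num))

lemma UN_top {m : ℤ} (a : 0 ≤ m) (b : 2 * m < w) :
    DW (UN O) (RT 0 w (-1) (h - 1)) (he (2 * m + 1, h - 1)) (he (2 * m, h - 1)) 2 := by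
  have := O.hw
  have := O.w2
  have := O.hh
  have := O.h2
  exact (DW.NW (t := 1) (by omega) (nUNE (by omega)) (nUN (by omega))
    (DW.WS (t := 0) (by omega) (nUNE (by omega)) (nUN (by omega))
    (DW.to (he_eq (by omega) (by omega))) (by norm_num)) (by norm_num))

lemma UN_right {m : ℤ} (a : 0 ≤ m) (b : 2 * m + 2 < h) :
    DW (UN O) (RT 0 w (-1) (h - 1)) (ve (w, 2 * m + 1)) (ve (w, 2 * m)) (-2) := by
  have := O.hw
  have := O.w2
  have := O.hh
  have := O.h2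
  exact (DW.ES (t := -1) (by omega) (nUNE (by omega)) (iUN (by omega))
    (DW.SW (t := 0) (by omega) (nUNE (by omega)) (iUN (by omega))
    (DW.to (ve_eq (by omega) (by omega))) (by norm_num)) (by norm_num))

lemma UN_SE :
    DW (UN O) (RT 0 w (-1) (h - 1)) (ve (w, -1)) (ve (w + 1, -2)) 0 := by
  have := O.hw
  have := O.w2
  have := O.hh
  have := O.h2
  exact (DW.ES (t := 1) (by omega) (nUNE (by omega)) (iUN (by omega))
    (DW.SE (t := 0) (by omega) (nUNE (by omega)) (nUN (by omega))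
    (DW.to (ve_eq (by omega) (by omega))) (by norm_num)) (by norm_num))

lemma UN_bot {m : ℤ} (a : 0 ≤ m) (b : 2 * m < w) :
    DW (UN O) (RT 0 w (-1) (h - 1)) (he (2 * m, -1)) (he (2 * m + 1, -1)) 2 := by
  have := O.hw
  have := O.w2
  have := O.hh
  have := O.h2
  exact (DW.SE (t := 1) (by omega) (nUNE (by omega)) (nUN (by omega))
    (DW.EN (t := 0) (by omega) (nUNE (by omega)) (nUN (by omega))
    (DW.to (he_eq (by omega) (by omega))) (by norm_num)) (by norm_num))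

lemma UN_SW :
    DW (UN O) (RT 0 w (-1) (h - 1)) (ve (-1, -2)) (ve (0, -1)) 0 := by
  have := O.hw
  have := O.w2
  have := O.hh
  have := O.h2
  exact (DW.EN (t := -1) (by omega) (nUNE (by omega)) (nUN (by omega))
    (DW.NE (t := 0) (by omega) (nUNE (by omega)) (iUN (by omega))
    (DW.to (ve_eq (by omega) (by omega))) (by norm_num)) (by norm_num))

lemma UN_NE :
    DW (UN O) (RT 0 w (-1) (h - 1)) (he (w + 1, h)) (ve (w, h - 2)) (-1) := by
  have := O.hw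
  have := O.w2
  have := O.hh
  have := O.h2
  exact (DW.SW (t := 0) (by omega) (nUNE (by omega)) (iUN (by omega))
    (DW.WS (t := -1) (by omega) (nUNE (by omega)) (nUN (by omega))
    (DW.SW (t := 0) (by omega) (nUNE (by omega)) (iUN (by omega))
    (DW.to (ve_eq (by omega) (by omega))) (by norm_num)) (by norm_num)) (by norm_num))



/-! ### (S4) -/

lemma UN_sub : UN O ⊆ GA w h ∪ O.Wo := by
  have := O.hw
  intro e he
  unfold UN at he
  rw [mem_union] at he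
  rw [mem_union]
  refine he.imp (fun he => ?_) id
  obtain ⟨x, y, rfl⟩ : ∃ x y, e = lt (x, y) := by
    rw [mem_union, mem_union, mem_union] at he
    rcases he with ((he | he) | he) | he <;> exact exists_lt (odd_RT he)
  rw [mem_union, mem_union, mem_union, lt_mem_RT, lt_mem_RT, lt_mem_RT, lt_mem_RT] at he
  unfold GA
  rw [lt_mem_RT]
  omega

lemma RTU_sub : RT 0 w (-1) (h - 1) ⊆ GA w h := by
  intro e he
  obtain ⟨x, y, rfl⟩ := exists_lt (odd_RT he)
  rw [lt_mem_RT] at he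
  unfold GA
  rw [lt_mem_RT]
  omega

lemma disj_UN : Disjoint (RT 0 w (-1) (h - 1)) (UN O) := by
  have := O.hw
  rw [disjoint_left]
  intro e he
  obtain ⟨x, y, rfl⟩ := exists_lt (odd_RT he)
  rw [lt_mem_RT] at he
  exact nUN (by omega)

lemma disj_CU : Disjoint (RT 0 w (-1) (h - 1)) (CU O) := by
  have := O.hw
  rw [disjoint_left]
  intro e he
  obtain ⟨x, y, rfl⟩ := exists_lt (odd_RT he)
  rw [lt_mem_RT] at he
  exact nCU (by omega)

/-- **The natural rectangle below.** -/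
noncomputable def XU (O : Out w h) : Env :=
  Env.plane (RT 0 w (-1) (h - 1)) (UN O) O.c0 O.k0 O.g (fun _ he => odd_RT he) (disj_UN O) O.hk
    (fun h => O.hroot (RTU_sub h)) (O.hg.anti (union_subset
      (RTU_sub.trans subset_union_left) (UN_sub O)))
    (fun v hv => O.hlow v (hv.mono (union_subset (RTU_sub.trans subset_union_left) (UN_sub O))))

/-- the outer labels of `UN` -/
lemma UN_outer {x : ℤ × ℤ} (hx : x ∉ IB w h) : x ∈ UN O ↔ x ∈ OW O := by
  unfold UN OW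
  simp only [mem_union]
  constructor
  · rintro ((((h1 | h1) | h1) | h1) | h1)
    · exfalso; apply hx
      obtain ⟨a, b, rfl⟩ := exists_lt (odd_RT h1)
      rw [lt_mem_RT] at h1
      rw [mem_IB]; have := O.hw; omega
    · exfalso; apply hx
      obtain ⟨a, b, rfl⟩ := exists_lt (odd_RT h1)
      rw [lt_mem_RT] at h1
      rw [mem_IB]; have := O.hw; omega
    · exact Or.inl (Or.inl h1)
    · exact Or.inl (Or.inr h1)
    · exact Or.inr h1
  · rintro ((h1 | h1) | h1)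
    · exact Or.inl (Or.inl (Or.inr h1))
    · exact Or.inl (Or.inr h1)
    · exact Or.inr h1

lemma RTU_IB : RT 0 w (-1) (h - 1) ⊆ IB w h := by
  intro e he
  obtain ⟨x, y, rfl⟩ := exists_lt (odd_RT he)
  rw [lt_mem_RT] at he
  rw [mem_IB]
  omega

lemma CU_outer {x : ℤ × ℤ} (hx : x ∉ IB w h) : x ∈ CU O ↔ x ∈ OW O := by
  have hw := O.hw
  have hh := O.hh
  rw [← OW_iff (O := O) (j := h) (by omega) le_rfl hx]
  unfold CU
  rw [mem_union]
  refine ⟨fun h' => h'.resolve_right fun h1 => hx ?_, Or.inl⟩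
  have h2 := (mem_filter.1 h1).1
  obtain ⟨a, b, rfl⟩ : ∃ a b, x = lt (a, b) := by
    rcases mem_union.1 h2 with h2 | h2 <;> exact exists_lt (odd_RT h2)
  rw [mem_union, lt_mem_RT, lt_mem_RT] at h2
  rw [mem_IB]
  omega

lemma U_in {b : ℤ × ℤ} (hb : IsEnt w h b) : ∃ c' s, lab c' ∈ RT 0 w (-1) (h - 1) ∧
    DW (CU O) (RT 0 w (-1) (h - 1)) b c' s ∧ DW (UN O) (RT 0 w (-1) (h - 1)) b c' s := by
  have := O.hw
  have := O.w2
  have := O.hh
  have := O.h2
  rcases hb with rfl | rfl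
  · refine ⟨_, _, ?_, CU_SW O, UN_SW O⟩
    rw [lab_ve_E (by omega), lt_mem_RT]; omega
  · refine ⟨_, _, ?_, CU_NE O, UN_NE O⟩
    rw [lab_ve_W (by omega), lt_mem_RT]; omega

lemma U_wires {c : ℤ × ℤ} (hp : plab c ∈ RT 0 w (-1) (h - 1))
    (hl : lab c ∉ RT 0 w (-1) (h - 1)) :
    ∃ c' s, lab c' ∈ RT 0 w (-1) (h - 1) ∧ DW (CU O) (RT 0 w (-1) (h - 1)) c c' s ∧
      DW (UN O) (RT 0 w (-1) (h - 1)) c c' s := by
  have hw := O.hw
  have w2 := O.w2
  have hh := O.hh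
  have h2 := O.h2
  obtain ⟨σ, τ, H⟩ := wires_OW O
  have thru : ∀ {a : ℤ × ℤ} {t : ℤ}, IsExt w h a → DW (CU O) (RT 0 w (-1) (h - 1)) c a t →
      DW (UN O) (RT 0 w (-1) (h - 1)) c a t → ∃ c' s, lab c' ∈ RT 0 w (-1) (h - 1) ∧
      DW (CU O) (RT 0 w (-1) (h - 1)) c c' s ∧ DW (UN O) (RT 0 w (-1) (h - 1)) c c' s := by
    intro a t ha d1 d2
    obtain ⟨hb, hw'⟩ := H a ha
    obtain ⟨c', s, g1, g2, g3⟩ := U_in O hb
    exact ⟨c', _, g1, (d1.trans (hw' _ _ (fun x hx => CU_outer O hx) RTU_IB)).trans g2,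
      (d2.trans (hw' _ _ (fun x hx => UN_outer O hx) RTU_IB)).trans g3⟩
  rcases rect_exit hp hl with ⟨y, rfl, k1, k2, k3, -⟩ | ⟨y, rfl, k1, k2, k3, -⟩ |
    ⟨x, rfl, k1, k2, k3, -⟩ | ⟨x, rfl, k1, k2, k3, -⟩
  · obtain ⟨m, rfl⟩ : ∃ m, y = 2 * m := ⟨y / 2, by omega⟩
    by_cases hy : 2 * m + 2 < h
    · refine ⟨_, _, ?_, CU_left O (by omega) hy, UN_left O (by omega) hy⟩
      rw [lab_ve_E (by omega), lt_mem_RT]; omega
    · have e : ve ((0 : ℤ), 2 * m) = ve (0, h - 2) := ve_eq rfl (by omega)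
      refine thru (Or.inl rfl) (t := -1) ?_ ?_
      · rw [e]; exact CU_NW O
      · rw [e]; exact UN_NW O
  · obtain ⟨m, rfl⟩ : ∃ m, y = 2 * m + 1 := ⟨y / 2, by omega⟩
    by_cases hy : m = -1
    · have e : ve ((w : ℤ), 2 * m + 1) = ve (w, -1) := ve_eq rfl (by omega)
      refine thru (Or.inr rfl) (t := 0) ?_ ?_
      · rw [e]; exact CU_SE O
      · rw [e]; exact UN_SE O
    · refine ⟨_, _, ?_, CU_right O (by omega) (by omega), UN_right O (by omega) (by omega)⟩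
      rw [lab_ve_W (by omega), lt_mem_RT]; omega
  · obtain ⟨m, rfl⟩ : ∃ m, x = 2 * m + 1 := ⟨x / 2, by omega⟩
    refine ⟨_, _, ?_, CU_top O (by omega) (by omega), UN_top O (by omega) (by omega)⟩
    rw [lab_he_S (by omega), lt_mem_RT]; omega
  · obtain ⟨m, rfl⟩ : ∃ m, x = 2 * m := ⟨x / 2, by omega⟩
    refine ⟨_, _, ?_, CU_bot O (by omega) (by omega), UN_bot O (by omega) (by omega)⟩
    rw [lab_he_N (by omega), lt_mem_RT]; omega

/-- environment `h`, deterministic row and column -/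
lemma FJ_CU (c : ℤ × ℤ) : FJ O 0 1 h c =
    Pool.Agent.H13.Q1.iW (RT 0 w (-1) (h - 1)) (CU O) (fun _ => 1 / 2) O.c0 O.k0 c := by
  have hw := O.hw
  have hh := O.hh
  have hD : RT 0 w (h - 1) h ∪ RT w (w + 1) (-1) (h - 1) ⊆ EJ w h h :=
    union_subset (sub_BL O).2.2.2 (sub_AL O).2.2.2
  have hE : EJ w h h \ (RT 0 w (h - 1) h ∪ RT w (w + 1) (-1) (h - 1)) = RT 0 w (-1) (h - 1) := by
    refine ext_lt (fun e he => odd_EJ (mem_sdiff.1 he).1) (fun e he => odd_RT he) fun x y => ?_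
    rw [mem_sdiff, mem_EJ, mem_union, lt_mem_RT, lt_mem_RT, lt_mem_RT]; omega
  rw [FJ_eq (by omega) le_rfl]
  unfold XJ
  rw [Pool.Agent.H13.Q1.plane_incW, iW_det hD (p := pO) (fun e he => ?_), hE]
  · unfold Pool.Agent.H13.Q1.iW CU
    refine Ec_congr_q (fun e he => ?_) _
    obtain ⟨x, y, rfl⟩ := exists_lt (odd_RT he)
    rw [lt_mem_RT] at he
    unfold qJ
    simp only [tt_lt]
    rw [if_neg (by omega), if_neg (by omega)]
  · rcases mem_union.1 he with he | he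
    · obtain ⟨x, y, rfl⟩ := exists_lt (odd_RT he)
      rw [lt_mem_RT] at he
      exact qJ_row0 (by omega) (by omega)
    · obtain ⟨x, y, rfl⟩ := exists_lt (odd_RT he)
      rw [lt_mem_RT] at he
      exact qJ_col (Or.inr (by omega))

lemma XU_iW (q : ℤ × ℤ → ℂ) (c : ℤ × ℤ) : (XU O).incW q c =
    Pool.Agent.H13.Q1.iW (RT 0 w (-1) (h - 1)) (UN O) q O.c0 O.k0 c :=
  Pool.Agent.H13.Q1.plane_incW _ _

/-- **(S4)** -/
theorem S4 (R : RootOut O) {c : ℤ × ℤ} (hc : RC (RT 0 w (-1) (h - 1)) c) :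
    FJ O 0 1 h c = (XU O).inc c := by
  obtain ⟨b, t, hb, H⟩ := root_OW O R
  obtain ⟨e, s, g1, g2, g3⟩ := U_in O hb
  have hw := O.hw
  have hh := O.hh
  have e1 : (XU O).inc c =
      Pool.Agent.H13.Q1.iW (RT 0 w (-1) (h - 1)) (UN O) (fun _ => 1 / 2) O.c0 O.k0 c := by
    rw [← XU_iW, Env.inc_eq]
    rfl
  rw [e1, FJ_CU, iW_comp (disj_CU O) (disj_UN O) (fun c h1 h2 => U_wires O h1 h2) g1
    ((H _ _ (fun x hx => CU_outer O hx) RTU_IB).trans g2)
    ((H _ _ (fun x hx => UN_outer O hx) RTU_IB).trans g3)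
    (plab_c0 (by omega) (by omega) (by omega) (by omega))
    (plab_c0 (by omega) (by omega) (by omega) (by omega)) hc (k0' := O.k0), sub_self, ph_zero,
    one_mul]

end wires

/-- **(S4)** for the potentials -/
theorem S4_pot {O : Out w h} (R : RootOut O) {Hu : ℤ → ℤ → ℂ}
    (hu : Pot (FJ O 0 1 h) Hu 0 w (-1) (h - 1))
    {Ht : ℤ × ℤ → ℂ} (hg : H21.FM.GPrim (XU O) Ht) :
    ∃ C, ∀ x y, 0 ≤ x → x ≤ w → -1 ≤ y → y ≤ h - 1 → Hu x y = Ht (x, y) + C := by
  have hw := O.hw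
  have hh := O.hh
  refine diff_const (K := Hu) (H := fun x y => Ht (x, y)) (fun x y a b c d => ?_)
    (fun x y a b c d => ?_)
  · have hr : RC (RT 0 w (-1) (h - 1)) (he (x, y)) := RC_he a b c d (by omega)
    rw [← hu.hor x y a b c d, S4 O R hr, (gprim_edge hg).1 hr]
  · have hr : RC (RT 0 w (-1) (h - 1)) (ve (x, y)) := RC_ve a b c d (by omega)
    rw [← hu.ver x y a b c d, S4 O R hr, (gprim_edge hg).2 hr]

end Pool.Agent.H74.R45
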