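import Mathlib
import Pool.Agent.H74.R45.NatU
import Pool.Agent.H33.FM.Mirror

set_option autoImplicit false
open Finset

/-! # The mirror of the Dobrushin environments

Grid points `(x, y) ↦ (w - x, y)`. The natural rectangles `XN`, `XU` are mirror symmetric
(`XN_mir`, `XU_mir`). `mir_e` : the difference `e (x, y) = Hl (x, y) - Hu (x, y - 1)` of the two
Dobrushin environments (weights `[0, 1]`) and the mirror of the same function for the mirrored outside
differ by the displacement of the mark at NW (`XA` instead of `XN`). -/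

namespace Pool.Agent.H74.R45

open Pool.Agent.H75.Perc hiding ph
open Pool.Agent.H75.TwoArm Pool.Agent.Q1 Pool.Agent.H33.Q1
open Pool.Agent.H75.Four Pool.Agent.H69.Q1
open Pool.Agent.Q1.M6c (ml mc ml_inj PlaneEnv planeEnv_plane mirror_inc plab_mc lab_mc ml_odd)

variable {w h : ℤ}

/-- **The mirrored outside.** -/
structure OutM (O O' : Out w h) : Prop where
  odd : ∀ e ∈ O.Wo, (e.1 + e.2) % 2 = 1
  img : O'.Wo = O.Wo.image (ml (w / 2))
  c0 : O'.c0 = mc (w / 2) O.c0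
  lab0 : lab O.c0 ∉ GA w h

variable {O O' : Out w h}

lemma mw (O : Out w h) : 2 * (w / 2) = w := by have := O.w2; omega

lemma ml_lt (O : Out w h) (x y : ℤ) : ml (w / 2) (lt (x, y)) = lt (w - 1 - x, y) := by
  have := mw O
  unfold ml lt
  refine Prod.ext ?_ ?_ <;> dsimp only <;> rw [this] <;> ring

lemma mc_ve (O : Out w h) (x y : ℤ) : mc (w / 2) (ve (x, y)) = ve (w - x, y) := by
  have := mw O
  unfold mc ve
  refine Prod.ext ?_ ?_ <;> dsimp only <;> rw [this] <;> ring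

lemma mc_he (O : Out w h) (x y : ℤ) : mc (w / 2) (he (x, y)) = he (w - 1 - x, y) := by
  have := mw O
  unfold mc he
  refine Prod.ext ?_ ?_ <;> dsimp only <;> rw [this] <;> ring

lemma image_ml_RT (O : Out w h) {x0 x1 y0 y1 : ℤ} :
    (RT x0 x1 y0 y1).image (ml (w / 2)) = RT (w - x1) (w - x0) y0 y1 := by
  refine ext_lt (fun e he => ?_) (fun e he => odd_RT he) fun x y => ?_
  · obtain ⟨f, hf, rfl⟩ := mem_image.1 he
    exact ml_odd (odd_RT hf)
  · rw [lt_mem_RT, mem_image]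
    constructor
    · rintro ⟨f, hf, h'⟩
      obtain ⟨x', y', rfl⟩ := exists_lt (odd_RT hf)
      rw [ml_lt O] at h'
      have := lt_inj h'
      simp only [Prod.mk.injEq] at this
      rw [lt_mem_RT] at hf
      omega
    · intro h'
      refine ⟨lt (w - 1 - x, y), ?_, ?_⟩
      · rw [lt_mem_RT]; omega
      · rw [ml_lt O]; congr 2; ring

lemma NN_mir (M : OutM O O') : NN O' = (NN O).image (ml (w / 2)) := by
  unfold NN
  rw [image_union, image_union, image_union, image_union, image_ml_RT O, image_ml_RT O,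
    image_ml_RT O, image_ml_RT O, ← M.img]
  congr 1
  have e1 : RT (w - (w + 2)) (w - (w + 1)) (-1) h = RT (-2) (-1) (-1) h := by
    rw [show w - (w + 2) = -2 by ring, show w - (w + 1) = -1 by ring]
  have e2 : RT (w - -1) (w - -2) (-1) h = RT (w + 1) (w + 2) (-1) h := by
    rw [sub_neg_eq_add, sub_neg_eq_add]
  have e3 : RT (w - (w + 1)) (w - w) 0 h = RT (-1) 0 0 h := by
    rw [show w - (w + 1) = -1 by ring, sub_self]
  have e4 : RT (w - 0) (w - -1) 0 h = RT w (w + 1) 0 h := by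
    rw [sub_zero, sub_neg_eq_add]
  rw [e1, e2, e3, e4]
  ext x
  simp only [mem_union]
  tauto

lemma UN_mir (M : OutM O O') : UN O' = (UN O).image (ml (w / 2)) := by
  unfold UN
  rw [image_union, image_union, image_union, image_union, image_ml_RT O, image_ml_RT O,
    image_ml_RT O, image_ml_RT O, ← M.img]
  congr 1
  have e1 : RT (w - (w + 2)) (w - (w + 1)) (-1) h = RT (-2) (-1) (-1) h := by
    rw [show w - (w + 2) = -2 by ring, show w - (w + 1) = -1 by ring]
  have e2 : RT (w - -1) (w - -2) (-1) h = RT (w + 1) (w + 2) (-1) h := by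
    rw [sub_neg_eq_add, sub_neg_eq_add]
  have e3 : RT (w - (w + 1)) (w - w) (-1) (h - 1) = RT (-1) 0 (-1) (h - 1) := by
    rw [show w - (w + 1) = -1 by ring, sub_self]
  have e4 : RT (w - 0) (w - -1) (-1) (h - 1) = RT w (w + 1) (-1) (h - 1) := by
    rw [sub_zero, sub_neg_eq_add]
  rw [e1, e2, e3, e4]
  ext x
  simp only [mem_union]
  tauto

lemma odd_NN (M : OutM O O') : ∀ e ∈ NN O, (e.1 + e.2) % 2 = 1 := by
  intro e he
  unfold NN at he
  rcases mem_union.1 he with he | he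
  · rw [mem_union, mem_union, mem_union] at he
    rcases he with ((he | he) | he) | he <;> exact odd_RT he
  · exact M.odd e he

lemma odd_UN (M : OutM O O') : ∀ e ∈ UN O, (e.1 + e.2) % 2 = 1 := by
  intro e he
  unfold UN at he
  rcases mem_union.1 he with he | he
  · rw [mem_union, mem_union, mem_union] at he
    rcases he with ((he | he) | he) | he <;> exact odd_RT he
  · exact M.odd e he

lemma odd_NN' (M : OutM O O') : ∀ e ∈ NN O', (e.1 + e.2) % 2 = 1 := by
  rw [NN_mir M]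
  intro e he
  obtain ⟨f, hf, rfl⟩ := mem_image.1 he
  exact ml_odd (odd_NN M f hf)

lemma odd_UN' (M : OutM O O') : ∀ e ∈ UN O', (e.1 + e.2) % 2 = 1 := by
  rw [UN_mir M]
  intro e he
  obtain ⟨f, hf, rfl⟩ := mem_image.1 he
  exact ml_odd (odd_UN M f hf)

/-- the constant of the mirror -/
noncomputable def kM (O O' : Out w h) : ℂ := ph (O.k0 + O'.k0 + 4)

lemma norm_kM : ‖kM O O'‖ = 1 := ph_norm _

/-- the mirror of the natural rectangle -/
theorem XN_mir (M : OutM O O') {c : ℤ × ℤ} (hc : RC (RT 0 w 0 h) c) :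
    (XN O').inc (mc (w / 2) c) = kM O O' * (starRingEnd ℂ) ((XN O).inc c) := by
  have h1 : PlaneEnv (XN O) (NN O) := planeEnv_plane (odd_NN M)
  have h2 : PlaneEnv (XN O') ((NN O).image (ml (w / 2))) := by
    rw [← NN_mir M]; exact planeEnv_plane (odd_NN' M)
  have hE : (XN O').E = (XN O).E.image (ml (w / 2)) := by
    show RT 0 w 0 h = (RT 0 w 0 h).image _
    rw [image_ml_RT O]; congr 1 <;> ring
  have key := mirror_inc (m := 0) (c1 := O.c0) h1 h2 hE (fun i hi => absurd hi (Nat.not_lt_zero i))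
    rfl (Or.inr ⟨fun h' => M.lab0 (RTN_sub h'), fun h' => O.hroot (RTN_sub h')⟩) M.c0 (c := c) hc
  rw [key]
  unfold kM
  congr 2
  show O.k0 + O'.k0 + 4 - KK _ _ _ 0 0 = _
  rw [KK_zero, sub_zero]

/-- the mirror of the natural rectangle below -/
theorem XU_mir (M : OutM O O') {c : ℤ × ℤ} (hc : RC (RT 0 w (-1) (h - 1)) c) :
    (XU O').inc (mc (w / 2) c) = kM O O' * (starRingEnd ℂ) ((XU O).inc c) := by
  have h1 : PlaneEnv (XU O) (UN O) := planeEnv_plane (odd_UN M)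
  have h2 : PlaneEnv (XU O') ((UN O).image (ml (w / 2))) := by
    rw [← UN_mir M]; exact planeEnv_plane (odd_UN' M)
  have hE : (XU O').E = (XU O).E.image (ml (w / 2)) := by
    show RT 0 w (-1) (h - 1) = (RT 0 w (-1) (h - 1)).image _
    rw [image_ml_RT O]; congr 1 <;> ring
  have key := mirror_inc (m := 0) (c1 := O.c0) h1 h2 hE (fun i hi => absurd hi (Nat.not_lt_zero i))
    rfl (Or.inr ⟨fun h' => M.lab0 (RTU_sub h'), fun h' => O.hroot (RTU_sub h')⟩) M.c0 (c := c) hc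
  rw [key]
  unfold kM
  congr 2
  show O.k0 + O'.k0 + 4 - KK _ _ _ 0 0 = _
  rw [KK_zero, sub_zero]

/-! ### Primitives -/

lemma sg_refl (O : Out w h) (x y : ℤ) : sg (w - x + y) = sg (x + y) :=
  sg_congr (by have := O.w2; omega)

lemma sg_refl' (O : Out w h) (x y : ℤ) : sg (w - 1 - x + y) = - sg (x + y) := by
  have hw := O.w2
  rcases Int.emod_two_eq_zero_or_one (x + y) with hp | hp
  · rw [sg_odd (show (w - 1 - x + y) % 2 = 1 by omega), sg_even hp]
  · rw [sg_even (show (w - 1 - x + y) % 2 = 0 by omega), sg_odd hp, neg_neg]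

lemma conj_sg (n : ℤ) : (starRingEnd ℂ) (sg n) = sg n := by
  rcases Int.emod_two_eq_zero_or_one n with hp | hp
  · rw [sg_even hp, map_one]
  · rw [sg_odd hp, map_neg, map_one]

lemma mc_ve' (O : Out w h) (x y : ℤ) : ve (x, y) = mc (w / 2) (ve (w - x, y)) := by
  rw [mc_ve O, sub_sub_cancel]

lemma mc_he' (O : Out w h) (x y : ℤ) : he (x, y) = mc (w / 2) (he (w - 1 - x, y)) := by
  rw [mc_he O, sub_sub_cancel]

/-- a primitive on the tile grid is a potential -/
lemma pot_of_gprim {X : Env} {x0 x1 y0 y1 : ℤ} (hE : X.E = RT x0 x1 y0 y1) (hx : x0 < x1)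
    (hy : y0 < y1) {Ht : ℤ × ℤ → ℂ} (hg : H21.FM.GPrim X Ht) :
    Pot (fun c => X.inc c) (fun x y => Ht (x, y)) x0 x1 y0 y1 where
  hor := fun x y a b c d => (gprim_edge hg).1 (by rw [hE]; exact RC_he a b c d hy)
  ver := fun x y a b c d => (gprim_edge hg).2 (by rw [hE]; exact RC_ve a b c d hx)

/-- potentials of mirrored increments -/
lemma mir_pot (O : Out w h) {F F' : ℤ × ℤ → ℂ} {k : ℂ} {y0 y1 : ℤ} {H H' : ℤ → ℤ → ℂ}
    (hF : ∀ c, RC (RT 0 w y0 y1) c → F' (mc (w / 2) c) = k * (starRingEnd ℂ) (F c)) (hy : y0 < y1)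
    (hp : Pot F H 0 w y0 y1) (hp' : Pot F' H' 0 w y0 y1) :
    ∃ C, ∀ x y, 0 ≤ x → x ≤ w → y0 ≤ y → y ≤ y1 →
      H' x y = k * (starRingEnd ℂ) (H (w - x) y) + C := by
  have hw := O.hw
  refine diff_const (K := H') (H := fun x y => k * (starRingEnd ℂ) (H (w - x) y))
    (fun x y a b c d => ?_) (fun x y a b c d => ?_)
  · have hr' : RC (RT 0 w y0 y1) (he (w - 1 - x, y)) :=
      RC_he (by omega) (by omega) c d hy
    have e1 := hp'.hor x y a b c d
    have e2 := hp.hor (w - 1 - x) y (by omega) (by omega) c d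
    rw [mc_he' O, hF _ hr'] at e1
    rw [sg_refl' O, show w - 1 - x + 1 = w - x by ring] at e2
    have e3 : H (w - x) y - H (w - (x + 1)) y = sg (x + y) * F (he (w - 1 - x, y)) := by
      rw [show w - (x + 1) = w - 1 - x by ring]
      linear_combination e2
    rw [← mul_sub, ← map_sub, e3, map_mul, conj_sg, ← e1]
    ring
  · have hr' : RC (RT 0 w y0 y1) (ve (w - x, y)) :=
      RC_ve (by omega) (by omega) c d (by omega)
    have e1 := hp'.ver x y a b c d
    have e2 := hp.ver (w - x) y (by omega) (by omega) c d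
    rw [mc_ve' O, hF _ hr'] at e1
    rw [sg_refl O] at e2
    rw [← mul_sub, ← map_sub, ← e2, map_mul, conj_sg, ← e1]
    ring

/-! ### The inverse mirror -/

lemma GA_mir (O : Out w h) {e : ℤ × ℤ} : ml (w / 2) e ∈ GA w h ↔ e ∈ GA w h := by
  have h1 : (GA w h).image (ml (w / 2)) = GA w h := by
    unfold GA
    rw [image_ml_RT O, show w - (w + 2) = -2 by ring, show w - -2 = w + 2 by ring]
  constructor
  · intro h2
    rw [← h1, mem_image] at h2
    obtain ⟨f, hf, h3⟩ := h2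
    rwa [ml_inj _ h3] at hf
  · intro h2
    rw [← h1]
    exact mem_image_of_mem _ h2

theorem OutM.symm (M : OutM O O') : OutM O' O where
  odd := by
    rw [M.img]
    intro e he
    obtain ⟨f, hf, rfl⟩ := mem_image.1 he
    exact ml_odd (M.odd f hf)
  img := by
    rw [M.img, image_image]
    have : ml (w / 2) ∘ ml (w / 2) = id := by
      funext x; exact Pool.Agent.Q1.M6c.ml_ml _ x
    rw [this, image_id]
  c0 := by rw [M.c0, Pool.Agent.Q1.M6c.mc_mc]
  lab0 := by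
    rw [M.c0, lab_mc, GA_mir O]
    exact O.hroot

lemma kM_comm : kM O' O = kM O O' := by
  unfold kM
  rw [add_comm O'.k0]

/-! ### The mirror of `e` -/

/-- **The mirror of `e`.** -/
theorem mir_e (M : OutM O O') (R : RootOut O) (R' : RootOut O') {Hl Hu Hl' Hu' : ℤ → ℤ → ℂ}
    (hl : Pot (FJ O 0 1 0) Hl 0 w 0 h) (hu : Pot (FJ O 0 1 h) Hu 0 w (-1) (h - 1))
    (hl' : Pot (FJ O' 0 1 0) Hl' 0 w 0 h) (hu' : Pot (FJ O' 0 1 h) Hu' 0 w (-1) (h - 1))
    {Ha Hn Ha' Hn' : ℤ → ℤ → ℂ} (ha : Pot (fun c => (XA O).inc c) Ha 0 w 0 h)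
    (hn : Pot (fun c => (XN O).inc c) Hn 0 w 0 h) (ha' : Pot (fun c => (XA O').inc c) Ha' 0 w 0 h)
    (hn' : Pot (fun c => (XN O').inc c) Hn' 0 w 0 h) : ∃ C, ∀ x y, 0 ≤ x → x ≤ w → 0 ≤ y → y ≤ h →
      Hl x y - Hu x (y - 1) = kM O O' * (starRingEnd ℂ) (Hl' (w - x) y - Hu' (w - x) (y - 1)) +
        (Ha x y - Hn x y) - kM O O' * (starRingEnd ℂ) (Ha' (w - x) y - Hn' (w - x) y) + C := by
  have hw := O.hw
  have hh := O.hh
  have s3 : ∀ {O : Out w h} (_ : RootOut O) {Hl Ha : ℤ → ℤ → ℂ} (_ : Pot (FJ O 0 1 0) Hl 0 w 0 h)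
      (_ : Pot (fun c => (XA O).inc c) Ha 0 w 0 h),
      ∃ C, ∀ x y, 0 ≤ x → x ≤ w → 0 ≤ y → y ≤ h → Hl x y = Ha x y + C := by
    intro O R Hl Ha hl ha
    refine diff_const (fun x y a b c d => ?_) (fun x y a b c d => ?_)
    · rw [← hl.hor x y a b c d, S3 O R (RC_he a b c d (by omega)), ha.hor x y a b c d]
    · rw [← hl.ver x y a b c d, S3 O R (RC_ve a b c d (by omega)), ha.ver x y a b c d]
  obtain ⟨C1, e1⟩ := s3 R hl ha
  obtain ⟨C2, e2⟩ := s3 R' hl' ha'
  obtain ⟨C5, e5⟩ := mir_pot O (fun c hc => XN_mir M.symm hc) (by omega) hn' hn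
  obtain ⟨C6, e6⟩ := mir_pot (F := FJ O' 0 1 h) (F' := FJ O 0 1 h) (k := kM O' O) O
    (fun c hc => by
      have hc' : RC (RT 0 w (-1) (h - 1)) (mc (w / 2) c) := by
        have e : (RT 0 w (-1) (h - 1)).image (ml (w / 2)) = RT 0 w (-1) (h - 1) := by
          rw [image_ml_RT O, sub_self, sub_zero]
        rcases hc with hc | hc
        · right; rw [plab_mc, ← e]; exact mem_image_of_mem _ hc
        · left; rw [lab_mc, ← e]; exact mem_image_of_mem _ hc
      rw [S4 O R hc', S4 O' R' hc]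
      exact XU_mir M.symm hc) (by omega) hu' hu
  rw [kM_comm] at e5 e6
  refine ⟨C1 + C5 - C6 - kM O O' * (starRingEnd ℂ) C2, fun x y a b c d => ?_⟩
  rw [e1 x y a b c d, e2 (w - x) y (by omega) (by omega) c d,
    e6 x (y - 1) a b (by omega) (by omega), e5 x y a b c d]
  simp only [map_sub, map_add]
  ring

/-- **The mirror of `e`**, bound by the displacements of the mark. -/
theorem mir_bound (M : OutM O O') (R : RootOut O) (R' : RootOut O') {Hl Hu Hl' Hu' : ℤ → ℤ → ℂ}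
    (hl : Pot (FJ O 0 1 0) Hl 0 w 0 h) (hu : Pot (FJ O 0 1 h) Hu 0 w (-1) (h - 1))
    (hl' : Pot (FJ O' 0 1 0) Hl' 0 w 0 h) (hu' : Pot (FJ O' 0 1 h) Hu' 0 w (-1) (h - 1))
    {Ha Hn Ha' Hn' : ℤ → ℤ → ℂ} (ha : Pot (fun c => (XA O).inc c) Ha 0 w 0 h)
    (hn : Pot (fun c => (XN O).inc c) Hn 0 w 0 h) (ha' : Pot (fun c => (XA O').inc c) Ha' 0 w 0 h)
    (hn' : Pot (fun c => (XN O').inc c) Hn' 0 w 0 h) {x y x' y' : ℤ} (a : 0 ≤ x) (b : x ≤ w)
    (c : 0 ≤ y) (d : y ≤ h) (a' : 0 ≤ x') (b' : x' ≤ w) (c' : 0 ≤ y') (d' : y' ≤ h) :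
    ‖(kM O O' * (starRingEnd ℂ) (Hl' (w - x) y - Hu' (w - x) (y - 1)) -
      kM O O' * (starRingEnd ℂ) (Hl' (w - x') y' - Hu' (w - x') (y' - 1))) -
      ((Hl x y - Hu x (y - 1)) - (Hl x' y' - Hu x' (y' - 1)))‖ ≤
      ‖(Ha x y - Ha x' y') - (Hn x y - Hn x' y')‖ +
      ‖(Ha' (w - x) y - Ha' (w - x') y') - (Hn' (w - x) y - Hn' (w - x') y')‖ := by
  obtain ⟨C, hC⟩ := mir_e M R R' hl hu hl' hu' ha hn ha' hn'
  rw [hC x y a b c d, hC x' y' a' b' c' d']
  have e : kM O O' * (starRingEnd ℂ) (Hl' (w - x) y - Hu' (w - x) (y - 1)) -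
      kM O O' * (starRingEnd ℂ) (Hl' (w - x') y' - Hu' (w - x') (y' - 1)) -
      (kM O O' * (starRingEnd ℂ) (Hl' (w - x) y - Hu' (w - x) (y - 1)) +
        (Ha x y - Hn x y) - kM O O' * (starRingEnd ℂ) (Ha' (w - x) y - Hn' (w - x) y) + C -
      (kM O O' * (starRingEnd ℂ) (Hl' (w - x') y' - Hu' (w - x') (y' - 1)) +
        (Ha x' y' - Hn x' y') -
        kM O O' * (starRingEnd ℂ) (Ha' (w - x') y' - Hn' (w - x') y') + C)) =
      kM O O' * (starRingEnd ℂ) ((Ha' (w - x) y - Ha' (w - x') y') -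
        (Hn' (w - x) y - Hn' (w - x') y')) -
      ((Ha x y - Ha x' y') - (Hn x y - Hn x' y')) := by
    simp only [map_sub]
    ring
  rw [e]
  refine (norm_sub_le _ _).trans ?_
  rw [norm_mul, norm_kM, one_mul, Complex.norm_conj, add_comm]

/-- **The mirror of the natural potential.** -/
theorem mir_f (M : OutM O O') {Hn Hn' : ℤ → ℤ → ℂ} (hn : Pot (fun c => (XN O).inc c) Hn 0 w 0 h)
    (hn' : Pot (fun c => (XN O').inc c) Hn' 0 w 0 h) {x y x' y' : ℤ} (a : 0 ≤ x) (b : x ≤ w)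
    (c : 0 ≤ y) (d : y ≤ h) (a' : 0 ≤ x') (b' : x' ≤ w) (c' : 0 ≤ y') (d' : y' ≤ h) :
    Hn x y - Hn x' y' = kM O O' * (starRingEnd ℂ) (Hn' (w - x) y) -
      kM O O' * (starRingEnd ℂ) (Hn' (w - x') y') := by
  have hh := O.hh
  obtain ⟨C, hC⟩ := mir_pot O (fun c hc => XN_mir M.symm hc) (by omega) hn' hn
  rw [kM_comm] at hC
  rw [hC x y a b c d, hC x' y' a' b' c' d']
  ring

end Pool.Agent.H74.R45
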