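import Mathlib
import Pool.Agent.Q1.M6f.GlueHol

set_option autoImplicit false
open MeasureTheory Set Filter Topology

/-! # The mirrored track

`Half` : the input for one kind of track. `Half.tracks` : two halves, the second one for the mirrored
outside, give `Tracks`. Mirror of grid points `v ↦ (W j - v.1, v.2)`. -/

namespace Pool.Agent.H74.R45

open Pool.Agent.Q1.M4 Pool.Agent.H25.Q1.Close Pool.Agent.Q1.M6f Pool.Agent.Q1.M6f.Glue

/-- mirror of grid points -/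
def mi (w : ℤ) (v : ℤ × ℤ) : ℤ × ℤ := (w - v.1, v.2)

lemma mi_sub (w : ℤ) (v : ℤ × ℤ) : mi w (v - uu) = mi w v - uu := by
  unfold mi uu
  refine Prod.ext ?_ ?_ <;> simp

lemma mi_rr (w : ℤ) (v : ℤ × ℤ) : mi w (v + rr) = mi w v - rr := by
  unfold mi rr
  refine Prod.ext ?_ ?_
  · simp only [Prod.fst_add, Prod.fst_sub]; ring
  · simp

lemma mi_add (w : ℤ) (v d : ℤ × ℤ) : mi w (v + d) = mi w v + (-d.1, d.2) := by
  unfold mi
  refine Prod.ext ?_ ?_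
  · simp only [Prod.fst_add]; ring
  · simp only [Prod.snd_add]

@[simp] lemma mi_mi (w : ℤ) (v : ℤ × ℤ) : mi w (mi w v) = v := by
  unfold mi
  refine Prod.ext ?_ ?_
  · simp only; ring
  · rfl

lemma Ev_mi {w : ℤ} {v : ℤ × ℤ} (h : Ev v) : Ev (mi w v) := h

/-- the mirror maps bulk points to bulk points -/
def MirOK (R : ℕ → ℝ) (F : Filter ℕ) (Ω : Set ℂ) (W : ℕ → ℤ) : Prop :=
  ∀ K ⊆ Ω, IsCompact K → ∃ K' ⊆ Ω, IsCompact K' ∧ ∀ᶠ j in F, ∀ v : ℤ × ℤ,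
    lat v / (R j : ℂ) ∈ K → lat (mi (W j) v) / (R j : ℂ) ∈ K'

/-- the mirror of an open set which is symmetric with respect to the line `Re = a / 2` -/
theorem mirOK_of {R : ℕ → ℝ} {F : Filter ℕ} {Ω : Set ℂ} {W : ℕ → ℤ} {a : ℝ}
    (hΩ : ∀ z ∈ Ω, (a : ℂ) - (starRingEnd ℂ) z ∈ Ω) (hW : ∀ᶠ j in F, 0 < R j ∧ (W j : ℝ) = a * R j) :
    MirOK R F Ω W := by
  intro K hK hKc
  refine ⟨(fun z => (a : ℂ) - (starRingEnd ℂ) z) '' K, ?_, ?_, ?_⟩
  · rintro _ ⟨z, hz, rfl⟩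
    exact hΩ z (hK hz)
  · exact hKc.image (by fun_prop)
  · filter_upwards [hW] with j hj v hv
    refine ⟨_, hv, ?_⟩
    have h0 : (R j : ℂ) ≠ 0 := by exact_mod_cast hj.1.ne'
    have h1 : ((W j : ℤ) : ℂ) = (a : ℂ) * (R j : ℂ) := by exact_mod_cast congrArg (fun x : ℝ => (x : ℂ)) hj.2
    simp only
    rw [map_div₀, Complex.conj_ofReal]
    unfold lat mi
    field_simp
    apply Complex.ext
    · simp [Complex.ext_iff] at h1 ⊢
      rw [← hj.2]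
    · simp

variable {R : ℕ → ℝ} {F : Filter ℕ} {Ω : Set ℂ} {V V₁ : ℕ → ℂ → ℤ × ℤ → ℂ}
  {f e ff fl f₁ e₁ ff₁ fl₁ A B : ℕ → ℤ × ℤ → ℂ} {κ : ℕ → ℂ} {W : ℕ → ℤ}

lemma norm_k {k a b : ℂ} (hk : ‖k‖ = 1) : ‖k * a - k * b‖ = ‖a - b‖ := by
  rw [← mul_sub, norm_mul, hk, one_mul]

/-- **The mirror of the input for one kind of track.** -/
theorem TrackIn_mir (h : TrackIn R F Ω V e A B) (hκ : ∀ j, ‖κ j‖ = 1) (hM : MirOK R F Ω W) :
    TrackIn R F Ω (fun j φ v => κ j * V j φ (mi (W j) v)) (fun j v => κ j * e j (mi (W j) v))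
      (fun j v => κ j * A j (mi (W j) v)) (fun j v => κ j * B j (mi (W j) v)) where
  ee := fun K hK hKc ε hε => by
    obtain ⟨K', h1, h2, h3⟩ := hM K hK hKc
    filter_upwards [h3, h.ee K' h1 h2 ε hε] with j h4 h5 u v a b hu hv
    rw [norm_k (hκ j)]
    exact h5 _ _ (Ev_mi a) (Ev_mi b) (h4 u hu) (h4 v hv)
  ab := fun K hK hKc => by
    obtain ⟨K', h1, h2, h3⟩ := hM K hK hKc
    obtain ⟨ρ1, hρ1, h6⟩ := h.ab K' h1 h2
    refine ⟨ρ1, hρ1, fun ρ a b ε hε => ?_⟩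
    filter_upwards [h3, h6 ρ a b ε hε] with j h4 h5 t ht u v a b hu hv
    rw [norm_k (hκ j)]
    exact h5 t ht _ _ (Ev_mi a) (Ev_mi b) (h4 u hu) (h4 v hv)
  cc := fun K hK hKc => by
    obtain ⟨K', h1, h2, h3⟩ := hM K hK hKc
    obtain ⟨C, c, hc, h6⟩ := h.cc K' h1 h2
    refine ⟨C, c, hc, fun ε hε Y => ?_⟩
    obtain ⟨ρ1, hρ1, h7⟩ := h6 ε hε Y
    refine ⟨ρ1, hρ1, fun ρ a b => ?_⟩
    filter_upwards [h3, h7 ρ a b] with j h4 h5
    obtain ⟨G, hG, h8⟩ := h5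
    refine ⟨G, hG, fun t ht u v a b hu hv => ?_⟩
    have h9 := h8 t ht _ _ (Ev_mi a) (Ev_mi b) (h4 u hu) (h4 v hv)
    refine (le_of_eq ?_).trans h9
    rw [← one_mul ‖(V j (rap ⌊ρ * R j⌋₊ t) (mi (W j) u) - V j (rap ⌊ρ * R j⌋₊ t) (mi (W j) v)) -
      (e j (mi (W j) u) - e j (mi (W j) v)) - (⌊ρ * R j⌋₊ : ℂ) * (G (pt t) *
        (A j (mi (W j) u) - A j (mi (W j) v)) + G (pt t + (Real.pi / 2 : ℝ)) *
        (B j (mi (W j) u) - B j (mi (W j) v)))‖, ← hκ j, ← norm_mul]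
    congr 1
    ring
  adA := fun K hK hKc ε hε => by
    obtain ⟨K', h1, h2, h3⟩ := hM K hK hKc
    filter_upwards [h3, h.adA K' h1 h2 ε hε] with j h4 h5 v hv
    rw [mi_sub, norm_k (hκ j)]
    exact h5 _ (h4 v hv)
  adB := fun K hK hKc ε hε => by
    obtain ⟨K', h1, h2, h3⟩ := hM K hK hKc
    filter_upwards [h3, h.adB K' h1 h2 ε hε] with j h4 h5 v hv
    rw [mi_sub, norm_k (hκ j)]
    exact h5 _ (h4 v hv)

/-- multiplication by unit constants -/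
theorem TrackIn_smul (h : TrackIn R F Ω V e A B) (hκ : ∀ j, ‖κ j‖ = 1) :
    TrackIn R F Ω (fun j φ v => κ j * V j φ v) (fun j v => κ j * e j v)
      (fun j v => κ j * A j v) (fun j v => κ j * B j v) where
  ee := fun K hK hKc ε hε => by
    filter_upwards [h.ee K hK hKc ε hε] with j h5 u v a b hu hv
    rw [norm_k (hκ j)]
    exact h5 _ _ a b hu hv
  ab := fun K hK hKc => by
    obtain ⟨ρ1, hρ1, h6⟩ := h.ab K hK hKc
    refine ⟨ρ1, hρ1, fun ρ a b ε hε => ?_⟩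
    filter_upwards [h6 ρ a b ε hε] with j h5 t ht u v a b hu hv
    rw [norm_k (hκ j)]
    exact h5 t ht _ _ a b hu hv
  cc := fun K hK hKc => by
    obtain ⟨C, c, hc, h6⟩ := h.cc K hK hKc
    refine ⟨C, c, hc, fun ε hε Y => ?_⟩
    obtain ⟨ρ1, hρ1, h7⟩ := h6 ε hε Y
    refine ⟨ρ1, hρ1, fun ρ a b => ?_⟩
    filter_upwards [h7 ρ a b] with j h5
    obtain ⟨G, hG, h8⟩ := h5
    refine ⟨G, hG, fun t ht u v a b hu hv => ?_⟩
    have h9 := h8 t ht _ _ a b hu hv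
    refine (le_of_eq ?_).trans h9
    rw [← one_mul ‖(V j (rap ⌊ρ * R j⌋₊ t) u - V j (rap ⌊ρ * R j⌋₊ t) v) -
      (e j u - e j v) - (⌊ρ * R j⌋₊ : ℂ) * (G (pt t) *
        (A j u - A j v) + G (pt t + (Real.pi / 2 : ℝ)) * (B j u - B j v))‖, ← hκ j, ← norm_mul]
    congr 1
    ring
  adA := fun K hK hKc ε hε => by
    filter_upwards [h.adA K hK hKc ε hε] with j h5 v hv
    rw [norm_k (hκ j)]
    exact h5 _ hv
  adB := fun K hK hKc ε hε => by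
    filter_upwards [h.adB K hK hKc ε hε] with j h5 v hv
    rw [norm_k (hκ j)]
    exact h5 _ hv

/-- **The input for one kind of track.** -/
structure Half (R : ℕ → ℝ) (F : Filter ℕ) (Ω : Set ℂ) (f e ff fl : ℕ → ℤ × ℤ → ℂ)
    (V : ℕ → ℂ → ℤ × ℤ → ℂ) : Prop where
  cff : ∀ K ⊆ Ω, IsCompact K → ∀ τ > 0, ∀ᶠ j in F, Cls {v | lat v / (R j : ℂ) ∈ K} τ (f j) (ff j)
  cfl : ∀ K ⊆ Ω, IsCompact K → ∀ τ > 0, ∀ᶠ j in F, Cls {v | lat v / (R j : ℂ) ∈ K} τ (f j) (fl j)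
  t : TrackIn R F Ω V e (fun j => al (e j) (ff j)) (fun j => be (e j) (fl j))

/-- the mirror of `g`, multiplied by `k` -/
noncomputable def mirF (k : ℂ) (w : ℤ) (g : ℤ × ℤ → ℂ) (v : ℤ × ℤ) : ℂ :=
  k * (starRingEnd ℂ) (g (mi w v))

lemma Cls_mir {S S' : Set (ℤ × ℤ)} {τ : ℝ} {f g f' g' : ℤ × ℤ → ℂ} {k : ℂ} {w : ℤ}
    (hk : ‖k‖ = 1) (h : Cls S' τ f' g') (hS : ∀ v ∈ S, mi w v ∈ S')
    (hf : ∀ u ∈ S, ∀ v ∈ S, f u - f v = mirF k w f' u - mirF k w f' v)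
    (hg : g = mirF k w g') : Cls S τ f g := by
  intro u hu v hv d h1 h2
  have h3 := h _ (hS u hu) _ (hS v hv) (-d.1, d.2) (by simpa using h1) (by simpa using h2)
  rw [hf u hu v hv, hg]
  unfold mirF
  rw [mi_add, mi_add]
  refine (le_of_eq ?_).trans h3
  rw [← mul_sub, ← mul_sub, ← mul_sub, norm_mul, hk, one_mul, ← map_sub, ← map_sub, ← map_sub,
    Complex.norm_conj]

/-- **The two kinds of tracks from one outside and its mirror.** -/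
theorem Half.tracks (h : Half R F Ω f e ff fl V) (h₁ : Half R F Ω f₁ e₁ ff₁ fl₁ V₁)
    (hκ : ∀ j, ‖κ j‖ = 1) (hM : MirOK R F Ω W)
    (hf : ∀ K ⊆ Ω, IsCompact K → ∀ᶠ j in F, ∀ u v : ℤ × ℤ, lat u / (R j : ℂ) ∈ K →
      lat v / (R j : ℂ) ∈ K →
      f j u - f j v = mirF (κ j) (W j) (f₁ j) u - mirF (κ j) (W j) (f₁ j) v)
    (hee : Agree R F Ω e (fun j => mirF (κ j) (W j) (e₁ j))) :
    Tracks R F Ω f e ff fl (fun j => mirF (κ j) (W j) (e₁ j)) (fun j => mirF (κ j) (W j) (ff₁ j))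
      (fun j => mirF (κ j) (W j) (fl₁ j)) V
      (fun j φ v => (starRingEnd ℂ) (κ j) * V₁ j φ (mi (W j) v)) where
  cff := h.cff
  cfl := h.cfl
  cff' := fun K hK hKc τ hτ => by
    obtain ⟨K', h1, h2, h3⟩ := hM K hK hKc
    filter_upwards [h3, h₁.cff K' h1 h2 τ hτ, hf K hK hKc] with j h4 h5 h6
    exact Cls_mir (hκ j) h5 h4 (fun u hu v hv => h6 u v hu hv) rfl
  cfr := fun K hK hKc τ hτ => by
    obtain ⟨K', h1, h2, h3⟩ := hM K hK hKc
    filter_upwards [h3, h₁.cfl K' h1 h2 τ hτ, hf K hK hKc] with j h4 h5 h6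
    exact Cls_mir (hκ j) h5 h4 (fun u hu v hv => h6 u v hu hv) rfl
  ee := hee
  t := h.t
  t' := by
    have h1 : ∀ j, ‖(starRingEnd ℂ) (κ j)‖ = 1 := fun j => by rw [Complex.norm_conj, hκ]
    have key := TrackIn_mir h₁.t h1 hM
    have e1 : (fun j v => (starRingEnd ℂ) (mirF (κ j) (W j) (e₁ j) v)) =
        fun j v => (starRingEnd ℂ) (κ j) * e₁ j (mi (W j) v) := by
      funext j v
      unfold mirF
      rw [map_mul, Complex.conj_conj]
    have e2 : (fun j v => (starRingEnd ℂ) (al (mirF (κ j) (W j) (e₁ j))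
        (mirF (κ j) (W j) (ff₁ j)) v)) =
        fun j v => (starRingEnd ℂ) (κ j) * al (e₁ j) (ff₁ j) (mi (W j) v) := by
      funext j v
      unfold al mirF
      rw [mi_sub]
      simp only [map_sub, map_mul, Complex.conj_conj]
      ring
    have e3 : (fun j v => (starRingEnd ℂ) (be' (mirF (κ j) (W j) (e₁ j))
        (mirF (κ j) (W j) (fl₁ j)) v)) =
        fun j v => (starRingEnd ℂ) (κ j) * be (e₁ j) (fl₁ j) (mi (W j) v) := by
      funext j v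
      unfold be be' mirF
      rw [mi_rr]
      simp only [map_sub, map_mul, Complex.conj_conj]
      ring
    rw [e1, e2, e3]
    exact key

/-- oscillation `o (1 / R)` in the bulk -/
def Sm (R : ℕ → ℝ) (F : Filter ℕ) (Ω : Set ℂ) (D : ℕ → ℤ × ℤ → ℂ) : Prop :=
  ∀ K ⊆ Ω, IsCompact K → ∀ ε > 0, ∀ᶠ j in F, ∀ u v : ℤ × ℤ, lat u / (R j : ℂ) ∈ K →
    lat v / (R j : ℂ) ∈ K → ‖D j u - D j v‖ ≤ ε / R j

/-- the grid points of the rectangle -/
def Rg (w h : ℤ) (v : ℤ × ℤ) : Prop := 0 ≤ v.1 ∧ v.1 ≤ w ∧ 0 ≤ v.2 ∧ v.2 ≤ h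

/-- **`Agree` from the displacements of the mark.** -/
theorem agree_mir {H : ℕ → ℤ} {D D' : ℕ → ℤ × ℤ → ℂ} (hM : MirOK R F Ω W)
    (hin : ∀ K ⊆ Ω, IsCompact K → ∀ᶠ j in F, ∀ v : ℤ × ℤ, lat v / (R j : ℂ) ∈ K →
      Rg (W j) (H j) v)
    (key : ∀ᶠ j in F, ∀ u v : ℤ × ℤ, Rg (W j) (H j) u → Rg (W j) (H j) v →
      ‖(mirF (κ j) (W j) (e₁ j) u - mirF (κ j) (W j) (e₁ j) v) - (e j u - e j v)‖ ≤
        ‖D j u - D j v‖ + ‖D' j (mi (W j) u) - D' j (mi (W j) v)‖)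
    (dl : Sm R F Ω D) (dl' : Sm R F Ω D') :
    Agree R F Ω e (fun j => mirF (κ j) (W j) (e₁ j)) := by
  intro K hK hKc ε hε
  obtain ⟨K', h1, h2, h3⟩ := hM K hK hKc
  filter_upwards [hin K hK hKc, key, dl K hK hKc (ε / 2) (by positivity),
    dl' K' h1 h2 (ε / 2) (by positivity), h3] with j k1 k2 k3 k4 k5 u v hu hv
  refine (k2 u v (k1 u hu) (k1 v hv)).trans ?_
  have e1 := k3 u v hu hv
  have e2 := k4 _ _ (k5 u hu) (k5 v hv)
  have e3 : ε / 2 / R j + ε / 2 / R j = ε / R j := by ring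
  linarith

/-! ### Unit constants -/

lemma mirF_mul {k l : ℂ} {w : ℤ} {g : ℤ × ℤ → ℂ} {v : ℤ × ℤ} :
    l * mirF k w g v = mirF (l * k) w g v := by
  unfold mirF
  ring

theorem Agree_smul {e e' : ℕ → ℤ × ℤ → ℂ} (h : Agree R F Ω e e') (hκ : ∀ j, ‖κ j‖ = 1) :
    Agree R F Ω (fun j v => κ j * e j v) (fun j v => κ j * e' j v) := by
  intro K hK hKc ε hε
  filter_upwards [h K hK hKc ε hε] with j hj u v hu hv
  have e0 : κ j * e' j u - κ j * e' j v - (κ j * e j u - κ j * e j v) =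
      κ j * ((e' j u - e' j v) - (e j u - e j v)) := by ring
  rw [e0, norm_mul, hκ, one_mul]
  exact hj u v hu hv

theorem Half.smul {g : ℕ → ℤ × ℤ → ℂ} (h : Half R F Ω f e ff fl V) (hκ : ∀ j, ‖κ j‖ = 1)
    (hg : ∀ K ⊆ Ω, IsCompact K → ∀ᶠ j in F, ∀ u v : ℤ × ℤ, lat u / (R j : ℂ) ∈ K →
      lat v / (R j : ℂ) ∈ K → g j u - g j v = κ j * f j u - κ j * f j v) :
    Half R F Ω g (fun j v => κ j * e j v) (fun j v => κ j * ff j v) (fun j v => κ j * fl j v)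
      (fun j φ v => κ j * V j φ v) where
  cff := fun K hK hKc τ hτ => by
    filter_upwards [h.cff K hK hKc τ hτ, hg K hK hKc] with j h5 h6 u hu v hv d h1 h2
    rw [h6 u v hu hv]
    refine (le_of_eq ?_).trans (h5 u hu v hv d h1 h2)
    rw [← mul_sub, ← mul_sub, ← mul_sub, norm_mul, hκ, one_mul]
  cfl := fun K hK hKc τ hτ => by
    filter_upwards [h.cfl K hK hKc τ hτ, hg K hK hKc] with j h5 h6 u hu v hv d h1 h2
    rw [h6 u v hu hv]
    refine (le_of_eq ?_).trans (h5 u hu v hv d h1 h2)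
    rw [← mul_sub, ← mul_sub, ← mul_sub, norm_mul, hκ, one_mul]
  t := by
    have key := TrackIn_smul h.t hκ
    have e1 : (fun j => al (fun v => κ j * e j v) (fun v => κ j * ff j v)) =
        fun j v => κ j * al (e j) (ff j) v := by
      funext j v; unfold al; ring
    have e2 : (fun j => be (fun v => κ j * e j v) (fun v => κ j * fl j v)) =
        fun j v => κ j * be (e j) (fl j) v := by
      funext j v; unfold be; ring
    rw [e1, e2]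
    exact key

end Pool.Agent.H74.R45
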