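import Mathlib
import Pool.Agent.H74.R45.Mir
import Pool.Agent.H74.R45.MirT

set_option autoImplicit false
open Finset

/-! # The mirrored outside, normalised functions

`N` : the normalisation `R ^ (-2/3)`. `key_mir` : the hypothesis `key` of `agree_mir`. `f_mir` : the
hypothesis `hf` of `Half.tracks`, for one index. -/

namespace Pool.Agent.H74.R45

open Pool.Agent.H75.Perc hiding ph
open Pool.Agent.H75.TwoArm Pool.Agent.Q1 Pool.Agent.H33.Q1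
open Pool.Agent.H75.Four Pool.Agent.H69.Q1

variable {w h : ℤ} {O O' : Out w h}

/-- a function on the grid, normalised -/
noncomputable def nf (N : ℝ) (H : ℤ → ℤ → ℂ) (v : ℤ × ℤ) : ℂ := (N : ℂ) * H v.1 v.2

/-- low minus up, normalised -/
noncomputable def ne (N : ℝ) (Hl Hu : ℤ → ℤ → ℂ) (v : ℤ × ℤ) : ℂ :=
  (N : ℂ) * (Hl v.1 v.2 - Hu v.1 (v.2 - 1))

lemma Rg_mi {v : ℤ × ℤ} (hv : Rg w h v) : Rg w h (mi w v) := by
  obtain ⟨a, b, c, d⟩ := hv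
  exact ⟨by unfold mi; simp only; omega, by unfold mi; simp only; omega, c, d⟩

/-- **`key` of `agree_mir`** -/
theorem key_mir (M : OutM O O') (R : RootOut O) (R' : RootOut O') {Hl Hu Hl' Hu' : ℤ → ℤ → ℂ}
    (hl : Pot (FJ O 0 1 0) Hl 0 w 0 h) (hu : Pot (FJ O 0 1 h) Hu 0 w (-1) (h - 1))
    (hl' : Pot (FJ O' 0 1 0) Hl' 0 w 0 h) (hu' : Pot (FJ O' 0 1 h) Hu' 0 w (-1) (h - 1))
    {Ha Hn Ha' Hn' : ℤ → ℤ → ℂ} (ha : Pot (fun c => (XA O).inc c) Ha 0 w 0 h)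
    (hn : Pot (fun c => (XN O).inc c) Hn 0 w 0 h) (ha' : Pot (fun c => (XA O').inc c) Ha' 0 w 0 h)
    (hn' : Pot (fun c => (XN O').inc c) Hn' 0 w 0 h) {N : ℝ} {u v : ℤ × ℤ}
    (hu1 : Rg w h u) (hv1 : Rg w h v) :
    ‖(mirF (kM O O') w (ne N Hl' Hu') u - mirF (kM O O') w (ne N Hl' Hu') v) -
      (ne N Hl Hu u - ne N Hl Hu v)‖ ≤
      ‖nf N (Ha - Hn) u - nf N (Ha - Hn) v‖ +
        ‖nf N (Ha' - Hn') (mi w u) - nf N (Ha' - Hn') (mi w v)‖ := by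
  have key := mir_bound M R R' hl hu hl' hu' ha hn ha' hn' hu1.1 hu1.2.1 hu1.2.2.1 hu1.2.2.2
    hv1.1 hv1.2.1 hv1.2.2.1 hv1.2.2.2
  have e1 : (mirF (kM O O') w (ne N Hl' Hu') u - mirF (kM O O') w (ne N Hl' Hu') v) -
      (ne N Hl Hu u - ne N Hl Hu v) = (N : ℂ) *
      ((kM O O' * (starRingEnd ℂ) (Hl' (w - u.1) u.2 - Hu' (w - u.1) (u.2 - 1)) -
      kM O O' * (starRingEnd ℂ) (Hl' (w - v.1) v.2 - Hu' (w - v.1) (v.2 - 1))) -
      ((Hl u.1 u.2 - Hu u.1 (u.2 - 1)) - (Hl v.1 v.2 - Hu v.1 (v.2 - 1)))) := by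
    unfold mirF ne mi
    simp only [map_mul, Complex.conj_ofReal]
    ring
  have e2 : nf N (Ha - Hn) u - nf N (Ha - Hn) v = (N : ℂ) *
      ((Ha u.1 u.2 - Ha v.1 v.2) - (Hn u.1 u.2 - Hn v.1 v.2)) := by
    unfold nf
    simp only [Pi.sub_apply]
    ring
  have e3 : nf N (Ha' - Hn') (mi w u) - nf N (Ha' - Hn') (mi w v) = (N : ℂ) *
      ((Ha' (w - u.1) u.2 - Ha' (w - v.1) v.2) - (Hn' (w - u.1) u.2 - Hn' (w - v.1) v.2)) := by
    unfold nf mi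
    simp only [Pi.sub_apply]
    ring
  rw [e1, e2, e3, norm_mul, norm_mul, norm_mul, ← mul_add]
  exact mul_le_mul_of_nonneg_left key (norm_nonneg _)

/-- **`hf` of `Half.tracks`**, for one index -/
theorem f_mir (M : OutM O O') {Hn Hn' : ℤ → ℤ → ℂ} (hn : Pot (fun c => (XN O).inc c) Hn 0 w 0 h)
    (hn' : Pot (fun c => (XN O').inc c) Hn' 0 w 0 h) (N : ℝ) {u v : ℤ × ℤ} (hu1 : Rg w h u)
    (hv1 : Rg w h v) : nf N Hn u - nf N Hn v =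
      mirF (kM O O') w (nf N Hn') u - mirF (kM O O') w (nf N Hn') v := by
  have key := mir_f M hn hn' hu1.1 hu1.2.1 hu1.2.2.1 hu1.2.2.2 hv1.1 hv1.2.1 hv1.2.2.1 hv1.2.2.2
  unfold mirF nf mi
  simp only [map_mul, Complex.conj_ofReal]
  linear_combination (N : ℂ) * key

end Pool.Agent.H74.R45
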