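import Mathlib
import Pool.Agent.H74.R45.TilesJ

set_option autoImplicit false
open Finset

/-! # The list of the wires of the network of `XJ O j`

`j` is even, `0 ≤ j ≤ h`. Tiles: `D` = `(x, y)`, `0 ≤ x < w`, `-1 ≤ y < h`, left column `(-1, y)`,
`j ≤ y < h`, right column `(w, y)`, `-1 ≤ y < j - 1`. Neighbouring tiles are joined (`isW_EW`,
`isW_NS`), the other wires are listed here, with the turning from the first to the second end. -/

namespace Pool.Agent.H74.R45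

open Pool.Agent.H75.Perc Pool.Agent.H75.TwoArm Pool.Agent.Q1 Pool.Agent.H33.Q1
open Pool.Agent.H75.Four Pool.Agent.H69.Q1 Pool.Agent.H81.G1

variable {w h j m : ℤ} (O : Out w h) (h0 : 0 ≤ j) (h1 : j ≤ h)

lemma oH {x y : ℤ} {d : Dir} (hd : d.v = false) (H : (x + y) % 2 = 0) : inq (x, y) d = false := by
  unfold inq
  simp only
  rw [hd, decide_eq_false (by omega)]; rfl

lemma oV {x y : ℤ} {d : Dir} (hd : d.v = true) (H : (x + y) % 2 = 1) : inq (x, y) d = false := by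
  unfold inq
  simp only
  rw [hd, decide_eq_true (by omega)]; rfl

lemma iH {x y : ℤ} {d : Dir} (hd : d.v = false) (H : (x + y) % 2 = 1) : inq (x, y) d = true := by
  unfold inq
  simp only
  rw [hd, decide_eq_true (by omega)]; rfl

lemma iV {x y : ℤ} {d : Dir} (hd : d.v = true) (H : (x + y) % 2 = 0) : inq (x, y) d = true := by
  unfold inq
  simp only
  rw [hd, decide_eq_false (by omega)]; rfl

/-- outer caps of the left column -/
lemma L_out (hj : j % 2 = 0) (a : j < 2 * m) (b : 2 * m < h) (p : (-1, 2 * m - 1) ∈ PJ w h j)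
    (q : (-1, 2 * m) ∈ PJ w h j) : IsW O h0 h1 (⟨_, p⟩, .W) (⟨_, q⟩, .W) (-2) :=
  isW_of (oH rfl (by omega)) (iH rfl (by omega))
    (w_left_out O h0 h1 a b) rfl rfl

/-- from the last end of `P-` on the left wall to the first outer end of the left column -/
lemma L_mid (hj : j % 2 = 0) (a : 2 ≤ j) (b : j < h) (p : (0, j - 2) ∈ PJ w h j)
    (q : (-1, j) ∈ PJ w h j) : IsW O h0 h1 (⟨_, p⟩, .W) (⟨_, q⟩, .W) (-2) :=
  isW_of (oH rfl (by omega)) (iH rfl (by omega))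
    (w_left_mid O h0 h1 hj a b) rfl rfl

/-- caps of `P-` on the left wall -/
lemma L_low (a : 0 ≤ m) (b : 2 * m + 2 < j) (p : (0, 2 * m) ∈ PJ w h j)
    (q : (0, 2 * m + 1) ∈ PJ w h j) : IsW O h0 h1 (⟨_, p⟩, .W) (⟨_, q⟩, .W) (-2) :=
  isW_of (oH rfl (by omega)) (iH rfl (by omega))
    (w_left_low O h0 h1 a b) rfl rfl

/-- caps of the ceiling -/
lemma C_cap (a : 1 ≤ m) (b : 2 * m < w) (p : (2 * m, h - 1) ∈ PJ w h j)
    (q : (2 * m - 1, h - 1) ∈ PJ w h j) : IsW O h0 h1 (⟨_, p⟩, .N) (⟨_, q⟩, .N) 2 :=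
  isW_of (oV rfl (by have := O.h2; omega))
    (iV rfl (by have := O.h2; omega))
    (w_ceil O h0 h1 a b) (he_eq rfl (by ring)) (he_eq rfl (by ring))

/-- the first end of the ceiling and the upper end of the line, `j < h` -/
lemma C_zero (a : j < h) (p : (0, h - 1) ∈ PJ w h j) (q : (-1, h - 1) ∈ PJ w h j) :
    IsW O h0 h1 (⟨_, p⟩, .N) (⟨_, q⟩, .N) 2 :=
  isW_of (oV rfl (by have := O.h2; omega))
    (iV rfl (by have := O.h2; omega))
    (w_ceil0 O h0 h1 a) (he_eq rfl (by ring)) (he_eq rfl (by ring))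

/-- the first end of the ceiling and the first end of the line, `j = h` -/
lemma C_zero' (a : j = h) (p : (0, h - 1) ∈ PJ w h j) :
    IsW O h0 h1 (⟨_, p⟩, .N) (⟨_, p⟩, .W) 3 :=
  isW_of (oV rfl (by have := O.h2; omega))
    (iH rfl (by have := O.h2; omega))
    (w_ceil0' O h0 h1 a) (he_eq rfl (by ring)) rfl

/-- caps of the floor -/
lemma F_cap (a : 0 ≤ m) (b : 2 * m < w) (p : (2 * m, -1) ∈ PJ w h j)
    (q : (2 * m + 1, -1) ∈ PJ w h j) : IsW O h0 h1 (⟨_, p⟩, .S) (⟨_, q⟩, .S) 2 :=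
  isW_of (oV rfl (by omega)) (iV rfl (by omega))
    (w_floor O h0 h1 a b) rfl rfl

/-- caps of `P+` on the right wall -/
lemma R_up (a : j ≤ 2 * m) (b : 2 * m < h) (p : (w - 1, 2 * m + 1) ∈ PJ w h j)
    (q : (w - 1, 2 * m) ∈ PJ w h j) : IsW O h0 h1 (⟨_, p⟩, .E) (⟨_, q⟩, .E) (-2) :=
  isW_of (oH rfl (by have := O.w2; omega))
    (iH rfl (by have := O.w2; omega))
    (w_right_up O h0 h1 a b) (ve_eq (by ring) rfl) (ve_eq (by ring) rfl)

/-- outer caps of the right column -/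
lemma R_out (a : 0 ≤ m) (b : 2 * m < j) (p : (w, 2 * m) ∈ PJ w h j)
    (q : (w, 2 * m - 1) ∈ PJ w h j) : IsW O h0 h1 (⟨_, p⟩, .E) (⟨_, q⟩, .E) (-2) :=
  isW_of (oH rfl (by have := O.w2; omega))
    (iH rfl (by have := O.w2; omega))
    (w_right_out O h0 h1 a b) rfl rfl

/-- the turn of the line between the left column and the row -/
lemma T_left (hj : j % 2 = 0) (p : (-1, j) ∈ PJ w h j) (q : (0, j - 1) ∈ PJ w h j) :
    IsW O h0 h1 (⟨_, p⟩, .S) (⟨_, q⟩, .W) 1 :=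
  isW_of (oV rfl (by omega)) (iH rfl (by omega))
    (w_turn_left O h0 h1 hj) rfl rfl

/-- the turn of the line between the row and the right column -/
lemma T_right (hj : j % 2 = 0) (p : (w - 1, j - 1) ∈ PJ w h j) (q : (w, j - 2) ∈ PJ w h j) :
    IsW O h0 h1 (⟨_, p⟩, .E) (⟨_, q⟩, .N) (-1) :=
  isW_of (oH rfl (by have := O.w2; omega))
    (iV rfl (by have := O.w2; omega))
    (w_turn_right O h0 h1 hj) (ve_eq (by ring) rfl) (he_eq rfl (by ring))

/-! ### Outer wires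

`XNW`, `XSE` : the outgoing ends which lead to the exit corners `he (-2, h)` and `ve (w+1, -2)`;
`ESW`, `ENE` : the incoming ends which are reached from the entry corners `ve (-1, -2)` and
`he (w+1, h)`. -/

/-- position of the exit end at NW -/
def qNW (h j : ℤ) : ℤ × ℤ := if j < h then (-1, h - 1) else (0, h - 2)

/-- position and direction of the exit end at SE -/
def qSE (w j : ℤ) : (ℤ × ℤ) × Dir := if 2 ≤ j then ((w, -1), .S) else ((w - 1, -1), .E)

/-- position of the entry end at SW -/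
def qSW (j : ℤ) : ℤ × ℤ := if 2 ≤ j then (0, -1) else (-1, 0)

lemma out_NW (hj : j % 2 = 0) : Wire (XJ O j h0 h1) (ce (qNW h j) .W) (he (-2, h)) (-1) := by
  unfold qNW
  by_cases h : j < h
  · rw [if_pos h]; exact w_NW O h0 h1 h
  · rw [if_neg h]; exact w_NW' O h0 h1 (by omega)

lemma out_SE (hj : j % 2 = 0) : Wire (XJ O j h0 h1) (ce (qSE w j).1 (qSE w j).2)
    (ve (w + 1, -2)) (if 2 ≤ j then 1 else 0) := by
  unfold qSE
  by_cases h : 2 ≤ j
  · rw [if_pos h, if_pos h]; exact w_SE O h0 h1 hj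
  · rw [if_neg h, if_neg h]
    have hj0 : j = 0 := by omega
    have e1 := w_turn_right O h0 h1 hj
    have e2 := w_SE O h0 h1 hj
    subst hj0
    have := e1.trans e2
    have e3 : ce (w - 1, -1) .E = ve (w, 0 - 1) := ve_eq (by ring) (by ring)
    show Wire _ (ce (w - 1, -1) .E) _ _
    rw [e3]
    exact this

lemma in_SW (hj : j % 2 = 0) : Wire (XJ O j h0 h1) (ve (-1, -2)) (ce (qSW j) .W) 0 := by
  unfold qSW
  by_cases h : 2 ≤ j
  · rw [if_pos h]; exact w_SW O h0 h1 h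
  · rw [if_neg h]; exact w_SW' O h0 h1 (by omega)

lemma in_NE (hj : j % 2 = 0) : Wire (XJ O j h0 h1) (he (w + 1, h)) (ce (w - 1, h - 1) .N) 0 := by
  have := w_NE O h0 h1 hj
  have e : ce (w - 1, h - 1) .N = he (w - 1, h) := he_eq rfl (by ring)
  rw [e]; exact this

/-- the entry end behind an entry corner: position and direction -/
noncomputable def qEnt (w h j : ℤ) (b : ℤ × ℤ) : (ℤ × ℤ) × Dir :=
  if b = ve (-1, -2) then (qSW j, .W) else ((w - 1, h - 1), .N)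

lemma in_ent (hj : j % 2 = 0) {b : ℤ × ℤ} (hb : IsEnt w h b) :
    Wire (XJ O j h0 h1) b (ce (qEnt w h j b).1 (qEnt w h j b).2) 0 := by
  unfold qEnt
  rcases hb with rfl | rfl
  · rw [if_pos rfl]; exact in_SW O h0 h1 hj
  · rw [if_neg (fun h => ve_ne_he _ _ h.symm)]; exact in_NE O h0 h1 hj

/-- the exit end before an exit corner: position and direction -/
noncomputable def qExt (w h j : ℤ) (a : ℤ × ℤ) : (ℤ × ℤ) × Dir :=
  if a = he (-2, h) then (qNW h j, .W) else qSE w j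

/-- turning from the exit end to the exit corner -/
noncomputable def tExt (h j : ℤ) (a : ℤ × ℤ) : ℤ :=
  if a = he (-2, h) then -1 else (if 2 ≤ j then 1 else 0)

lemma out_ext (hj : j % 2 = 0) {a : ℤ × ℤ} (ha : IsExt w h a) :
    Wire (XJ O j h0 h1) (ce (qExt w h j a).1 (qExt w h j a).2) a (tExt h j a) := by
  unfold qExt tExt
  rcases ha with rfl | rfl
  · rw [if_pos rfl, if_pos rfl]; exact out_NW O h0 h1 hj
  · rw [if_neg (ve_ne_he _ _), if_neg (ve_ne_he _ _)]; exact out_SE O h0 h1 hj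

lemma pD {x y : ℤ} (a : 0 ≤ x) (b : x < w) (c : -1 ≤ y) (d : y < h) : (x, y) ∈ PJ w h j :=
  mem_PJ.2 (Or.inl ⟨a, b, c, d⟩)

lemma pL {y : ℤ} (c : j ≤ y) (d : y < h) : (-1, y) ∈ PJ w h j :=
  mem_PJ.2 (Or.inr (Or.inl ⟨rfl, c, d⟩))

lemma pR {y : ℤ} (c : -1 ≤ y) (d : y < j - 1) : (w, y) ∈ PJ w h j :=
  mem_PJ.2 (Or.inr (Or.inr ⟨rfl, c, d⟩))

lemma mem_ext (O : Out w h) (h0 : 0 ≤ j) (h1 : j ≤ h) (hj : j % 2 = 0) (a : ℤ × ℤ) :
    (qExt w h j a).1 ∈ PJ w h j ∧ inq (qExt w h j a).1 (qExt w h j a).2 = false := by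
  have hw := O.hw
  have hh := O.hh
  have w2 := O.w2
  have h2 := O.h2
  unfold qExt
  by_cases ha : a = he (-2, h)
  · rw [if_pos ha]
    unfold qNW
    by_cases hb : j < h
    · rw [if_pos hb]
      exact ⟨pL (by omega) (by omega), oH rfl (by omega)⟩
    · rw [if_neg hb]
      exact ⟨pD (by omega) (by omega) (by omega) (by omega), oH rfl (by omega)⟩
  · rw [if_neg ha]
    unfold qSE
    by_cases hb : 2 ≤ j
    · rw [if_pos hb]
      exact ⟨pR (by omega) (by omega), oV rfl (by omega)⟩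
    · rw [if_neg hb]
      exact ⟨pD (by omega) (by omega) (by omega) (by omega), oH rfl (by omega)⟩

lemma mem_ent (O : Out w h) (h0 : 0 ≤ j) (h1 : j ≤ h) (hj : j % 2 = 0) (b : ℤ × ℤ) :
    (qEnt w h j b).1 ∈ PJ w h j ∧ inq (qEnt w h j b).1 (qEnt w h j b).2 = true := by
  have hw := O.hw
  have hh := O.hh
  have w2 := O.w2
  have h2 := O.h2
  unfold qEnt
  by_cases ha : b = ve (-1, -2)
  · rw [if_pos ha]
    unfold qSW
    by_cases hb : 2 ≤ j
    · rw [if_pos hb]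
      exact ⟨pD (by omega) (by omega) (by omega) (by omega), iH rfl (by omega)⟩
    · rw [if_neg hb]
      exact ⟨pL (by omega) (by omega), iH rfl (by omega)⟩
  · rw [if_neg ha]
    exact ⟨pD (by omega) (by omega) (by omega) (by omega), iV rfl (by omega)⟩

/-- **The outer wires**: `σ`, `τ` do not depend on `j`. -/
theorem outer_isW (O : Out w h) : ∃ (σ : ℤ × ℤ → ℤ × ℤ) (τ : ℤ × ℤ → ℤ), ∀ a, IsExt w h a →
    IsEnt w h (σ a) ∧ ∀ j (h0 : 0 ≤ j) (h1 : j ≤ h) (hj : j % 2 = 0),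
      IsW O h0 h1 (⟨_, (mem_ext O h0 h1 hj a).1⟩, (qExt w h j a).2)
        (⟨_, (mem_ent O h0 h1 hj (σ a)).1⟩, (qEnt w h j (σ a)).2) (tExt h j a + τ a) := by
  obtain ⟨σ, τ, H⟩ := wires_outer O
  refine ⟨σ, τ, fun a ha => ⟨(H a ha).1, fun j h0 h1 hj => ?_⟩⟩
  have e := ((out_ext O h0 h1 hj ha).trans ((H a ha).2 j h0 h1)).trans
    (in_ent O h0 h1 hj (H a ha).1)
  rw [add_zero] at e
  exact isW_of (mem_ext O h0 h1 hj a).2 (mem_ent O h0 h1 hj (σ a)).2 e rfl rfl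

/-- **The root**: the first incoming end is the same entry for all `j`. -/
theorem root_ent (O : Out w h) (hc : plab O.c0 ∉ RT (-2) (w + 2) (-2) (h + 1))
    (hm : ∃ i, lab ((nx (OW O))^[i] O.c0) ∈ IB w h) : ∃ b t, IsEnt w h b ∧
      ∀ j (h0 : 0 ≤ j) (h1 : j ≤ h), j % 2 = 0 → Wire (XJ O j h0 h1) O.c0
        (ce (qEnt w h j b).1 (qEnt w h j b).2) t := by
  obtain ⟨n, b, hb, hn, hav⟩ := outer_path O (Or.inr hc) hm
  refine ⟨b, ∑ i ∈ range n, del (OW O) ((nx (OW O))^[i] O.c0), hb, fun j h0 h1 hj => ?_⟩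
  have e := (wire_outer (O := O) h0 h1 (a := O.c0) (n := n) fun i hi => hav i (by omega)).2
  rw [hn] at e
  have e2 := e.trans (in_ent O h0 h1 hj hb)
  rw [add_zero] at e2
  exact e2

lemma Wire.meets {X : Env} {c c' : ℤ × ℤ} {t : ℤ} (H : Wire X c c' t) (hc : lab c' ∈ X.E)
    (h0 : c = X.c0) : Meets X := by
  obtain ⟨n, -, h2, -⟩ := H
  refine ⟨n, ?_⟩
  rw [← h0, h2]; exact hc

end Pool.Agent.H74.R45
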